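import Pool.Agent.H888R2.KT.Defs
import Pool.Agent.H888R2.KC.F2

/-!
# C1: components of tuples
-/

set_option autoImplicit false

namespace Pool.Agent.H888R2.KT

open MeasureTheory Set Matrix Pool.Agent.H888R2.KC
open scoped ENNReal InnerProductSpace
open Pool.Agent.H212R2.KLS (mu Bdd ev gr)

section tuples

variable {𝕜 : Type} [RCLike 𝕜] {N q : ℕ} {ι : Type} [Fintype ι]
  {Φ : EuclideanSpace ℝ ι →ₗ[ℝ] Matrix (Fin N) (Fin N) 𝕜}

theorem C1x.cp_apply (j : Fin q) (x : EuclideanSpace ℝ (Fin q × ι)) (i : ι) :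
    cp j x i = x (j, i) := rfl

theorem C1x.inj_apply (v : EuclideanSpace ℝ ι) (j : Fin q) (p : Fin q × ι) :
    inj v j p = if p.1 = j then v p.2 else 0 := by
  classical
  show (if p.1 = j then v p.2 else 0) = _
  split_ifs <;> rfl

theorem inner_cp (x y : EuclideanSpace ℝ (Fin q × ι)) :
    ⟪x, y⟫_ℝ = ∑ j, ⟪cp j x, cp j y⟫_ℝ := by
  rw [PiLp.inner_apply, Fintype.sum_prod_type]
  refine Finset.sum_congr rfl fun j _ => ?_
  rw [PiLp.inner_apply]
  rfl

theorem norm_cp (x : EuclideanSpace ℝ (Fin q × ι)) : ‖x‖ ^ 2 = ∑ j, ‖cp j x‖ ^ 2 := by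
  rw [← real_inner_self_eq_norm_sq, inner_cp]
  refine Finset.sum_congr rfl fun j _ => ?_
  rw [real_inner_self_eq_norm_sq]

theorem cp_di (A : EuclideanSpace ℝ ι →ₗ[ℝ] EuclideanSpace ℝ ι)
    (x : EuclideanSpace ℝ (Fin q × ι)) (j : Fin q) : cp j (di q A x) = A (cp j x) := by
  ext i
  rfl

theorem ext_cp (x y : EuclideanSpace ℝ (Fin q × ι)) (h : ∀ j, cp j x = cp j y) : x = y := by
  ext p
  obtain ⟨j, i⟩ := p
  have h1 := congrArg (fun z : EuclideanSpace ℝ ι => z i) (h j)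
  exact h1

theorem cp_inj (v : EuclideanSpace ℝ ι) (i j : Fin q) :
    cp i (inj v j) = if i = j then v else 0 := by
  ext k
  rw [C1x.cp_apply, C1x.inj_apply]
  split_ifs <;> rfl

theorem inner_inj (v : EuclideanSpace ℝ ι) (j : Fin q) (x : EuclideanSpace ℝ (Fin q × ι)) :
    ⟪inj v j, x⟫_ℝ = ⟪v, cp j x⟫_ℝ := by
  rw [inner_cp, Finset.sum_eq_single j]
  · rw [cp_inj, if_pos rfl]
  · intro i _ hi
    rw [cp_inj, if_neg hi, inner_zero_left]
  · intro h
    exact absurd (Finset.mem_univ j) h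

theorem orth_inj (h : Fr Φ) (hN : 1 ≤ N) :
    Orthonormal ℝ (fun j : Fin q => inj (tv Φ) j) := by
  classical
  rw [orthonormal_iff_ite]
  intro i j
  rw [inner_inj, cp_inj]
  split_ifs
  · rw [real_inner_self_eq_norm_sq, norm_tv h hN]
    norm_num
  · rw [inner_zero_right]

end tuples

end Pool.Agent.H888R2.KT
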