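import Pool.Agent.H888R2.KT.Defs
import Pool.Agent.H888R2.KC.A6

/-!
# KT C6b (helper177): polynomials annihilated by all commutator fields are invariant under
simultaneous conjugation by Cayley unitaries
-/

set_option autoImplicit false

namespace Pool.Agent.H888R2.KT

open MeasureTheory Set Matrix Pool.Agent.H888R2.KC
open scoped ENNReal InnerProductSpace
open Pool.Agent.H212R2.KLS (mu Bdd ev gr)

variable {𝕜 : Type} [RCLike 𝕜] {N q : ℕ} {ι : Type} [Fintype ι]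
  {Φ : EuclideanSpace ℝ ι →ₗ[ℝ] Matrix (Fin N) (Fin N) 𝕜}

namespace C6bx

theorem dl_zero (p : MvPolynomial (Fin q × ι) ℝ) (hp : ∀ k, dl (di q (ad Φ (Km 𝕜 k))) p = 0)
    (K : Matrix (Fin N) (Fin N) 𝕜) (hK : Kᴴ = -K) : dl (di q (ad Φ K)) p = 0 := by
  rw [dl_sum (fun k => di q (ad Φ (Km 𝕜 k))) (fun k => ip (Km 𝕜 k) K) (di q (ad Φ K)) _ p]
  · apply Finset.sum_eq_zero
    intro k _
    rw [hp k, smul_zero]
  · intro x
    have h2 : ∀ y : EuclideanSpace ℝ ι, ad Φ K y = ∑ k, ip (Km 𝕜 k) K • ad Φ (Km 𝕜 k) y := by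
      intro y
      have h1 : K * Φ y - Φ y * K =
          ∑ k, ip (Km 𝕜 k) K • (Km 𝕜 k * Φ y - Φ y * Km 𝕜 k) := by
        conv_lhs => rw [← Km_complete K hK]
        rw [Finset.sum_mul, Finset.mul_sum, ← Finset.sum_sub_distrib]
        apply Finset.sum_congr rfl
        intro k _
        rw [smul_mul_assoc, mul_smul_comm, smul_sub]
      show ps Φ (K * Φ y - Φ y * K) = ∑ k, ip (Km 𝕜 k) K • ps Φ (Km 𝕜 k * Φ y - Φ y * Km 𝕜 k)
      rw [h1, map_sum]
      apply Finset.sum_congr rfl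
      intro k _
      rw [map_smul]
    ext p'
    show (ad Φ K (cp p'.1 x)) p'.2 = _
    rw [h2]
    simp only [WithLp.ofLp_sum, WithLp.ofLp_smul, Finset.sum_apply, Pi.smul_apply]
    rfl

theorem path_deriv (h : Fr Φ) {K : Matrix (Fin N) (Fin N) 𝕜} (hK : Kᴴ = -K)
    (x : EuclideanSpace ℝ (Fin q × ι)) (s : ℝ) :
    HasDerivAt (fun t : ℝ => di q (cj Φ (cay (t • K))) x)
      (di q (ad Φ (A6x.Ws K s s)) (di q (cj Φ (cay (s • K))) x)) s := by
  have h1 : HasDerivAt (fun t : ℝ => fun p : Fin q × ι => (cj Φ (cay (t • K)) (cp p.1 x)) p.2)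
      (fun p => (ad Φ (A6x.Ws K s s) (cj Φ (cay (s • K)) (cp p.1 x))) p.2) s := by
    rw [hasDerivAt_pi]
    intro p
    exact ((EuclideanSpace.proj p.2 : EuclideanSpace ℝ ι →L[ℝ] ℝ).hasFDerivAt.comp_hasDerivAt s
      (A6x.path_deriv h hK (cp p.1 x) s))
  exact ((PiLp.continuousLinearEquiv 2 ℝ
    (fun _ : Fin q × ι => ℝ)).symm.hasFDerivAt).comp_hasDerivAt s h1

end C6bx

theorem CI_of_dl (h : Fr Φ) (p : MvPolynomial (Fin q × ι) ℝ)
    (hp : ∀ k, dl (di q (ad Φ (Km 𝕜 k))) p = 0) : CI Φ (ev p) := by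
  intro K hK x
  have hd : ∀ s : ℝ, HasDerivAt (fun t : ℝ => ev p (di q (cj Φ (cay (t • K))) x)) 0 s := by
    intro s
    have h1 : DifferentiableAt ℝ (ev p) (di q (cj Φ (cay (s • K))) x) :=
      (Pool.Agent.H212R2.KLS.ev_contDiff p 1).differentiable (by norm_num) _
    have h2 := h1.hasFDerivAt.comp_hasDerivAt s (C6bx.path_deriv h hK x s)
    rw [← ev_dl, C6bx.dl_zero p hp _ (A6x.Ws_skew hK s)] at h2
    have h3 : ev (0 : MvPolynomial (Fin q × ι) ℝ) (di q (cj Φ (cay (s • K))) x) = 0 := by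
      unfold ev
      rw [map_zero]
    rw [h3] at h2
    exact h2
  have hconst := is_const_of_deriv_eq_zero (fun s => (hd s).differentiableAt)
    (fun s => (hd s).deriv) 1 0
  have h0 : cay ((0 : ℝ) • K) = 1 := by
    unfold cay
    rw [zero_smul, sub_zero, add_zero, inv_one, mul_one]
  have h4 : di q (cj Φ (1 : Matrix (Fin N) (Fin N) 𝕜)) x = x := by
    ext p'
    show (cj Φ 1 (cp p'.1 x)) p'.2 = x p'
    rw [cj_one h]
    rfl
  rw [one_smul, h0, h4] at hconst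
  exact hconst

end Pool.Agent.H888R2.KT
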