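import Pool.Agent.H888R2.KT.Defs

/-!
# Task N11 (helper227): gradient of an invariant function and its second derivative
-/

set_option autoImplicit false

namespace Pool.Agent.H888R2.KT

open MeasureTheory Set Matrix Pool.Agent.H888R2.KC
open scoped ENNReal InnerProductSpace
open Pool.Agent.H212R2.KLS (mu Bdd ev gr)

variable {κ : Type} [Fintype κ]

namespace N11x

theorem diff (v : EuclideanSpace ℝ κ → ℝ) (hv : ContDiff ℝ 2 v) :
    Differentiable ℝ (fderiv ℝ v) :=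
  (hv.fderiv_right (m := 1) (by norm_num)).differentiable (by norm_num)

theorem deriv_eq (A : EuclideanSpace ℝ κ →ₗ[ℝ] EuclideanSpace ℝ κ)
    (v : EuclideanSpace ℝ κ → ℝ) (hv : ContDiff ℝ 2 v) (hinv : ∀ x, fderiv ℝ v x (A x) = 0)
    (x w : EuclideanSpace ℝ κ) :
    fderiv ℝ (fderiv ℝ v) x w (A x) = - fderiv ℝ v x (A w) := by
  have hd := diff v hv
  set A' : EuclideanSpace ℝ κ →L[ℝ] EuclideanSpace ℝ κ := LinearMap.toContinuousLinearMap A with hA'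
  have hAA : ∀ z, A' z = A z := fun z => rfl
  have h1 : HasFDerivAt (fun z => fderiv ℝ v z (A' z))
      ((fderiv ℝ v x).comp A' + (fderiv ℝ (fderiv ℝ v) x).flip (A' x)) x :=
    (hd x).hasFDerivAt.clm_apply A'.hasFDerivAt
  have h2 : (fun z => fderiv ℝ v z (A' z)) = fun _ => (0 : ℝ) := by
    funext z
    rw [hAA]
    exact hinv z
  rw [h2] at h1
  have h3 := h1.unique (hasFDerivAt_const (0 : ℝ) x)
  have h4 := congrArg (fun T : EuclideanSpace ℝ κ →L[ℝ] ℝ => T w) h3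
  simp only [_root_.add_apply, ContinuousLinearMap.comp_apply, ContinuousLinearMap.flip_apply,
    _root_.zero_apply, hAA] at h4
  linarith

theorem fd_single (v : EuclideanSpace ℝ κ → ℝ) (hv : ContDiff ℝ 2 v)
    (x w e : EuclideanSpace ℝ κ) :
    fderiv ℝ (fun z => fderiv ℝ v z e) x w = fderiv ℝ (fderiv ℝ v) x e w := by
  have hd := diff v hv
  have h1 : HasFDerivAt (fun z => fderiv ℝ v z e) ((fderiv ℝ (fderiv ℝ v) x).flip e) x := by
    have := (hd x).hasFDerivAt.clm_apply (hasFDerivAt_const e x)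
    simpa using this
  rw [h1.fderiv, ContinuousLinearMap.flip_apply]
  have hs : IsSymmSndFDerivAt ℝ v x := by
    apply (hv.contDiffAt (x := x)).isSymmSndFDerivAt
    simp
  exact hs w e

open Classical in
theorem norm_sq (w : EuclideanSpace ℝ κ) :
    ‖w‖ ^ 2 = ∑ i, ⟪w, EuclideanSpace.single i (1 : ℝ)⟫_ℝ ^ 2 := by
  rw [EuclideanSpace.norm_sq_eq]
  refine Finset.sum_congr rfl fun i _ => ?_
  rw [EuclideanSpace.inner_single_right]
  simp

end N11x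

open N11x in
theorem inv_hess {κ' : Type} [Fintype κ']
    (A : κ' → (EuclideanSpace ℝ κ →ₗ[ℝ] EuclideanSpace ℝ κ))
    (hA : ∀ k x y, ⟪A k x, y⟫_ℝ = - ⟪x, A k y⟫_ℝ) {q : ℕ} (e : Fin q → EuclideanSpace ℝ κ)
    (cV : ℝ) (hcas : ∀ w, cV * (‖w‖ ^ 2 - ∑ j, ⟪e j, w⟫_ℝ ^ 2) ≤ ∑ k, ‖A k w‖ ^ 2)
    (v : EuclideanSpace ℝ κ → ℝ) (hv : ContDiff ℝ 2 v) (hinv : ∀ k x, fderiv ℝ v x (A k x) = 0)
    (x : EuclideanSpace ℝ κ) (L : ℝ) (hL : ∀ w, ∑ k, ⟪w, A k x⟫_ℝ ^ 2 ≤ L * ‖w‖ ^ 2) :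
    cV * (‖fderiv ℝ v x‖ ^ 2 - ∑ j, (fderiv ℝ v x (e j)) ^ 2) ≤ L * hs v x := by
  classical
  set G : EuclideanSpace ℝ κ := (InnerProductSpace.toDual ℝ (EuclideanSpace ℝ κ)).symm
    (fderiv ℝ v x) with hG
  have hGw : ∀ w, ⟪G, w⟫_ℝ = fderiv ℝ v x w := fun w => by
    rw [hG, InnerProductSpace.toDual_symm_apply]
  have hGn : ‖G‖ = ‖fderiv ℝ v x‖ := by
    rw [hG, LinearIsometryEquiv.norm_map]
  have h1 := hcas G
  rw [hGn] at h1
  have h2 : ∑ j, ⟪e j, G⟫_ℝ ^ 2 = ∑ j, (fderiv ℝ v x (e j)) ^ 2 :=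
    Finset.sum_congr rfl fun j _ => by rw [real_inner_comm, hGw]
  rw [h2] at h1
  refine h1.trans ?_
  -- the sum over the generators
  have h3 : ∀ k, ‖A k G‖ ^ 2 = ∑ i, (fderiv ℝ (fun z => fderiv ℝ v z
      (EuclideanSpace.single i (1 : ℝ))) x (A k x)) ^ 2 := by
    intro k
    rw [norm_sq]
    refine Finset.sum_congr rfl fun i _ => ?_
    rw [hA, hGw, fd_single v hv, deriv_eq (A k) v hv (hinv k)]
  have h4 : ∑ k, ‖A k G‖ ^ 2 = ∑ i, ∑ k, (fderiv ℝ (fun z => fderiv ℝ v z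
      (EuclideanSpace.single i (1 : ℝ))) x (A k x)) ^ 2 := by
    rw [Finset.sum_comm]
    exact Finset.sum_congr rfl fun k _ => h3 k
  rw [h4]
  unfold hs
  rw [Finset.mul_sum]
  refine Finset.sum_le_sum fun i _ => ?_
  set H : EuclideanSpace ℝ κ := (InnerProductSpace.toDual ℝ (EuclideanSpace ℝ κ)).symm
    (fderiv ℝ (fun z => fderiv ℝ v z (EuclideanSpace.single i (1 : ℝ))) x) with hH
  have hHn : ‖H‖ = ‖fderiv ℝ (fun z => fderiv ℝ v z (EuclideanSpace.single i (1 : ℝ))) x‖ := by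
    rw [hH, LinearIsometryEquiv.norm_map]
  have h5 := hL H
  rw [hHn] at h5
  refine le_trans (le_of_eq ?_) h5
  refine Finset.sum_congr rfl fun k _ => ?_
  rw [hH, InnerProductSpace.toDual_symm_apply]

end Pool.Agent.H888R2.KT
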