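import Pool.Agent.H888R2.KC.Defs

/-!
# KLS for tuples of Hermitian matrices invariant under simultaneous conjugation: definitions
-/

set_option autoImplicit false

namespace Pool.Agent.H888R2.KT

open MeasureTheory Set Matrix Pool.Agent.H888R2.KC
open scoped ENNReal InnerProductSpace
open Pool.Agent.H212R2.KLS (mu Bdd ev gr)

/-! ### the Gaussian channel `y = x + √h G` for a density `ρ` -/

/-- (unnormalised) density of `y` -/
noncomputable def zz {κ : Type} [Fintype κ] (h : ℝ) (ρ : EuclideanSpace ℝ κ → ℝ)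
    (y : EuclideanSpace ℝ κ) : ℝ := ∫ x, Real.exp (-(‖x - y‖ ^ 2 / (2 * h))) ∂(mu ρ)

/-- posterior mean `E[u(x) | y]` -/
noncomputable def pst {κ : Type} [Fintype κ] (h : ℝ) (ρ : EuclideanSpace ℝ κ → ℝ)
    (u : EuclideanSpace ℝ κ → ℝ) (y : EuclideanSpace ℝ κ) : ℝ :=
  (∫ x, u x * Real.exp (-(‖x - y‖ ^ 2 / (2 * h))) ∂(mu ρ)) / zz h ρ y

/-- the Gaussian normalisation `∫ exp (-‖y‖² / 2h)` -/
noncomputable def gc (κ : Type) [Fintype κ] (h : ℝ) : ℝ :=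
  ∫ y : EuclideanSpace ℝ κ, Real.exp (-(‖y‖ ^ 2 / (2 * h)))

/-- Gaussian averaging `E φ(x + √h G)` -/
noncomputable def gs {κ : Type} [Fintype κ] (h : ℝ) (φ : EuclideanSpace ℝ κ → ℝ)
    (x : EuclideanSpace ℝ κ) : ℝ :=
  (∫ y, φ y * Real.exp (-(‖x - y‖ ^ 2 / (2 * h)))) / gc κ h

open Classical in
/-- squared Hilbert-Schmidt norm of the second derivative -/
noncomputable def hs {κ : Type} [Fintype κ] (v : EuclideanSpace ℝ κ → ℝ)
    (x : EuclideanSpace ℝ κ) : ℝ :=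
  ∑ i, ‖fderiv ℝ (fun z => fderiv ℝ v z (EuclideanSpace.single i 1)) x‖ ^ 2

/-- log-concave density (measurable, nonnegative, bounded support, finite mass) -/
structure LC {κ : Type} [Fintype κ] (ρ : EuclideanSpace ℝ κ → ℝ) : Prop where
  nonneg : ∀ x, 0 ≤ ρ x
  meas : Measurable ρ
  logc : ∀ x y : EuclideanSpace ℝ κ, ∀ t : ℝ, 0 < t → t < 1 →
    ρ x ^ (1 - t) * ρ y ^ t ≤ ρ ((1 - t) • x + t • y)
  bdd : Bdd ρ
  fin : mu ρ univ ≠ ⊤
  ne : mu ρ ≠ 0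

/-- strong log-concavity (constant `K⁻¹`) in the directions `e j` -/
def St {κ : Type} [Fintype κ] {q : ℕ} (e : Fin q → EuclideanSpace ℝ κ) (K : ℝ)
    (ρ : EuclideanSpace ℝ κ → ℝ) : Prop :=
  ∀ x y : EuclideanSpace ℝ κ, ρ x * ρ y ≤ (ρ ((1 / 2 : ℝ) • (x + y))) ^ 2 *
    Real.exp (-((∑ j, ⟪e j, x - y⟫_ℝ ^ 2) / (4 * K)))

/-- the Gaussian tilt in the directions `e j` -/
noncomputable def tw {κ : Type} [Fintype κ] {q : ℕ} (e : Fin q → EuclideanSpace ℝ κ) (K : ℝ)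
    (τ : EuclideanSpace ℝ (Fin q)) (x : EuclideanSpace ℝ κ) : ℝ :=
  Real.exp (-((∑ j, (⟪e j, x⟫_ℝ - τ j) ^ 2) / (2 * K)))

/-! ### tuples -/

section

variable {𝕜 : Type} [RCLike 𝕜] {N q : ℕ} {ι : Type} [Fintype ι]

/-- the `j`-th component of a tuple -/
noncomputable def cp (j : Fin q) : EuclideanSpace ℝ (Fin q × ι) →ₗ[ℝ] EuclideanSpace ℝ ι where
  toFun x := WithLp.toLp 2 fun i => x (j, i)
  map_add' x y := by ext i; simp
  map_smul' c x := by ext i; simp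

/-- a linear map acting on all components -/
noncomputable def di (q : ℕ) (A : EuclideanSpace ℝ ι →ₗ[ℝ] EuclideanSpace ℝ ι) :
    EuclideanSpace ℝ (Fin q × ι) →ₗ[ℝ] EuclideanSpace ℝ (Fin q × ι) where
  toFun x := WithLp.toLp 2 fun p => A (cp p.1 x) p.2
  map_add' x y := by ext p; simp
  map_smul' c x := by ext p; simp

open Classical in
/-- the vector `v` in the component `j` -/
noncomputable def inj (v : EuclideanSpace ℝ ι) (j : Fin q) : EuclideanSpace ℝ (Fin q × ι) :=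
  WithLp.toLp 2 fun p => if p.1 = j then v p.2 else 0

/-- log-concave density on tuples, invariant under simultaneous unitary conjugation -/
structure DT (Φ : EuclideanSpace ℝ ι →ₗ[ℝ] Matrix (Fin N) (Fin N) 𝕜)
    (ρ : EuclideanSpace ℝ (Fin q × ι) → ℝ) : Prop where
  nonneg : ∀ x, 0 ≤ ρ x
  meas : Measurable ρ
  logc : ∀ x y : EuclideanSpace ℝ (Fin q × ι), ∀ t : ℝ, 0 < t → t < 1 →
    ρ x ^ (1 - t) * ρ y ^ t ≤ ρ ((1 - t) • x + t • y)
  inv : ∀ U ∈ Matrix.unitaryGroup (Fin N) 𝕜, ∀ x, ρ (di q (cj Φ U) x) = ρ x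

/-- invariance under simultaneous conjugation by Cayley unitaries -/
def CI (Φ : EuclideanSpace ℝ ι →ₗ[ℝ] Matrix (Fin N) (Fin N) 𝕜)
    (u : EuclideanSpace ℝ (Fin q × ι) → ℝ) : Prop :=
  ∀ K : Matrix (Fin N) (Fin N) 𝕜, Kᴴ = -K → ∀ x, u (di q (cj Φ (cay K)) x) = u x

end

end Pool.Agent.H888R2.KT
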