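import Pool.Agent.H888R2.KT.Defs

/-!
# The Gaussian channel: positivity and integrability
-/

set_option autoImplicit false

namespace Pool.Agent.H888R2.KT

open MeasureTheory Set Matrix Pool.Agent.H888R2.KC
open scoped ENNReal InnerProductSpace
open Pool.Agent.H212R2.KLS (mu Bdd ev gr)

namespace N0x

variable {κ : Type} [Fintype κ] {ρ : EuclideanSpace ℝ κ → ℝ}

theorem cont_int (hρ : LC ρ) (g : EuclideanSpace ℝ κ → ℝ) (hg : Continuous g) :
    Integrable g (mu ρ) := by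
  haveI : IsFiniteMeasure (mu ρ) := ⟨lt_top_iff_ne_top.2 hρ.fin⟩
  obtain ⟨R, hR⟩ := hρ.bdd
  obtain ⟨M, hM⟩ := (isCompact_closedBall (0 : EuclideanSpace ℝ κ) R).exists_bound_of_continuousOn
    hg.continuousOn
  refine Integrable.of_bound hg.aestronglyMeasurable M ?_
  rw [mu, ae_withDensity_iff hρ.meas.ennreal_ofReal]
  refine Filter.Eventually.of_forall fun x hx => ?_
  apply hM
  rw [mem_closedBall_zero_iff]
  by_contra hc
  push Not at hc
  apply hx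
  rw [hR x hc, ENNReal.ofReal_zero]

theorem gauss_int (b : ℝ) (hb : 0 < b) :
    Integrable fun y : EuclideanSpace ℝ κ => Real.exp (-b * ‖y‖ ^ 2) := by
  have hb' : 0 < ((b : ℂ)).re := by simpa using hb
  have h := (GaussianFourier.integrable_cexp_neg_mul_sq_norm_add (V := EuclideanSpace ℝ κ) hb' 0
    (0 : EuclideanSpace ℝ κ)).norm
  refine h.congr (Filter.Eventually.of_forall fun y => ?_)
  show ‖Complex.exp _‖ = _
  rw [Complex.norm_exp]
  congr 1
  rw [zero_mul, add_zero, ← Complex.ofReal_pow, ← Complex.ofReal_neg, ← Complex.ofReal_mul,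
    Complex.ofReal_re]

theorem gauss_int' (h : ℝ) (hh : 0 < h) :
    Integrable fun y : EuclideanSpace ℝ κ => Real.exp (-(‖y‖ ^ 2 / (2 * h))) := by
  refine (gauss_int (κ := κ) (1 / (2 * h)) (by positivity)).congr
    (Filter.Eventually.of_forall fun y => ?_)
  show Real.exp _ = Real.exp _
  congr 1
  ring

theorem gauss_int1 (h : ℝ) (hh : 0 < h) :
    Integrable fun y : EuclideanSpace ℝ κ => ‖y‖ * Real.exp (-(‖y‖ ^ 2 / (2 * h))) := by
  refine ((gauss_int (κ := κ) (1 / (4 * h)) (by positivity)).const_mul (1 + h)).mono'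
    (by fun_prop) (Filter.Eventually.of_forall fun y => ?_)
  have hy : 0 ≤ ‖y‖ := norm_nonneg y
  rw [Real.norm_of_nonneg (by positivity)]
  have h1 : ‖y‖ ≤ (1 + h) * Real.exp (‖y‖ ^ 2 / (4 * h)) := by
    have h2 : ‖y‖ ^ 2 / (4 * h) + 1 ≤ Real.exp (‖y‖ ^ 2 / (4 * h)) := Real.add_one_le_exp _
    have h3 : ‖y‖ ≤ (1 + h) * (‖y‖ ^ 2 / (4 * h) + 1) := by
      have h4 : (1 + h) * (‖y‖ ^ 2 / (4 * h) + 1) = ‖y‖ ^ 2 / (4 * h) + ‖y‖ ^ 2 / 4 + 1 + h := by
        field_simp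
        ring
      have h5 : 0 ≤ ‖y‖ ^ 2 / (4 * h) := by positivity
      nlinarith [sq_nonneg (‖y‖ / 2 - 1)]
    exact h3.trans (mul_le_mul_of_nonneg_left h2 (by linarith))
  calc ‖y‖ * Real.exp (-(‖y‖ ^ 2 / (2 * h)))
      ≤ ((1 + h) * Real.exp (‖y‖ ^ 2 / (4 * h))) * Real.exp (-(‖y‖ ^ 2 / (2 * h))) :=
        mul_le_mul_of_nonneg_right h1 (Real.exp_pos _).le
    _ = (1 + h) * Real.exp (-(1 / (4 * h)) * ‖y‖ ^ 2) := by
        rw [mul_assoc, ← Real.exp_add]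
        congr 2
        field_simp
        ring

end N0x

variable {κ : Type} [Fintype κ] {ρ : EuclideanSpace ℝ κ → ℝ}

theorem zz_pos (hρ : LC ρ) (h : ℝ) (hh : 0 < h) (y : EuclideanSpace ℝ κ) :
    0 < zz h ρ y ∧ (∀ u : EuclideanSpace ℝ κ → ℝ, Continuous u →
      Integrable (fun x => u x * Real.exp (-(‖x - y‖ ^ 2 / (2 * h)))) (mu ρ)) := by
  haveI : NeZero (mu ρ) := ⟨hρ.ne⟩
  refine ⟨?_, fun u hu => N0x.cont_int hρ _ (by fun_prop)⟩
  unfold zz
  exact integral_exp_pos (N0x.cont_int hρ _ (by fun_prop))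

theorem gc_pos (h : ℝ) (hh : 0 < h) : 0 < gc κ h ∧
    (∀ x : EuclideanSpace ℝ κ, ∫ y, Real.exp (-(‖x - y‖ ^ 2 / (2 * h))) = gc κ h) ∧
    (∀ x : EuclideanSpace ℝ κ, Integrable fun y => Real.exp (-(‖x - y‖ ^ 2 / (2 * h)))) ∧
    (∀ x : EuclideanSpace ℝ κ,
      Integrable fun y => ‖x - y‖ * Real.exp (-(‖x - y‖ ^ 2 / (2 * h)))) := by
  refine ⟨?_, fun x => ?_, fun x => ?_, fun x => ?_⟩
  · unfold gc
    exact integral_exp_pos (N0x.gauss_int' h hh)
  · unfold gc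
    exact integral_sub_left_eq_self (fun y : EuclideanSpace ℝ κ =>
      Real.exp (-(‖y‖ ^ 2 / (2 * h)))) volume x
  · exact (N0x.gauss_int' (κ := κ) h hh).comp_sub_left x
  · exact (N0x.gauss_int1 (κ := κ) h hh).comp_sub_left x

end Pool.Agent.H888R2.KT
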