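import Pool.Agent.H888R2.KT.Defs

/-! # N3: the derivative of the posterior mean -/

set_option autoImplicit false

namespace Pool.Agent.H888R2.KT

open MeasureTheory Set Matrix Pool.Agent.H888R2.KC Pool.Agent.H888R2.KT
open scoped ENNReal InnerProductSpace
open Pool.Agent.H212R2.KLS (mu Bdd ev gr)

namespace N3x

variable {κ : Type} [Fintype κ] {ρ : EuclideanSpace ℝ κ → ℝ}

theorem fin_mu (hρ : LC ρ) : IsFiniteMeasure (mu ρ) := ⟨lt_top_iff_ne_top.2 hρ.fin⟩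

theorem ae_bdd (hρ : LC ρ) : ∃ R : ℝ, 0 ≤ R ∧ ∀ᵐ x ∂(mu ρ), ‖x‖ ≤ R := by
  obtain ⟨R, hR⟩ := hρ.bdd
  refine ⟨max R 0, le_max_right _ _, ?_⟩
  unfold mu
  rw [ae_withDensity_iff hρ.meas.ennreal_ofReal]
  refine Filter.Eventually.of_forall fun x hx => ?_
  by_contra hcon
  push Not at hcon
  apply hx
  rw [hR x ((le_max_left _ _).trans_lt hcon), ENNReal.ofReal_zero]

theorem bound (hρ : LC ρ) {E : Type*} [NormedAddCommGroup E] {g : EuclideanSpace ℝ κ → E}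
    (hg : Continuous g) : ∃ C : ℝ, 0 ≤ C ∧ ∀ᵐ x ∂(mu ρ), ‖g x‖ ≤ C := by
  obtain ⟨R, hR0, hR⟩ := ae_bdd hρ
  obtain ⟨C, hC⟩ := (isCompact_closedBall (0 : EuclideanSpace ℝ κ) R).exists_bound_of_continuousOn
    hg.continuousOn
  refine ⟨max C 0, le_max_right _ _, ?_⟩
  filter_upwards [hR] with x hx
  exact (hC x (by simpa using hx)).trans (le_max_left _ _)

theorem integ (hρ : LC ρ) {g : EuclideanSpace ℝ κ → ℝ} (hg : Continuous g) :
    Integrable g (mu ρ) := by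
  have := fin_mu hρ
  obtain ⟨C, _, hC⟩ := bound hρ hg
  exact Integrable.of_bound hg.aestronglyMeasurable C hC

theorem zz_pos' (hρ : LC ρ) (h : ℝ) (y : EuclideanSpace ℝ κ) : 0 < zz h ρ y := by
  have := fin_mu hρ
  unfold zz
  rw [integral_pos_iff_support_of_nonneg (fun x => (Real.exp_pos _).le)
    (integ hρ (by fun_prop))]
  have e : Function.support (fun x : EuclideanSpace ℝ κ =>
      Real.exp (-(‖x - y‖ ^ 2 / (2 * h)))) = univ := by
    ext x
    simp [(Real.exp_pos _).ne']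
  rw [e]
  exact pos_iff_ne_zero.2 (fun h0 => hρ.ne (Measure.measure_univ_eq_zero.1 h0))

/-- the pointwise derivative -/
theorem pt (h : ℝ) (c : ℝ) (x y : EuclideanSpace ℝ κ) :
    HasFDerivAt (fun y : EuclideanSpace ℝ κ => c * Real.exp (-(‖x - y‖ ^ 2 / (2 * h))))
      ((c * Real.exp (-(‖x - y‖ ^ 2 / (2 * h))) * h⁻¹) • innerSL ℝ (x - y)) y := by
  have h1 : HasFDerivAt (fun y : EuclideanSpace ℝ κ => x - y)
      (-ContinuousLinearMap.id ℝ (EuclideanSpace ℝ κ)) y := (hasFDerivAt_id y).const_sub x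
  have h2 := h1.norm_sq
  have h3 := (((h2.mul_const (2 * h)⁻¹).neg).exp).const_mul c
  have e : (fun y : EuclideanSpace ℝ κ => c * Real.exp (-(‖x - y‖ ^ 2 / (2 * h)))) =
      fun y => c * Real.exp (-(‖x - y‖ ^ 2 * (2 * h)⁻¹)) := by
    funext z
    rw [div_eq_mul_inv]
  rw [e]
  refine h3.congr_fderiv ?_
  ext w
  simp only [_root_.smul_apply, _root_.neg_apply,
    ContinuousLinearMap.comp_apply, ContinuousLinearMap.id_apply, innerSL_apply_apply,
    smul_eq_mul, map_neg]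
  rw [div_eq_mul_inv, mul_inv]
  simp
  ring

theorem main (hρ : LC ρ) (h : ℝ) (hh : 0 < h) (u : EuclideanSpace ℝ κ → ℝ) (hu : Continuous u)
    (y : EuclideanSpace ℝ κ) :
    HasFDerivAt (fun y => ∫ x, u x * Real.exp (-(‖x - y‖ ^ 2 / (2 * h))) ∂(mu ρ))
      (∫ x, (u x * Real.exp (-(‖x - y‖ ^ 2 / (2 * h))) * h⁻¹) • innerSL ℝ (x - y) ∂(mu ρ)) y := by
  have := fin_mu hρ
  obtain ⟨R, hR0, hR⟩ := ae_bdd hρ
  obtain ⟨C, hC0, hC⟩ := bound hρ hu
  refine hasFDerivAt_integral_of_dominated_of_fderiv_le (𝕜 := ℝ) (s := Metric.ball y 1)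
    (F := fun (y x : EuclideanSpace ℝ κ) => u x * Real.exp (-(‖x - y‖ ^ 2 / (2 * h))))
    (F' := fun (y x : EuclideanSpace ℝ κ) =>
      (u x * Real.exp (-(‖x - y‖ ^ 2 / (2 * h))) * h⁻¹) • innerSL ℝ (x - y))
    (bound := fun _ => C * h⁻¹ * (R + (‖y‖ + 1))) (Metric.ball_mem_nhds y one_pos) ?_ ?_ ?_ ?_ ?_ ?_
  · refine Filter.Eventually.of_forall fun z => ?_
    exact (hu.mul (by fun_prop)).aestronglyMeasurable
  · exact integ hρ (hu.mul (by fun_prop))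
  · refine Continuous.aestronglyMeasurable ?_
    refine Continuous.smul ((hu.mul (by fun_prop)).mul continuous_const) ?_
    exact (innerSL ℝ).continuous.comp (continuous_id.sub continuous_const)
  · filter_upwards [hR, hC] with x hx hux z hz
    rw [norm_smul, innerSL_apply_norm, norm_mul, norm_mul]
    have h1 : ‖Real.exp (-(‖x - z‖ ^ 2 / (2 * h)))‖ ≤ 1 := by
      rw [Real.norm_eq_abs, abs_of_pos (Real.exp_pos _), Real.exp_le_one_iff]
      have : 0 ≤ ‖x - z‖ ^ 2 / (2 * h) := by positivity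
      linarith
    have h2 : ‖h⁻¹‖ = h⁻¹ := by rw [Real.norm_eq_abs, abs_of_pos (inv_pos.2 hh)]
    have h3 : ‖x - z‖ ≤ R + (‖y‖ + 1) := by
      have h4 : ‖z‖ ≤ ‖y‖ + 1 := by
        have h5 : ‖z - y‖ < 1 := by rwa [Metric.mem_ball, dist_eq_norm] at hz
        have h6 : z = y + (z - y) := by abel
        calc ‖z‖ = ‖y + (z - y)‖ := by rw [← h6]
          _ ≤ ‖y‖ + ‖z - y‖ := norm_add_le _ _
          _ ≤ ‖y‖ + 1 := by linarith
      calc ‖x - z‖ ≤ ‖x‖ + ‖z‖ := norm_sub_le _ _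
        _ ≤ R + (‖y‖ + 1) := by linarith
    rw [h2]
    have hh' : 0 < h⁻¹ := inv_pos.2 hh
    have h7 : ‖u x‖ * ‖Real.exp (-(‖x - z‖ ^ 2 / (2 * h)))‖ ≤ C := by
      calc _ ≤ C * 1 := mul_le_mul hux h1 (norm_nonneg _) hC0
        _ = C := mul_one C
    exact mul_le_mul (mul_le_mul_of_nonneg_right h7 hh'.le) h3 (norm_nonneg _) (by positivity)
  · exact integrable_const _
  · refine Filter.Eventually.of_forall fun x z _ => ?_
    exact pt h (u x) x z

theorem main_apply (hρ : LC ρ) (h : ℝ) (u : EuclideanSpace ℝ κ → ℝ) (hu : Continuous u)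
    (y w : EuclideanSpace ℝ κ) :
    (∫ x, (u x * Real.exp (-(‖x - y‖ ^ 2 / (2 * h))) * h⁻¹) • innerSL ℝ (x - y) ∂(mu ρ)) w =
      h⁻¹ * ((∫ x, u x * ⟪x, w⟫_ℝ * Real.exp (-(‖x - y‖ ^ 2 / (2 * h))) ∂(mu ρ)) -
        ⟪y, w⟫_ℝ * ∫ x, u x * Real.exp (-(‖x - y‖ ^ 2 / (2 * h))) ∂(mu ρ)) := by
  have := fin_mu hρ
  have hcont : Continuous fun x : EuclideanSpace ℝ κ =>
      (u x * Real.exp (-(‖x - y‖ ^ 2 / (2 * h))) * h⁻¹) • innerSL ℝ (x - y) := by
    refine Continuous.smul ((hu.mul (by fun_prop)).mul continuous_const) ?_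
    exact (innerSL ℝ).continuous.comp (continuous_id.sub continuous_const)
  have hint : Integrable (fun x : EuclideanSpace ℝ κ =>
      (u x * Real.exp (-(‖x - y‖ ^ 2 / (2 * h))) * h⁻¹) • innerSL ℝ (x - y)) (mu ρ) := by
    obtain ⟨C, _, hC⟩ := bound hρ hcont
    exact Integrable.of_bound hcont.aestronglyMeasurable C hC
  rw [ContinuousLinearMap.integral_apply hint]
  have i1 : Integrable (fun x => u x * ⟪x, w⟫_ℝ * Real.exp (-(‖x - y‖ ^ 2 / (2 * h)))) (mu ρ) :=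
    integ hρ ((hu.mul (by fun_prop)).mul (by fun_prop))
  have i2 : Integrable (fun x => u x * Real.exp (-(‖x - y‖ ^ 2 / (2 * h)))) (mu ρ) :=
    integ hρ (hu.mul (by fun_prop))
  rw [← integral_const_mul, ← integral_sub i1 (i2.const_mul _), ← integral_const_mul]
  refine integral_congr_ae (Filter.Eventually.of_forall fun x => ?_)
  simp only [_root_.smul_apply, innerSL_apply_apply, smul_eq_mul, inner_sub_left]
  ring

end N3x

open N3x

theorem pst_deriv {κ : Type} [Fintype κ] {ρ : EuclideanSpace ℝ κ → ℝ}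
    (hρ : LC ρ) (h : ℝ) (hh : 0 < h) (u : EuclideanSpace ℝ κ → ℝ)
    (hu : Continuous u) (y : EuclideanSpace ℝ κ) :
    DifferentiableAt ℝ (pst h ρ u) y ∧ ∀ w, fderiv ℝ (pst h ρ u) y w =
      h⁻¹ * (pst h ρ (fun x => u x * ⟪x, w⟫_ℝ) y - pst h ρ u y * pst h ρ (fun x => ⟪x, w⟫_ℝ) y) := by
  have hZ := zz_pos' hρ h y
  have h1 := main hρ h hh u hu y
  have h2 := main hρ h hh (fun _ => 1) continuous_const y
  have e2 : (fun y : EuclideanSpace ℝ κ =>
      ∫ x, (1 : ℝ) * Real.exp (-(‖x - y‖ ^ 2 / (2 * h))) ∂(mu ρ)) = zz h ρ := by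
    funext z
    unfold zz
    simp only [one_mul]
  rw [e2] at h2
  have e1 : pst h ρ u = fun y => (∫ x, u x * Real.exp (-(‖x - y‖ ^ 2 / (2 * h))) ∂(mu ρ)) *
      (zz h ρ y)⁻¹ := by
    funext z
    unfold pst
    rw [div_eq_mul_inv]
  have h3 := h1.mul ((hasDerivAt_inv hZ.ne').comp_hasFDerivAt y h2)
  rw [e1]
  refine ⟨h3.differentiableAt, fun w => ?_⟩
  have h4 := h3.fderiv
  have h5 : fderiv ℝ (fun y => (∫ x, u x * Real.exp (-(‖x - y‖ ^ 2 / (2 * h))) ∂(mu ρ)) *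
      (zz h ρ y)⁻¹) y w = _ := congrArg (fun L => L w) h4
  rw [h5]
  simp only [_root_.add_apply, _root_.smul_apply, smul_eq_mul,
    Function.comp_apply]
  rw [main_apply hρ h u hu y w, main_apply hρ h (fun _ => 1) continuous_const y w]
  simp only [one_mul]
  have e3 : ∫ x, Real.exp (-(‖x - y‖ ^ 2 / (2 * h))) ∂(mu ρ) = zz h ρ y := rfl
  rw [e3]
  unfold pst
  field_simp
  ring

end Pool.Agent.H888R2.KT
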