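import Pool.Agent.H888R2.KT.Defs
import Pool.Agent.H888R2.KT.N0
import Pool.Agent.H888R2.KT.N1
import Pool.Agent.H888R2.KC.R2

set_option autoImplicit false

namespace Pool.Agent.H888R2.KT

open MeasureTheory Set Matrix Pool.Agent.H888R2.KC
open scoped ENNReal InnerProductSpace
open Pool.Agent.H212R2.KLS (mu Bdd ev gr)

variable {κ : Type} [Fintype κ] {ρ : EuclideanSpace ℝ κ → ℝ}

namespace N5ax

/-- orthogonal projection on the span of the `e j` -/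
noncomputable def Pr {q : ℕ} (e : Fin q → EuclideanSpace ℝ κ) :
    EuclideanSpace ℝ κ →L[ℝ] EuclideanSpace ℝ κ :=
  ∑ j, (innerSL ℝ (e j)).smulRight (e j)

theorem Pr_apply {q : ℕ} (e : Fin q → EuclideanSpace ℝ κ) (z : EuclideanSpace ℝ κ) :
    Pr e z = ∑ j, ⟪e j, z⟫_ℝ • e j := by
  simp [Pr]

theorem inner_Pr {q : ℕ} (e : Fin q → EuclideanSpace ℝ κ) (he : Orthonormal ℝ e)
    (z : EuclideanSpace ℝ κ) (j : Fin q) : ⟪e j, Pr e z⟫_ℝ = ⟪e j, z⟫_ℝ := by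
  rw [Pr_apply]
  exact he.inner_right_fintype _ j

theorem Pr_symm {q : ℕ} (e : Fin q → EuclideanSpace ℝ κ) (x z : EuclideanSpace ℝ κ) :
    ⟪x, Pr e z⟫_ℝ = ∑ j, ⟪e j, x⟫_ℝ * ⟪e j, z⟫_ℝ := by
  rw [Pr_apply, inner_sum]
  refine Finset.sum_congr rfl fun j _ => ?_
  rw [real_inner_smul_right, real_inner_comm x (e j), mul_comm]

theorem Pr_idem {q : ℕ} (e : Fin q → EuclideanSpace ℝ κ) (he : Orthonormal ℝ e)
    (z : EuclideanSpace ℝ κ) : Pr e (Pr e z) = Pr e z := by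
  rw [Pr_apply e (Pr e z)]
  simp only [inner_Pr e he]
  rw [← Pr_apply]

/-- `a (1 - P) + c P` -/
noncomputable def fab {q : ℕ} (e : Fin q → EuclideanSpace ℝ κ) (a c : ℝ) :
    EuclideanSpace ℝ κ →L[ℝ] EuclideanSpace ℝ κ :=
  a • ContinuousLinearMap.id ℝ _ + (c - a) • Pr e

theorem fab_apply {q : ℕ} (e : Fin q → EuclideanSpace ℝ κ) (a c : ℝ) (z : EuclideanSpace ℝ κ) :
    fab e a c z = a • z + (c - a) • Pr e z := by
  simp [fab]

theorem fab_fab {q : ℕ} (e : Fin q → EuclideanSpace ℝ κ) (he : Orthonormal ℝ e) (a c a' c' : ℝ)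
    (h1 : a * a' = 1) (h2 : c * c' = 1) (z : EuclideanSpace ℝ κ) :
    fab e a c (fab e a' c' z) = z := by
  rw [fab_apply, fab_apply, map_add, map_smul, map_smul, Pr_idem e he]
  have h3 : a • (a' • z + (c' - a') • Pr e z) + (c - a) • (a' • Pr e z + (c' - a') • Pr e z) =
      (a * a') • z + (c * c' - a * a') • Pr e z := by
    module
  rw [h3, h1, h2]
  simp

theorem fab_norm {q : ℕ} (e : Fin q → EuclideanSpace ℝ κ) (he : Orthonormal ℝ e) (a c : ℝ)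
    (z : EuclideanSpace ℝ κ) :
    ‖fab e a c z‖ ^ 2 = a ^ 2 * ‖z‖ ^ 2 + (c ^ 2 - a ^ 2) * ∑ j, ⟪e j, z⟫_ℝ ^ 2 := by
  have h1 : ⟪z, Pr e z⟫_ℝ = ∑ j, ⟪e j, z⟫_ℝ ^ 2 := by
    rw [Pr_symm]
    exact Finset.sum_congr rfl fun j _ => by ring
  have h2 : ‖Pr e z‖ ^ 2 = ∑ j, ⟪e j, z⟫_ℝ ^ 2 := by
    rw [← real_inner_self_eq_norm_sq, Pr_symm]
    exact Finset.sum_congr rfl fun j _ => by rw [inner_Pr e he]; ring
  rw [fab_apply, norm_add_sq_real, norm_smul, norm_smul, mul_pow, mul_pow, h2,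
    real_inner_smul_left, real_inner_smul_right, h1, Real.norm_eq_abs, Real.norm_eq_abs, sq_abs,
    sq_abs]
  ring

theorem fab_symm {q : ℕ} (e : Fin q → EuclideanSpace ℝ κ) (a c : ℝ) (x z : EuclideanSpace ℝ κ) :
    ⟪fab e a c x, z⟫_ℝ = ⟪x, fab e a c z⟫_ℝ := by
  have h1 : ⟪Pr e x, z⟫_ℝ = ∑ j, ⟪e j, x⟫_ℝ * ⟪e j, z⟫_ℝ := by
    rw [real_inner_comm, Pr_symm]
    exact Finset.sum_congr rfl fun j _ => mul_comm _ _
  rw [fab_apply, fab_apply, inner_add_left, inner_add_right, real_inner_smul_left,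
    real_inner_smul_left, real_inner_smul_right, real_inner_smul_right, Pr_symm, h1]

theorem fab_dual {q : ℕ} (e : Fin q → EuclideanSpace ℝ κ) (he : Orthonormal ℝ e) (a c : ℝ)
    (φ : EuclideanSpace ℝ κ →L[ℝ] ℝ) :
    ‖φ.comp (fab e a c)‖ ^ 2 = a ^ 2 * ‖φ‖ ^ 2 + (c ^ 2 - a ^ 2) * ∑ j, φ (e j) ^ 2 := by
  obtain ⟨G, hG⟩ : ∃ G, InnerProductSpace.toDual ℝ (EuclideanSpace ℝ κ) G = φ :=
    ⟨_, LinearIsometryEquiv.apply_symm_apply _ φ⟩
  have h1 : φ.comp (fab e a c) = InnerProductSpace.toDual ℝ (EuclideanSpace ℝ κ) (fab e a c G) := by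
    ext x
    rw [InnerProductSpace.toDual_apply_apply, fab_symm, ← hG]
    simp
  have h2 : ‖φ‖ = ‖G‖ := by rw [← hG, LinearIsometryEquiv.norm_map]
  have h3 : ∀ j, φ (e j) = ⟪e j, G⟫_ℝ := by
    intro j
    rw [← hG, InnerProductSpace.toDual_apply_apply, real_inner_comm]
  rw [h1, LinearIsometryEquiv.norm_map, fab_norm e he, h2]
  simp only [h3]

/-- the continuous linear equivalence `S` -/
noncomputable def SS {q : ℕ} (e : Fin q → EuclideanSpace ℝ κ) (he : Orthonormal ℝ e) (a c : ℝ)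
    (ha : a ≠ 0) (hc : c ≠ 0) : EuclideanSpace ℝ κ ≃L[ℝ] EuclideanSpace ℝ κ :=
  ContinuousLinearEquiv.equivOfInverse (fab e a c) (fab e a⁻¹ c⁻¹)
    (fun z => fab_fab e he _ _ _ _ (inv_mul_cancel₀ ha) (inv_mul_cancel₀ hc) z)
    (fun z => fab_fab e he _ _ _ _ (mul_inv_cancel₀ ha) (mul_inv_cancel₀ hc) z)

theorem int_mu (hρ : LC ρ) (g : EuclideanSpace ℝ κ → ℝ) :
    ∫ x, g x ∂(mu ρ) = ∫ x, ρ x * g x := by
  unfold mu
  rw [integral_withDensity_eq_integral_toReal_smul (hρ.meas.ennreal_ofReal)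
    (Filter.Eventually.of_forall fun x => ENNReal.ofReal_lt_top)]
  refine integral_congr_ae (Filter.Eventually.of_forall fun x => ?_)
  simp only [smul_eq_mul, ENNReal.toReal_ofReal (hρ.nonneg x)]

end N5ax

open N5ax in
theorem post_bl (hρ : LC ρ) {q : ℕ} (e : Fin q → EuclideanSpace ℝ κ) (he : Orthonormal ℝ e)
    (K : ℝ) (hK : 0 < K) (hT : St e K ρ) (h : ℝ) (hh : 0 < h) (f : EuclideanSpace ℝ κ → ℝ)
    (hf : ContDiff ℝ 1 f) (y : EuclideanSpace ℝ κ) :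
    pst h ρ (fun x => f x ^ 2) y - (pst h ρ f y) ^ 2 ≤ pst h ρ (fun x =>
      h * ‖fderiv ℝ f x‖ ^ 2 - h ^ 2 / (h + K) * ∑ j, (fderiv ℝ f x (e j)) ^ 2) y := by
  have hhK : 0 < h * K / (h + K) := by positivity
  have ha : Real.sqrt h ≠ 0 := (Real.sqrt_pos.2 hh).ne'
  have hc : Real.sqrt (h * K / (h + K)) ≠ 0 := (Real.sqrt_pos.2 hhK).ne'
  obtain ⟨B, hB⟩ := bdd_of_finite ρ hρ.nonneg hρ.meas hρ.logc hρ.fin hρ.ne
  obtain ⟨E, hE⟩ : ∃ E : EuclideanSpace ℝ κ → ℝ, E = fun x => Real.exp (-(‖x - y‖ ^ 2 / (2 * h))) :=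
    ⟨_, rfl⟩
  have hE0 : ∀ x, 0 < E x := fun x => by rw [hE]; exact Real.exp_pos _
  have hE1 : ∀ x, E x ≤ 1 := fun x => by
    rw [hE]
    simp only
    rw [Real.exp_le_one_iff]
    have : 0 ≤ ‖x - y‖ ^ 2 / (2 * h) := by positivity
    linarith
  have hB0 : 0 ≤ B := (hρ.nonneg 0).trans (hB 0)
  have hEc : Continuous E := by
    rw [hE]
    fun_prop
  obtain ⟨c, hcc⟩ := bl_lin (fun x => ρ x * E x)
    (fun x => mul_nonneg (hρ.nonneg x) (hE0 x).le) (hρ.meas.mul hEc.measurable)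
    ⟨B, fun x => by
      calc ρ x * E x ≤ B * 1 := mul_le_mul (hB x) (hE1 x) (hE0 x).le hB0
        _ = B := mul_one B⟩
    (by
      obtain ⟨R, hR⟩ := hρ.bdd
      exact ⟨R, fun x hx => by simp only [hR x hx, zero_mul]⟩)
    (SS e he _ _ ha hc)
    (by
      intro x x'
      have h1 : (SS e he _ _ ha hc).symm (x - x') = fab e (Real.sqrt h)⁻¹
        (Real.sqrt (h * K / (h + K)))⁻¹ (x - x') := rfl
      have h2 : ‖(SS e he _ _ ha hc).symm (x - x')‖ ^ 2 = ‖x - x'‖ ^ 2 / h +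
          (∑ j, ⟪e j, x - x'⟫_ℝ ^ 2) / K := by
        rw [h1, fab_norm e he, inv_pow, inv_pow, Real.sq_sqrt hh.le, Real.sq_sqrt hhK.le]
        field_simp
        ring
      have h3 : E x * E x' = E ((1 / 2 : ℝ) • (x + x')) ^ 2 *
          Real.exp (-(‖x - x'‖ ^ 2 / (4 * h))) := by
        rw [hE]
        simp only
        rw [← Real.exp_add, ← Real.exp_nat_mul, ← Real.exp_add]
        congr 1
        have h4 := parallelogram_law_with_norm ℝ (x - y) (x' - y)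
        have h5 : (1 / 2 : ℝ) • (x + x') - y = (1 / 2 : ℝ) • ((x - y) + (x' - y)) := by module
        have h6 : (x - y) - (x' - y) = x - x' := by abel
        rw [h6] at h4
        rw [h5, norm_smul, mul_pow]
        have h7 : ‖(1 / 2 : ℝ)‖ ^ 2 = 1 / 4 := by norm_num
        rw [h7]
        push_cast
        field_simp
        nlinarith
      have h8 := hT x x'
      have h9 : Real.exp (-(‖(SS e he _ _ ha hc).symm (x - x')‖ ^ 2 / 4)) =
          Real.exp (-((∑ j, ⟪e j, x - x'⟫_ℝ ^ 2) / (4 * K))) *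
            Real.exp (-(‖x - x'‖ ^ 2 / (4 * h))) := by
        rw [← Real.exp_add, h2]
        congr 1
        field_simp
        ring
      rw [h9]
      calc ρ x * E x * (ρ x' * E x') = (ρ x * ρ x') * (E x * E x') := by ring
        _ ≤ ((ρ ((1 / 2 : ℝ) • (x + x'))) ^ 2 *
            Real.exp (-((∑ j, ⟪e j, x - x'⟫_ℝ ^ 2) / (4 * K)))) *
            (E ((1 / 2 : ℝ) • (x + x')) ^ 2 * Real.exp (-(‖x - x'‖ ^ 2 / (4 * h)))) := by
            rw [h3]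
            gcongr
        _ = _ := by ring)
    f hf
  obtain ⟨hZ, hint⟩ := zz_pos hρ h hh y
  have hfc : Continuous f := hf.continuous
  -- the left side
  have i1 := hint (fun x => f x ^ 2) (hfc.pow 2)
  have i2 := hint f hfc
  have i3 : Integrable (fun x => Real.exp (-(‖x - y‖ ^ 2 / (2 * h)))) (mu ρ) := by
    have := hint (fun _ => 1) continuous_const
    simpa using this
  have e1 : ∫ x, (f x - c) ^ 2 * (ρ x * E x) = (∫ x, f x ^ 2 * E x ∂(mu ρ)) -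
      2 * c * (∫ x, f x * E x ∂(mu ρ)) + c ^ 2 * zz h ρ y := by
    have h1 : ∫ x, (f x - c) ^ 2 * (ρ x * E x) = ∫ x, (f x - c) ^ 2 * E x ∂(mu ρ) := by
      rw [int_mu hρ]
      exact integral_congr_ae (Filter.Eventually.of_forall fun x => by simp only; ring)
    have h2 : zz h ρ y = ∫ x, E x ∂(mu ρ) := by rw [hE]; rfl
    rw [h1, h2, hE]
    simp only
    have i12 : Integrable (fun x => f x ^ 2 * Real.exp (-(‖x - y‖ ^ 2 / (2 * h))) -
        2 * c * (f x * Real.exp (-(‖x - y‖ ^ 2 / (2 * h))))) (mu ρ) := i1.sub (i2.const_mul _)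
    rw [← integral_const_mul, ← integral_const_mul, ← integral_sub i1 (i2.const_mul _),
      ← integral_add i12 (i3.const_mul _)]
    exact integral_congr_ae (Filter.Eventually.of_forall fun x => by simp only; ring)
  have e2 : ∫ x, ‖(fderiv ℝ f x).comp ((SS e he _ _ ha hc : EuclideanSpace ℝ κ ≃L[ℝ]
      EuclideanSpace ℝ κ) : EuclideanSpace ℝ κ →L[ℝ] EuclideanSpace ℝ κ)‖ ^ 2 * (ρ x * E x) =
      ∫ x, (h * ‖fderiv ℝ f x‖ ^ 2 - h ^ 2 / (h + K) * ∑ j, (fderiv ℝ f x (e j)) ^ 2) * E x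
        ∂(mu ρ) := by
    rw [int_mu hρ]
    refine integral_congr_ae (Filter.Eventually.of_forall fun x => ?_)
    have h1 : (fderiv ℝ f x).comp ((SS e he _ _ ha hc : EuclideanSpace ℝ κ ≃L[ℝ]
      EuclideanSpace ℝ κ) : EuclideanSpace ℝ κ →L[ℝ] EuclideanSpace ℝ κ) =
      (fderiv ℝ f x).comp (fab e (Real.sqrt h) (Real.sqrt (h * K / (h + K)))) := rfl
    simp only
    rw [h1, fab_dual e he, Real.sq_sqrt hh.le, Real.sq_sqrt hhK.le]
    have h2 : h * K / (h + K) - h = -(h ^ 2 / (h + K)) := by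
      field_simp
      ring
    rw [h2]
    ring
  rw [e1, e2] at hcc
  have e3 : ∀ g : EuclideanSpace ℝ κ → ℝ, pst h ρ g y = (∫ x, g x * E x ∂(mu ρ)) / zz h ρ y := by
    intro g
    rw [hE]
    rfl
  rw [e3, e3, e3]
  generalize (∫ x, f x ^ 2 * E x ∂(mu ρ)) = I2 at *
  generalize (∫ x, f x * E x ∂(mu ρ)) = I1 at *
  generalize zz h ρ y = Z at *
  generalize (∫ x, (h * ‖fderiv ℝ f x‖ ^ 2 - h ^ 2 / (h + K) * ∑ j, (fderiv ℝ f x (e j)) ^ 2) * E x
        ∂(mu ρ)) = J at *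
  have h1 : I2 / Z - (I1 / Z) ^ 2 = (I2 - 2 * c * I1 + c ^ 2 * Z - (I1 - c * Z) ^ 2 / Z) / Z := by
    field_simp
    ring
  rw [h1]
  apply div_le_div_of_nonneg_right _ hZ.le
  have h2 : 0 ≤ (I1 - c * Z) ^ 2 / Z := by positivity
  linarith

end Pool.Agent.H888R2.KT
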