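import Pool.Agent.H888R2.KT.Defs

/-! Task N6a of helper888's project KT: derivative of the Gaussian average. -/

set_option autoImplicit false

namespace Pool.Agent.H888R2.KT

open MeasureTheory Set Matrix Pool.Agent.H888R2.KC
open scoped ENNReal InnerProductSpace
open Pool.Agent.H212R2.KLS (mu Bdd ev gr)

variable {κ : Type} [Fintype κ]

namespace N6ax

/-- the Gaussian weight -/
noncomputable def g (κ : Type) [Fintype κ] (h : ℝ) (z : EuclideanSpace ℝ κ) : ℝ :=
  Real.exp (-(‖z‖ ^ 2 / (2 * h)))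

theorem g_cont (h : ℝ) : Continuous (g κ h) := by
  unfold g
  fun_prop

theorem g_pos (h : ℝ) (z : EuclideanSpace ℝ κ) : 0 < g κ h z := Real.exp_pos _

theorem g_int (h : ℝ) (hh : 0 < h) : Integrable (g κ h) := by
  have h1 := GaussianFourier.integrable_cexp_neg_mul_sq_norm_add (V := EuclideanSpace ℝ κ)
    (b := ((1 / (2 * h) : ℝ) : ℂ)) (by rw [Complex.ofReal_re]; positivity) 0 0
  refine h1.re.congr (Filter.Eventually.of_forall fun z => ?_)
  have h2 : (-((1 / (2 * h) : ℝ) : ℂ) * (‖z‖ : ℂ) ^ 2 + 0 * (inner ℝ (0 : EuclideanSpace ℝ κ) z : ℝ))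
      = ((-(‖z‖ ^ 2 / (2 * h)) : ℝ) : ℂ) := by
    push_cast
    ring
  simp only [h2, g]
  rw [← Complex.ofReal_exp]
  rfl

theorem gs_eq (h : ℝ) (φ : EuclideanSpace ℝ κ → ℝ) (x : EuclideanSpace ℝ κ) :
    gs h φ x = (∫ z, φ (x + z) * g κ h z) / gc κ h := by
  unfold gs
  congr 1
  rw [← integral_add_left_eq_self _ x]
  refine integral_congr_ae (Filter.Eventually.of_forall fun z => ?_)
  have : ‖x - (x + z)‖ = ‖z‖ := by
    rw [sub_add_cancel_left, norm_neg]
  simp only [this, g]

end N6ax

open N6ax in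
theorem gs_deriv (h : ℝ) (hh : 0 < h) (φ : EuclideanSpace ℝ κ → ℝ) (hφ : ContDiff ℝ 1 φ) (B : ℝ)
    (hb : ∀ y, |φ y| ≤ B) (hb1 : ∀ y, ‖fderiv ℝ φ y‖ ≤ B) :
    ContDiff ℝ 1 (gs h φ) ∧
      ∀ x w, fderiv ℝ (gs h φ) x w = gs h (fun y => fderiv ℝ φ y w) x := by
  have hc : Continuous φ := hφ.continuous
  have hd : Continuous (fderiv ℝ φ) := hφ.continuous_fderiv (by norm_num)
  have hg := g_cont (κ := κ) h
  have hgi := g_int (κ := κ) h hh
  have hB : Integrable (fun z : EuclideanSpace ℝ κ => B * g κ h z) := hgi.const_mul B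
  have hF : ∀ x : EuclideanSpace ℝ κ, Integrable (fun z => φ (x + z) * g κ h z) := by
    intro x
    refine hB.mono' ((hc.comp (by fun_prop)).mul hg).aestronglyMeasurable
      (Filter.Eventually.of_forall fun z => ?_)
    rw [norm_mul, Real.norm_eq_abs, Real.norm_eq_abs, abs_of_pos (g_pos h z)]
    exact mul_le_mul_of_nonneg_right (hb _) (g_pos h z).le
  have hF' : ∀ x : EuclideanSpace ℝ κ, Integrable (fun z => g κ h z • fderiv ℝ φ (x + z)) := by
    intro x
    refine hB.mono' (hg.smul (hd.comp (by fun_prop))).aestronglyMeasurable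
      (Filter.Eventually.of_forall fun z => ?_)
    rw [norm_smul, Real.norm_eq_abs, abs_of_pos (g_pos h z), mul_comm]
    exact mul_le_mul_of_nonneg_right (hb1 _) (g_pos h z).le
  have hder : ∀ x : EuclideanSpace ℝ κ, HasFDerivAt (fun x => ∫ z, φ (x + z) * g κ h z)
      (∫ z, g κ h z • fderiv ℝ φ (x + z)) x := by
    intro x
    refine hasFDerivAt_integral_of_dominated_of_fderiv_le (s := univ) (bound := fun z => B * g κ h z)
      (F' := fun x z => g κ h z • fderiv ℝ φ (x + z)) Filter.univ_mem (Filter.Eventually.of_forall fun y => (hF y).aestronglyMeasurable) (hF x)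
      (hF' x).aestronglyMeasurable (Filter.Eventually.of_forall fun z y _ => ?_) hB
      (Filter.Eventually.of_forall fun z y _ => ?_)
    · rw [norm_smul, Real.norm_eq_abs, abs_of_pos (g_pos h z), mul_comm]
      exact mul_le_mul_of_nonneg_right (hb1 _) (g_pos h z).le
    · have h1 : HasFDerivAt (fun y => φ (y + z)) (fderiv ℝ φ (y + z)) y :=
        (hasFDerivAt_comp_add_right z).2 (hφ.differentiable (by norm_num) (y + z)).hasFDerivAt
      exact h1.mul_const (g κ h z)
  have hcd : Continuous (fun x : EuclideanSpace ℝ κ => ∫ z, g κ h z • fderiv ℝ φ (x + z)) := by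
    refine continuous_of_dominated (bound := fun z => B * g κ h z)
      (fun x => (hF' x).aestronglyMeasurable)
      (fun x => Filter.Eventually.of_forall fun z => ?_) hB
      (Filter.Eventually.of_forall fun z => ?_)
    · rw [norm_smul, Real.norm_eq_abs, abs_of_pos (g_pos h z), mul_comm]
      exact mul_le_mul_of_nonneg_right (hb1 _) (g_pos h z).le
    · have h2 : Continuous (fun x : EuclideanSpace ℝ κ => fderiv ℝ φ (x + z)) :=
        hd.comp (continuous_id.add continuous_const)
      exact h2.const_smul (g κ h z)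
  have hgs : gs h φ = fun x => (gc κ h)⁻¹ • ∫ z, φ (x + z) * g κ h z := by
    funext x
    rw [gs_eq, div_eq_inv_mul, smul_eq_mul]
  have hder2 : ∀ x, HasFDerivAt (gs h φ) ((gc κ h)⁻¹ • ∫ z, g κ h z • fderiv ℝ φ (x + z)) x := by
    intro x
    rw [hgs]
    exact (hder x).fun_const_smul _
  constructor
  · rw [contDiff_one_iff_fderiv]
    refine ⟨fun x => (hder2 x).differentiableAt, ?_⟩
    have : fderiv ℝ (gs h φ) = fun x => (gc κ h)⁻¹ • ∫ z, g κ h z • fderiv ℝ φ (x + z) := by
      funext x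
      exact (hder2 x).fderiv
    rw [this]
    exact hcd.const_smul (gc κ h)⁻¹
  · intro x w
    rw [(hder2 x).fderiv, gs_eq, _root_.smul_apply,
      ContinuousLinearMap.integral_apply (hF' x), smul_eq_mul, div_eq_inv_mul]
    congr 1
    refine integral_congr_ae (Filter.Eventually.of_forall fun z => ?_)
    simp only [_root_.smul_apply, smul_eq_mul]
    ring

end Pool.Agent.H888R2.KT
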