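import Pool.Agent.H888R2.KT.Defs

/-!
# KT N0b: Gaussian moments
-/

set_option autoImplicit false

namespace Pool.Agent.H888R2.KT

open MeasureTheory Set Matrix Pool.Agent.H888R2.KC
open scoped ENNReal InnerProductSpace
open Pool.Agent.H212R2.KLS (mu Bdd ev gr)

namespace N0bx

variable {κ : Type} [Fintype κ]

theorem int0 (b : ℝ) (hb : 0 < b) :
    Integrable (fun y : EuclideanSpace ℝ κ => Real.exp (-(b * ‖y‖ ^ 2))) := by
  have h1 := GaussianFourier.integrable_cexp_neg_mul_sq_norm_add (V := EuclideanSpace ℝ κ)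
    (b := (b : ℂ)) (by simpa using hb) 0 0
  have h2 := h1.norm
  refine h2.congr (Filter.Eventually.of_forall fun y => ?_)
  simp only [zero_mul, add_zero, Complex.norm_exp]
  congr 1
  have : (-(b : ℂ) * ((‖y‖ : ℝ) : ℂ) ^ 2) = ((-(b * ‖y‖ ^ 2) : ℝ) : ℂ) := by
    push_cast
    ring
  rw [this, Complex.ofReal_re]

theorem aux (h : ℝ) (hh : 0 < h) (t : ℝ) :
    t ^ 2 * Real.exp (-(t ^ 2 / (2 * h))) ≤ 4 * h * Real.exp (-(1 / (4 * h) * t ^ 2)) := by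
  have e1 : Real.exp (-(t ^ 2 / (2 * h))) =
      Real.exp (-(1 / (4 * h) * t ^ 2)) * Real.exp (-(1 / (4 * h) * t ^ 2)) := by
    rw [← Real.exp_add]
    congr 1
    field_simp
    ring
  have h1 : 1 / (4 * h) * t ^ 2 * Real.exp (-(1 / (4 * h) * t ^ 2)) ≤ 1 := by
    have h2 := Real.add_one_le_exp (1 / (4 * h) * t ^ 2)
    rw [Real.exp_neg, ← div_eq_mul_inv, div_le_one (Real.exp_pos _)]
    linarith
  have h3 := Real.exp_pos (-(1 / (4 * h) * t ^ 2))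
  rw [e1]
  calc t ^ 2 * (Real.exp (-(1 / (4 * h) * t ^ 2)) * Real.exp (-(1 / (4 * h) * t ^ 2)))
      = 4 * h * ((1 / (4 * h) * t ^ 2 * Real.exp (-(1 / (4 * h) * t ^ 2))) *
        Real.exp (-(1 / (4 * h) * t ^ 2))) := by
        field_simp
    _ ≤ 4 * h * (1 * Real.exp (-(1 / (4 * h) * t ^ 2))) := by
        apply mul_le_mul_of_nonneg_left _ (by positivity)
        exact mul_le_mul_of_nonneg_right h1 h3.le
    _ = _ := by ring

theorem int1 (h : ℝ) (hh : 0 < h) :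
    Integrable (fun y : EuclideanSpace ℝ κ => Real.exp (-(‖y‖ ^ 2 / (2 * h)))) := by
  refine (int0 (κ := κ) (1 / (2 * h)) (by positivity)).congr
    (Filter.Eventually.of_forall fun y => ?_)
  simp only
  congr 1
  ring

theorem int2 (h : ℝ) (hh : 0 < h) (w : EuclideanSpace ℝ κ) :
    Integrable (fun y : EuclideanSpace ℝ κ => ⟪y, w⟫_ℝ ^ 2 * Real.exp (-(‖y‖ ^ 2 / (2 * h)))) := by
  refine ((int0 (κ := κ) (1 / (4 * h)) (by positivity)).const_mul (‖w‖ ^ 2 * (4 * h))).mono'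
    ?_ (Filter.Eventually.of_forall fun y => ?_)
  · apply Continuous.aestronglyMeasurable
    fun_prop
  · have h0 : ⟪y, w⟫_ℝ ^ 2 ≤ ‖w‖ ^ 2 * ‖y‖ ^ 2 := by
      have h1 := abs_real_inner_le_norm y w
      have h2 : |⟪y, w⟫_ℝ| ^ 2 ≤ (‖y‖ * ‖w‖) ^ 2 := by
        exact pow_le_pow_left₀ (abs_nonneg _) h1 2
      rw [sq_abs] at h2
      calc _ ≤ _ := h2
        _ = _ := by ring
    rw [Real.norm_of_nonneg (by positivity)]
    calc ⟪y, w⟫_ℝ ^ 2 * Real.exp (-(‖y‖ ^ 2 / (2 * h)))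
        ≤ (‖w‖ ^ 2 * ‖y‖ ^ 2) * Real.exp (-(‖y‖ ^ 2 / (2 * h))) :=
          mul_le_mul_of_nonneg_right h0 (Real.exp_pos _).le
      _ = ‖w‖ ^ 2 * (‖y‖ ^ 2 * Real.exp (-(‖y‖ ^ 2 / (2 * h)))) := by ring
      _ ≤ ‖w‖ ^ 2 * (4 * h * Real.exp (-(1 / (4 * h) * ‖y‖ ^ 2))) :=
          mul_le_mul_of_nonneg_left (aux h hh ‖y‖) (by positivity)
      _ = _ := by ring

theorem int3 (h : ℝ) (hh : 0 < h) (w : EuclideanSpace ℝ κ) :
    Integrable (fun y : EuclideanSpace ℝ κ => ⟪y, w⟫_ℝ * Real.exp (-(‖y‖ ^ 2 / (2 * h)))) := by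
  refine ((int1 (κ := κ) h hh).add (int2 h hh w)).mono'
    ?_ (Filter.Eventually.of_forall fun y => ?_)
  · apply Continuous.aestronglyMeasurable
    fun_prop
  · rw [norm_mul, Real.norm_of_nonneg (Real.exp_pos _).le, Real.norm_eq_abs]
    have h1 : |⟪y, w⟫_ℝ| ≤ 1 + ⟪y, w⟫_ℝ ^ 2 := by
      have := sq_abs ⟪y, w⟫_ℝ
      nlinarith [abs_nonneg ⟪y, w⟫_ℝ, sq_nonneg (|⟪y, w⟫_ℝ| - 1)]
    have h2 := Real.exp_pos (-(‖y‖ ^ 2 / (2 * h)))
    have h3 := mul_le_mul_of_nonneg_right h1 h2.le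
    simp only [Pi.add_apply]
    linarith

theorem deriv_g (h : ℝ) (hh : 0 < h) (y : EuclideanSpace ℝ κ) :
    HasFDerivAt (fun y : EuclideanSpace ℝ κ => Real.exp (-(‖y‖ ^ 2 / (2 * h))))
      ((-(h⁻¹ * Real.exp (-(‖y‖ ^ 2 / (2 * h))))) • innerSL ℝ y) y := by
  have h1 : HasFDerivAt (fun y : EuclideanSpace ℝ κ => ‖y‖ ^ 2) (2 • innerSL ℝ y) y :=
    (hasStrictFDerivAt_norm_sq y).hasFDerivAt
  have h2 := ((h1.const_mul (1 / (2 * h))).neg).exp
  convert! h2 using 1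
  · funext z
    congr 2
    ring
  · ext z
    simp only [_root_.smul_apply, _root_.neg_apply, smul_eq_mul,
      nsmul_eq_mul]
    have : Real.exp (-(‖y‖ ^ 2 / (2 * h))) = Real.exp (-(1 / (2 * h) * ‖y‖ ^ 2)) := by
      congr 1
      ring
    rw [this]
    field_simp
    norm_num
    ring

end N0bx

variable {κ : Type} [Fintype κ]

theorem gauss2 (h : ℝ) (hh : 0 < h) (w : EuclideanSpace ℝ κ) :
    Integrable (fun y : EuclideanSpace ℝ κ => ⟪y, w⟫_ℝ ^ 2 * Real.exp (-(‖y‖ ^ 2 / (2 * h)))) ∧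
    ∫ y : EuclideanSpace ℝ κ, ⟪y, w⟫_ℝ ^ 2 * Real.exp (-(‖y‖ ^ 2 / (2 * h))) =
      h * ‖w‖ ^ 2 * gc κ h ∧
    ∫ y : EuclideanSpace ℝ κ, ⟪y, w⟫_ℝ * Real.exp (-(‖y‖ ^ 2 / (2 * h))) = 0 := by
  refine ⟨N0bx.int2 h hh w, ?_, ?_⟩
  · have hf : ∀ y : EuclideanSpace ℝ κ, HasFDerivAt (fun y : EuclideanSpace ℝ κ => ⟪y, w⟫_ℝ)
        (innerSL ℝ w) y := by
      intro y
      have h1 := (innerSL ℝ w).hasFDerivAt (x := y)
      convert! h1 using 1
      funext z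
      rw [innerSL_apply_apply, real_inner_comm]
    have key := integral_bilinear_hasFDerivAt_right_eq_neg_left_of_integrable
      (μ := (volume : Measure (EuclideanSpace ℝ κ)))
      (f := fun y : EuclideanSpace ℝ κ => ⟪y, w⟫_ℝ) (f' := fun _ => innerSL ℝ w)
      (g := fun y : EuclideanSpace ℝ κ => Real.exp (-(‖y‖ ^ 2 / (2 * h))))
      (g' := fun y => (-(h⁻¹ * Real.exp (-(‖y‖ ^ 2 / (2 * h))))) • innerSL ℝ y)
      (v := w) (B := ContinuousLinearMap.mul ℝ ℝ) ?_ ?_ ?_ (fun y _ => hf y)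
      (fun y _ => N0bx.deriv_g h hh y)
    · simp only [ContinuousLinearMap.mul_apply', _root_.smul_apply,
        innerSL_apply_apply, smul_eq_mul, real_inner_self_eq_norm_sq] at key
      rw [integral_const_mul] at key
      have e1 : ∀ y : EuclideanSpace ℝ κ, ⟪y, w⟫_ℝ *
          (-(h⁻¹ * Real.exp (-(‖y‖ ^ 2 / (2 * h)))) * ⟪y, w⟫_ℝ) =
          -h⁻¹ * (⟪y, w⟫_ℝ ^ 2 * Real.exp (-(‖y‖ ^ 2 / (2 * h)))) := fun y => by ring
      simp_rw [e1] at key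
      rw [integral_const_mul] at key
      unfold gc
      have h0 : h ≠ 0 := hh.ne'
      have key2 := congrArg (fun t => -h * t) key
      have e2 : -h * (-h⁻¹ * ∫ y : EuclideanSpace ℝ κ,
          ⟪y, w⟫_ℝ ^ 2 * Real.exp (-(‖y‖ ^ 2 / (2 * h)))) =
          ∫ y : EuclideanSpace ℝ κ, ⟪y, w⟫_ℝ ^ 2 * Real.exp (-(‖y‖ ^ 2 / (2 * h))) := by
        rw [← mul_assoc, neg_mul_neg, mul_inv_cancel₀ h0, one_mul]
      rw [e2] at key2
      rw [key2]
      ring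
    · simp only [ContinuousLinearMap.mul_apply', innerSL_apply_apply]
      exact (N0bx.int1 h hh).const_mul _
    · simp only [ContinuousLinearMap.mul_apply', _root_.smul_apply,
        innerSL_apply_apply, smul_eq_mul]
      refine ((N0bx.int2 h hh w).const_mul (-h⁻¹)).congr (Filter.Eventually.of_forall fun y => ?_)
      simp only
      ring
    · simp only [ContinuousLinearMap.mul_apply']
      exact N0bx.int3 h hh w
  · have h1 := integral_neg_eq_self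
      (fun y : EuclideanSpace ℝ κ => ⟪y, w⟫_ℝ * Real.exp (-(‖y‖ ^ 2 / (2 * h)))) volume
    simp only [inner_neg_left, norm_neg, neg_mul] at h1
    rw [integral_neg] at h1
    linarith

end Pool.Agent.H888R2.KT
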