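import Pool.Agent.H888R2.KT.Defs
import Pool.Agent.H888R2.KT.N0

/-! # KT N7: Fubini for the Gaussian channel -/

set_option autoImplicit false

namespace Pool.Agent.H888R2.KT

open MeasureTheory Set Matrix Pool.Agent.H888R2.KC
open scoped ENNReal InnerProductSpace
open Pool.Agent.H212R2.KLS (mu Bdd ev gr)

variable {κ : Type} [Fintype κ] {ρ : EuclideanSpace ℝ κ → ℝ}

namespace N7x

theorem fin_mu (hρ : LC ρ) : IsFiniteMeasure (mu ρ) := ⟨lt_top_iff_ne_top.2 hρ.fin⟩

theorem cont_kernel (h : ℝ) : Continuous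
    (fun z : EuclideanSpace ℝ κ × EuclideanSpace ℝ κ =>
      Real.exp (-(‖z.1 - z.2‖ ^ 2 / (2 * h)))) := by
  fun_prop

/-- a continuous function is bounded almost everywhere on the support -/
theorem ae_bound (hρ : LC ρ) (u : EuclideanSpace ℝ κ → ℝ) (hu : Continuous u) :
    ∃ M : ℝ, 0 ≤ M ∧ ∀ᵐ x ∂(mu ρ), |u x| ≤ M := by
  obtain ⟨R, hR⟩ := hρ.bdd
  obtain ⟨M, hM⟩ := (isCompact_closedBall (0 : EuclideanSpace ℝ κ) R).exists_bound_of_continuousOn
    hu.continuousOn
  refine ⟨max M 0, le_max_right _ _, ?_⟩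
  have h1 : Measurable fun x => ENNReal.ofReal (ρ x) := ENNReal.measurable_ofReal.comp hρ.meas
  have h2 : ∀ᵐ x ∂(mu ρ), ρ x ≠ 0 := by
    unfold mu
    rw [ae_withDensity_iff h1]
    refine Filter.Eventually.of_forall fun x hx h0 => hx ?_
    rw [h0, ENNReal.ofReal_zero]
  filter_upwards [h2] with x hx
  have h3 : ‖x‖ ≤ R := by
    by_contra hc
    exact hx (hR x (not_le.1 hc))
  have h4 := hM x (by simpa using h3)
  rw [Real.norm_eq_abs] at h4
  exact h4.trans (le_max_left _ _)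

theorem gs_eq (h : ℝ) (φ : EuclideanSpace ℝ κ → ℝ) (x : EuclideanSpace ℝ κ) :
    gs h φ x = (∫ z, φ (x + z) * Real.exp (-(‖z‖ ^ 2 / (2 * h)))) / gc κ h := by
  unfold gs
  congr 1
  rw [← integral_add_left_eq_self (fun y => φ y * Real.exp (-(‖x - y‖ ^ 2 / (2 * h)))) x]
  refine integral_congr_ae (Filter.Eventually.of_forall fun z => ?_)
  simp only
  congr 4
  rw [sub_add_cancel_left, norm_neg]

theorem cont_gs (h : ℝ) (hh : 0 < h) (φ : EuclideanSpace ℝ κ → ℝ) (hφ : Continuous φ) (B : ℝ)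
    (hb : ∀ y, |φ y| ≤ B) : Continuous (gs h φ) := by
  have h0 : (fun z : EuclideanSpace ℝ κ => Real.exp (-(‖(0 : EuclideanSpace ℝ κ) - z‖ ^ 2 / (2 * h))))
      = fun z => Real.exp (-(‖z‖ ^ 2 / (2 * h))) := by
    funext z
    rw [zero_sub, norm_neg]
  have hi : Integrable (fun z : EuclideanSpace ℝ κ => Real.exp (-(‖z‖ ^ 2 / (2 * h)))) := by
    rw [← h0]
    exact (gc_pos (κ := κ) h hh).2.2.1 0
  have hc : Continuous (fun x : EuclideanSpace ℝ κ =>
      ∫ z, φ (x + z) * Real.exp (-(‖z‖ ^ 2 / (2 * h)))) := by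
    refine continuous_of_dominated (bound := fun z => B * Real.exp (-(‖z‖ ^ 2 / (2 * h))))
      (fun x => ?_) (fun x => ?_) (hi.const_mul B) ?_
    · have : Continuous (fun z : EuclideanSpace ℝ κ =>
          φ (x + z) * Real.exp (-(‖z‖ ^ 2 / (2 * h)))) := by fun_prop
      exact this.aestronglyMeasurable
    · refine Filter.Eventually.of_forall fun z => ?_
      rw [norm_mul, Real.norm_eq_abs, Real.norm_eq_abs, abs_of_pos (Real.exp_pos _)]
      exact mul_le_mul_of_nonneg_right (hb _) (Real.exp_pos _).le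
    · refine Filter.Eventually.of_forall fun z => ?_
      fun_prop
  have : gs h φ = fun x => (∫ z, φ (x + z) * Real.exp (-(‖z‖ ^ 2 / (2 * h)))) / gc κ h := by
    funext x
    exact gs_eq h φ x
  rw [this]
  exact hc.div_const _

theorem int_prod (hρ : LC ρ) (h : ℝ) (hh : 0 < h) (u φ : EuclideanSpace ℝ κ → ℝ)
    (hu : Continuous u) (hφ : Continuous φ) (B : ℝ) (hb : ∀ y, |φ y| ≤ B) :
    Integrable (fun z : EuclideanSpace ℝ κ × EuclideanSpace ℝ κ =>
      u z.1 * (φ z.2 * Real.exp (-(‖z.1 - z.2‖ ^ 2 / (2 * h))))) ((mu ρ).prod volume) := by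
  have := fin_mu hρ
  obtain ⟨M, hM0, hM⟩ := ae_bound hρ u hu
  obtain ⟨hg0, hg1, hg2, -⟩ := gc_pos (κ := κ) h hh
  have hB : 0 ≤ B := (abs_nonneg _).trans (hb 0)
  have hcont : Continuous (fun z : EuclideanSpace ℝ κ × EuclideanSpace ℝ κ =>
      u z.1 * (φ z.2 * Real.exp (-(‖z.1 - z.2‖ ^ 2 / (2 * h))))) := by fun_prop
  have hin : ∀ x : EuclideanSpace ℝ κ, Integrable
      (fun y => u x * (φ y * Real.exp (-(‖x - y‖ ^ 2 / (2 * h))))) := by
    intro x
    refine Integrable.const_mul ?_ _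
    refine ((hg2 x).const_mul B).mono' ?_ ?_
    · have : Continuous (fun y : EuclideanSpace ℝ κ =>
          φ y * Real.exp (-(‖x - y‖ ^ 2 / (2 * h)))) := by fun_prop
      exact this.aestronglyMeasurable
    · refine Filter.Eventually.of_forall fun y => ?_
      rw [norm_mul, Real.norm_eq_abs, Real.norm_eq_abs, abs_of_pos (Real.exp_pos _)]
      exact mul_le_mul_of_nonneg_right (hb _) (Real.exp_pos _).le
  rw [integrable_prod_iff hcont.aestronglyMeasurable]
  refine ⟨Filter.Eventually.of_forall fun x => hin x, ?_⟩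
  refine Integrable.mono' (integrable_const (M * (B * gc κ h))) ?_ ?_
  · exact hcont.norm.aestronglyMeasurable.integral_prod_right'
  · filter_upwards [hM] with x hx
    rw [Real.norm_eq_abs, abs_of_nonneg (integral_nonneg fun y => norm_nonneg _)]
    calc ∫ y, ‖u x * (φ y * Real.exp (-(‖x - y‖ ^ 2 / (2 * h))))‖
        ≤ ∫ y, M * (B * Real.exp (-(‖x - y‖ ^ 2 / (2 * h)))) := by
          refine integral_mono (hin x).norm (((hg2 x).const_mul B).const_mul M) fun y => ?_
          simp only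
          rw [norm_mul, norm_mul, Real.norm_eq_abs, Real.norm_eq_abs, Real.norm_eq_abs,
            abs_of_pos (Real.exp_pos _)]
          exact mul_le_mul hx (mul_le_mul_of_nonneg_right (hb _) (Real.exp_pos _).le)
            (mul_nonneg (abs_nonneg _) (Real.exp_pos _).le) hM0
      _ = M * (B * gc κ h) := by
          rw [integral_const_mul, integral_const_mul, hg1]

end N7x

open N7x in
theorem fub (hρ : LC ρ) (h : ℝ) (hh : 0 < h) (u φ : EuclideanSpace ℝ κ → ℝ) (hu : Continuous u)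
    (hφ : Continuous φ) (B : ℝ) (hb : ∀ y, |φ y| ≤ B) :
    Integrable (fun y => pst h ρ u y * φ y * zz h ρ y) ∧ Continuous (gs h φ) ∧
      ∫ x, u x * gs h φ x ∂(mu ρ) = (gc κ h)⁻¹ * ∫ y, pst h ρ u y * φ y * zz h ρ y := by
  have := fin_mu hρ
  obtain ⟨hg0, hg1, hg2, -⟩ := gc_pos (κ := κ) h hh
  have hI := int_prod hρ h hh u φ hu hφ B hb
  have hy : ∀ y, ∫ x, u x * (φ y * Real.exp (-(‖x - y‖ ^ 2 / (2 * h)))) ∂(mu ρ) =
      pst h ρ u y * φ y * zz h ρ y := by
    intro y
    have hz := (zz_pos hρ h hh y).1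
    unfold pst
    rw [mul_assoc, mul_comm (φ y), ← mul_assoc, div_mul_cancel₀ _ hz.ne', ← integral_mul_const]
    refine integral_congr_ae (Filter.Eventually.of_forall fun x => ?_)
    simp only
    ring
  have hx : ∀ x, ∫ y, u x * (φ y * Real.exp (-(‖x - y‖ ^ 2 / (2 * h)))) =
      gc κ h * (u x * gs h φ x) := by
    intro x
    unfold gs
    rw [integral_const_mul]
    field_simp
  refine ⟨?_, cont_gs h hh φ hφ B hb, ?_⟩
  · have h1 := hI.integral_prod_right
    refine h1.congr (Filter.Eventually.of_forall fun y => ?_)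
    exact hy y
  · have h1 := integral_integral_swap (f := fun x y =>
      u x * (φ y * Real.exp (-(‖x - y‖ ^ 2 / (2 * h))))) hI
    simp only [hy, hx] at h1
    rw [integral_const_mul] at h1
    rw [← h1, ← mul_assoc, inv_mul_cancel₀ hg0.ne', one_mul]

end Pool.Agent.H888R2.KT
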