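import Pool.Agent.H888R2.KT.Defs
import Pool.Agent.H888R2.KT.N0
import Pool.Agent.H888R2.KT.N4
import Pool.Agent.H888R2.KT.N5
import Pool.Agent.H888R2.KT.N6a
import Pool.Agent.H888R2.KT.N6b
import Pool.Agent.H888R2.KT.N7

set_option autoImplicit false

namespace Pool.Agent.H888R2.KT

open MeasureTheory Set Matrix Pool.Agent.H888R2.KC
open scoped ENNReal InnerProductSpace
open Pool.Agent.H212R2.KLS (mu Bdd ev gr)

namespace N8x

variable {κ : Type} [Fintype κ] {ρ : EuclideanSpace ℝ κ → ℝ}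

theorem norm_sq_clm [DecidableEq κ] (L : EuclideanSpace ℝ κ →L[ℝ] ℝ) :
    ‖L‖ ^ 2 = ∑ i, (L (EuclideanSpace.single i 1)) ^ 2 := by
  set v := (InnerProductSpace.toDual ℝ (EuclideanSpace ℝ κ)).symm L with hv
  have h1 : ‖v‖ = ‖L‖ := by rw [hv, LinearIsometryEquiv.norm_map]
  have h2 : ∀ w, L w = ⟪v, w⟫_ℝ := fun w => by
    rw [hv, InnerProductSpace.toDual_symm_apply]
  rw [← h1, EuclideanSpace.real_norm_sq_eq]
  refine Finset.sum_congr rfl (fun i _ => ?_)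
  rw [h2, EuclideanSpace.inner_single_right]
  simp

theorem cont_int (hρ : LC ρ) (F : EuclideanSpace ℝ κ → ℝ) (hF : Continuous F) :
    Integrable F (mu ρ) := by
  have h := (zz_pos hρ 1 one_pos 0).2
    (fun x => F x * Real.exp (‖x - 0‖ ^ 2 / (2 * 1))) (by fun_prop)
  refine h.congr (Filter.Eventually.of_forall fun x => ?_)
  simp only
  rw [mul_assoc, ← Real.exp_add, add_neg_cancel, Real.exp_zero, mul_one]

theorem gs_int (h : ℝ) (hh : 0 < h) (φ : EuclideanSpace ℝ κ → ℝ) (hφ : Continuous φ) (B : ℝ)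
    (hb : ∀ y, |φ y| ≤ B) (x : EuclideanSpace ℝ κ) :
    Integrable (fun y => φ y * Real.exp (-(‖x - y‖ ^ 2 / (2 * h)))) := by
  refine ((gc_pos (κ := κ) h hh).2.2.1 x).bdd_mul (c := B) hφ.aestronglyMeasurable ?_
  exact Filter.Eventually.of_forall fun y => by rw [Real.norm_eq_abs]; exact hb y

theorem gs_add (h : ℝ) (hh : 0 < h) (φ ψ : EuclideanSpace ℝ κ → ℝ) (hφ : Continuous φ)
    (hψ : Continuous ψ) (B B' : ℝ) (hb : ∀ y, |φ y| ≤ B) (hb' : ∀ y, |ψ y| ≤ B')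
    (x : EuclideanSpace ℝ κ) :
    gs h (fun y => φ y + ψ y) x = gs h φ x + gs h ψ x := by
  unfold gs
  rw [← add_div, ← integral_add (gs_int h hh φ hφ B hb x) (gs_int h hh ψ hψ B' hb' x)]
  congr 1
  refine integral_congr_ae (Filter.Eventually.of_forall fun y => ?_)
  simp only
  ring

theorem gs_mul (h : ℝ) (c : ℝ) (φ : EuclideanSpace ℝ κ → ℝ) (x : EuclideanSpace ℝ κ) :
    gs h (fun y => c * φ y) x = c * gs h φ x := by
  unfold gs
  rw [← mul_div_assoc, ← integral_const_mul]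
  congr 1
  refine integral_congr_ae (Filter.Eventually.of_forall fun y => ?_)
  simp only
  ring

theorem gs_sum {α : Type} [Fintype α] (h : ℝ) (hh : 0 < h) (φ : α → EuclideanSpace ℝ κ → ℝ)
    (hφ : ∀ i, Continuous (φ i)) (B : ℝ) (hb : ∀ i y, |φ i y| ≤ B) (x : EuclideanSpace ℝ κ) :
    gs h (fun y => ∑ i, φ i y) x = ∑ i, gs h (φ i) x := by
  unfold gs
  rw [← Finset.sum_div, ← integral_finsetSum _ (fun i _ => gs_int h hh (φ i) (hφ i) B (hb i) x)]
  congr 1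
  refine integral_congr_ae (Filter.Eventually.of_forall fun y => ?_)
  simp only
  rw [Finset.sum_mul]

end N8x

open N8x

theorem key {κ : Type} [Fintype κ] {ρ : EuclideanSpace ℝ κ → ℝ} (hρ : LC ρ) {q : ℕ}
    (e : Fin q → EuclideanSpace ℝ κ) (he : Orthonormal ℝ e)
    (K : ℝ) (hK : 0 < K) (hT : St e K ρ) (h : ℝ) (hh : 0 < h) (u : EuclideanSpace ℝ κ → ℝ)
    (hu : ContDiff ℝ 1 u) :
    ContDiff ℝ 2 (gs h (pst h ρ u)) ∧
    ∫ x, (‖fderiv ℝ (gs h (pst h ρ u)) x‖ ^ 2 + h * hs (gs h (pst h ρ u)) x +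
      h / K * ∑ j, (fderiv ℝ (gs h (pst h ρ u)) x (e j)) ^ 2) ∂(mu ρ) ≤
      ∫ x, ‖fderiv ℝ u x‖ ^ 2 ∂(mu ρ) := by
  classical
  obtain ⟨hg2, B, hB⟩ := pst_smooth hρ h hh u hu.continuous
  set g := pst h ρ u with hg
  have hB0 : 0 ≤ B := (abs_nonneg _).trans (hB 0).1
  have hg1 : ContDiff ℝ 1 g := hg2.of_le (by norm_num)
  have hgf : ContDiff ℝ 1 (fderiv ℝ g) := hg2.fderiv_right (by norm_num)
  -- the functions `φ_w`
  have hφ1 : ∀ w, ContDiff ℝ 1 (fun y => fderiv ℝ g y w) := fun w =>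
    hgf.clm_apply contDiff_const
  have hφb : ∀ w, ‖w‖ ≤ 1 → ∀ y, |fderiv ℝ g y w| ≤ B := by
    intro w hw y
    rw [← Real.norm_eq_abs]
    calc ‖fderiv ℝ g y w‖ ≤ ‖fderiv ℝ g y‖ * ‖w‖ := (fderiv ℝ g y).le_opNorm w
      _ ≤ B * 1 := by gcongr; exact (hB y).2.1
      _ = B := mul_one B
  have hφb' : ∀ w, ‖w‖ ≤ 1 → ∀ y, ‖fderiv ℝ (fun y => fderiv ℝ g y w) y‖ ≤ B :=
    fun w hw y => (hB y).2.2 w hw
  obtain ⟨hv1, hvd⟩ := gs_deriv h hh g hg1 B (fun y => (hB y).1) (fun y => (hB y).2.1)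
  set v := gs h g with hv
  have hvw : ∀ w, (fun x => fderiv ℝ v x w) = gs h (fun y => fderiv ℝ g y w) := fun w =>
    funext fun x => hvd x w
  have hC1 : ∀ w, ‖w‖ ≤ 1 → ContDiff ℝ 1 (fun x => fderiv ℝ v x w) := by
    intro w hw
    rw [hvw w]
    exact (gs_deriv h hh _ (hφ1 w) B (hφb w hw) (hφb' w hw)).1
  have hC1' : ∀ w, ContDiff ℝ 1 (fun x => fderiv ℝ v x w) := by
    intro w
    by_cases hw : w = 0
    · subst hw
      simp only [map_zero]
      exact contDiff_const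
    · have hn : ‖w‖ ≠ 0 := norm_ne_zero_iff.mpr hw
      have e1 : (fun x => fderiv ℝ v x w) = fun x => ‖w‖ * fderiv ℝ v x (‖w‖⁻¹ • w) := by
        funext x
        rw [map_smul, smul_eq_mul, ← mul_assoc, mul_inv_cancel₀ hn, one_mul]
      rw [e1]
      refine contDiff_const.mul (hC1 _ ?_)
      rw [norm_smul, norm_inv, norm_norm, inv_mul_cancel₀ hn]
  have hv2 : ContDiff ℝ 2 v := by
    have : (2 : WithTop ℕ∞) = 1 + 1 := by norm_num
    rw [this, contDiff_succ_iff_fderiv]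
    refine ⟨hv1.differentiable (by norm_num), ?_, ?_⟩
    · intro h0
      exact absurd h0 (by decide)
    · rw [contDiff_clm_apply_iff]
      exact hC1'
  refine ⟨hv2, ?_⟩
  -- Bessel
  have hbes : ∀ w, ‖w‖ ≤ 1 → ∀ x, h * ‖fderiv ℝ (fun z => fderiv ℝ v z w) x‖ ^ 2 +
      (fderiv ℝ v x w) ^ 2 ≤ gs h (fun y => (fderiv ℝ g y w) ^ 2) x := by
    intro w hw x
    have := gs_bessel h hh _ (hφ1 w) B (hφb w hw) (hφb' w hw) x
    rw [← hvw w] at this
    linarith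
  have hns : ∀ i : κ, ‖(EuclideanSpace.single i (1 : ℝ) : EuclideanSpace ℝ κ)‖ ≤ 1 := by
    intro i
    simp
  have hne : ∀ j, ‖e j‖ ≤ 1 := fun j => (he.1 j).le
  have hsqb : ∀ w, ‖w‖ ≤ 1 → ∀ y, |(fderiv ℝ g y w) ^ 2| ≤ B ^ 2 := by
    intro w hw y
    rw [abs_pow]
    exact pow_le_pow_left₀ (abs_nonneg _) (hφb w hw y) 2
  have hsqc : ∀ w, Continuous fun y => (fderiv ℝ g y w) ^ 2 := fun w =>
    (hφ1 w).continuous.pow 2
  have hgfc : Continuous fun y => ‖fderiv ℝ g y‖ ^ 2 := (hgf.continuous.norm).pow 2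
  have hgfb : ∀ y, |‖fderiv ℝ g y‖ ^ 2| ≤ B ^ 2 := by
    intro y
    rw [abs_pow, abs_norm]
    exact pow_le_pow_left₀ (norm_nonneg _) (hB y).2.1 2
  have hA : ∀ x, ‖fderiv ℝ v x‖ ^ 2 + h * hs v x ≤ gs h (fun y => ‖fderiv ℝ g y‖ ^ 2) x := by
    intro x
    have e1 : (fun y => ‖fderiv ℝ g y‖ ^ 2) =
        fun y => ∑ i : κ, (fderiv ℝ g y (EuclideanSpace.single i 1)) ^ 2 :=
      funext fun y => norm_sq_clm _
    rw [e1, gs_sum h hh _ (fun i => hsqc _) (B ^ 2) (fun i y => hsqb _ (hns i) y) x,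
      norm_sq_clm]
    have e2 : h * hs v x = ∑ i : κ,
        h * ‖fderiv ℝ (fun z => fderiv ℝ v z (EuclideanSpace.single i 1)) x‖ ^ 2 := by
      rw [← Finset.mul_sum]
      unfold hs
      congr 1
    rw [e2, ← Finset.sum_add_distrib]
    refine Finset.sum_le_sum (fun i _ => ?_)
    have := hbes _ (hns i) x
    linarith
  have hBj : ∀ j x, (fderiv ℝ v x (e j)) ^ 2 ≤ gs h (fun y => (fderiv ℝ g y (e j)) ^ 2) x := by
    intro j x
    have h1 := hbes _ (hne j) x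
    have h2 : 0 ≤ h * ‖fderiv ℝ (fun z => fderiv ℝ v z (e j)) x‖ ^ 2 := by positivity
    linarith
  set ψ : EuclideanSpace ℝ κ → ℝ := fun y => ‖fderiv ℝ g y‖ ^ 2 +
    h / K * ∑ j, (fderiv ℝ g y (e j)) ^ 2 with hψ
  have hhK : 0 < h / K := div_pos hh hK
  have hsc : Continuous fun y => ∑ j, (fderiv ℝ g y (e j)) ^ 2 :=
    continuous_finsetSum _ (fun j _ => hsqc (e j))
  have hsb : ∀ y, |∑ j, (fderiv ℝ g y (e j)) ^ 2| ≤ q * B ^ 2 := by
    intro y
    refine (Finset.abs_sum_le_sum_abs _ _).trans ?_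
    refine (Finset.sum_le_sum (fun j _ => hsqb _ (hne j) y)).trans ?_
    simp
  have hψc : Continuous ψ := hgfc.add (continuous_const.mul hsc)
  have hψb : ∀ y, |ψ y| ≤ B ^ 2 + h / K * (q * B ^ 2) := by
    intro y
    refine (abs_add_le _ _).trans (add_le_add (hgfb y) ?_)
    rw [abs_mul, abs_of_pos hhK]
    exact mul_le_mul_of_nonneg_left (hsb y) hhK.le
  have hI : ∀ x, ‖fderiv ℝ v x‖ ^ 2 + h * hs v x + h / K * ∑ j, (fderiv ℝ v x (e j)) ^ 2 ≤
      gs h ψ x := by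
    intro x
    have hc2 : Continuous fun y => h / K * ∑ j, (fderiv ℝ g y (e j)) ^ 2 :=
      continuous_const.mul hsc
    have hb2 : ∀ y, |h / K * ∑ j, (fderiv ℝ g y (e j)) ^ 2| ≤ h / K * (q * B ^ 2) := by
      intro y
      rw [abs_mul, abs_of_pos hhK]
      exact mul_le_mul_of_nonneg_left (hsb y) hhK.le
    rw [hψ, gs_add h hh (fun y => ‖fderiv ℝ g y‖ ^ 2)
      (fun y => h / K * ∑ j, (fderiv ℝ g y (e j)) ^ 2) hgfc hc2 (B ^ 2) (h / K * (q * B ^ 2)) hgfb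
      hb2 x, gs_mul,
      gs_sum h hh (fun j y => (fderiv ℝ g y (e j)) ^ 2) (fun j => hsqc (e j)) (B ^ 2)
        (fun j y => hsqb _ (hne j) y) x]
    refine add_le_add (hA x) ?_
    exact mul_le_mul_of_nonneg_left (Finset.sum_le_sum fun j _ => hBj j x) hhK.le
  obtain ⟨hi1, hc1, hf1⟩ := fub hρ h hh (fun _ => 1) ψ continuous_const hψc _ hψb
  have hufc : Continuous fun x => ‖fderiv ℝ u x‖ ^ 2 :=
    ((hu.continuous_fderiv (by norm_num)).norm).pow 2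
  obtain ⟨hi2, hc2, hf2⟩ := fub hρ h hh (fun x => ‖fderiv ℝ u x‖ ^ 2) (fun _ => 1) hufc
    continuous_const 1 (fun y => by simp)
  have hp1 : ∀ y, pst h ρ (fun _ => 1) y = 1 := by
    intro y
    unfold pst
    simp only [one_mul]
    exact div_self (zz_pos hρ h hh y).1.ne'
  have hg1' : ∀ x : EuclideanSpace ℝ κ, gs h (fun _ => 1) x = 1 := by
    intro x
    unfold gs
    simp only [one_mul]
    rw [(gc_pos (κ := κ) h hh).2.1 x]
    exact div_self (gc_pos (κ := κ) h hh).1.ne'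
  simp only [hp1, one_mul] at hi1 hf1
  simp only [hg1', mul_one] at hi2 hf2
  calc ∫ x, (‖fderiv ℝ v x‖ ^ 2 + h * hs v x + h / K * ∑ j, (fderiv ℝ v x (e j)) ^ 2) ∂(mu ρ)
      ≤ ∫ x, gs h ψ x ∂(mu ρ) := by
        refine integral_mono_of_nonneg (Filter.Eventually.of_forall fun x => ?_)
          (cont_int hρ _ hc1) (Filter.Eventually.of_forall hI)
        have : 0 ≤ hs v x := by
          unfold hs
          exact Finset.sum_nonneg fun i _ => by positivity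
        simp only [Pi.zero_apply]
        positivity
    _ = (gc κ h)⁻¹ * ∫ y, ψ y * zz h ρ y := hf1
    _ ≤ (gc κ h)⁻¹ * ∫ y, pst h ρ (fun x => ‖fderiv ℝ u x‖ ^ 2) y * zz h ρ y := by
        refine mul_le_mul_of_nonneg_left ?_ (inv_nonneg.mpr (gc_pos (κ := κ) h hh).1.le)
        refine integral_mono hi1 hi2 fun y => ?_
        exact mul_le_mul_of_nonneg_right (grad_contr hρ e he K hK hT h hh u hu y)
          (zz_pos hρ h hh y).1.le
    _ = ∫ x, ‖fderiv ℝ u x‖ ^ 2 ∂(mu ρ) := hf2.symm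

end Pool.Agent.H888R2.KT
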