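import Pool.Agent.H888R2.KT.Defs
import Pool.Agent.H212R2.KLS.R4
import Pool.Agent.H888R2.KC.R2

/-!
# N5b: variance contraction of the Gaussian channel (helper92)
-/

set_option autoImplicit false

namespace Pool.Agent.H888R2.KT

open MeasureTheory Set Matrix Pool.Agent.H888R2.KC
open scoped ENNReal InnerProductSpace
open Pool.Agent.H212R2.KLS (mu Bdd ev gr)

namespace N5bx

variable {κ : Type} [Fintype κ] {ρ : EuclideanSpace ℝ κ → ℝ}

theorem conv (hρ : LC ρ) (g : EuclideanSpace ℝ κ → ℝ) :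
    ∫ x, g x ∂(mu ρ) = ∫ x, ρ x * g x := by
  unfold mu
  rw [integral_withDensity_eq_integral_toReal_smul hρ.meas.ennreal_ofReal
    (Filter.Eventually.of_forall fun x => ENNReal.ofReal_lt_top)]
  apply integral_congr_ae
  refine Filter.Eventually.of_forall fun x => ?_
  simp only [smul_eq_mul]
  rw [ENNReal.toReal_ofReal (hρ.nonneg x)]

theorem mid (hρ : LC ρ) (x y : EuclideanSpace ℝ κ) :
    ρ x * ρ y ≤ (ρ ((1 / 2 : ℝ) • (x + y))) ^ 2 := by
  have h1 := hρ.logc x y (1 / 2) (by norm_num) (by norm_num)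
  have e1 : (1 - (1 / 2 : ℝ)) = 1 / 2 := by norm_num
  rw [e1, ← smul_add] at h1
  have hx := hρ.nonneg x
  have hy := hρ.nonneg y
  have h2 : (ρ x ^ (1 / 2 : ℝ) * ρ y ^ (1 / 2 : ℝ)) ^ 2 = ρ x * ρ y := by
    rw [mul_pow, ← Real.sqrt_eq_rpow, ← Real.sqrt_eq_rpow, Real.sq_sqrt hx, Real.sq_sqrt hy]
  rw [← h2]
  exact pow_le_pow_left₀ (by positivity) h1 2

theorem par (h : ℝ) (hh : 0 < h) (x x' y : EuclideanSpace ℝ κ) :
    Real.exp (-(‖x - y‖ ^ 2 / (2 * h))) * Real.exp (-(‖x' - y‖ ^ 2 / (2 * h))) =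
      (Real.exp (-(‖(1 / 2 : ℝ) • (x + x') - y‖ ^ 2 / (2 * h)))) ^ 2 *
        Real.exp (-(h⁻¹ / 4 * ‖x - x'‖ ^ 2)) := by
  rw [← Real.exp_add, ← Real.exp_nat_mul, ← Real.exp_add]
  congr 1
  have p := parallelogram_law_with_norm ℝ (x - y) (x' - y)
  have e1 : (x - y) - (x' - y) = x - x' := by abel
  have e2 : ‖(1 / 2 : ℝ) • (x + x') - y‖ = ‖(x - y) + (x' - y)‖ / 2 := by
    have : (1 / 2 : ℝ) • (x + x') - y = (1 / 2 : ℝ) • ((x - y) + (x' - y)) := by
      module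
    rw [this, norm_smul]
    norm_num
    ring
  rw [e1] at p
  rw [e2]
  push_cast
  field_simp
  nlinarith [p]

end N5bx

open N5bx in
theorem var_contr {κ : Type} [Fintype κ] {ρ : EuclideanSpace ℝ κ → ℝ}
    (hρ : LC ρ) (h : ℝ) (hh : 0 < h) (u : EuclideanSpace ℝ κ → ℝ)
    (hu : ContDiff ℝ 1 u) (y : EuclideanSpace ℝ κ) :
    pst h ρ (fun x => u x ^ 2) y - (pst h ρ u y) ^ 2 ≤
      h * pst h ρ (fun x => ‖fderiv ℝ u x‖ ^ 2) y := by
  set E : EuclideanSpace ℝ κ → ℝ := fun x => Real.exp (-(‖x - y‖ ^ 2 / (2 * h))) with hE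
  set w : EuclideanSpace ℝ κ → ℝ := fun x => ρ x * E x with hw
  have hEc : Continuous E := by
    rw [hE]
    fun_prop
  have hE0 : ∀ x, 0 < E x := fun x => Real.exp_pos _
  have hE1 : ∀ x, E x ≤ 1 := by
    intro x
    rw [hE]
    simp only [Real.exp_le_one_iff, Left.neg_nonpos_iff]
    positivity
  have hw0 : ∀ x, 0 ≤ w x := fun x => mul_nonneg (hρ.nonneg x) (hE0 x).le
  have hwm : Measurable w := hρ.meas.mul hEc.measurable
  have hwb : ∃ B, ∀ x, w x ≤ B := by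
    obtain ⟨B, hB⟩ := bdd_of_finite ρ hρ.nonneg hρ.meas hρ.logc hρ.fin hρ.ne
    refine ⟨B, fun x => ?_⟩
    calc w x ≤ ρ x * 1 := mul_le_mul_of_nonneg_left (hE1 x) (hρ.nonneg x)
      _ = ρ x := mul_one _
      _ ≤ B := hB x
  have hws : Bdd w := by
    obtain ⟨R, hR⟩ := hρ.bdd
    exact ⟨R, fun x hx => by rw [hw]; simp only; rw [hR x hx, zero_mul]⟩
  have hmid : ∀ x x', w x * w x' ≤ (w ((1 / 2 : ℝ) • (x + x'))) ^ 2 *
      Real.exp (-(h⁻¹ / 4 * ‖x - x'‖ ^ 2)) := by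
    intro x x'
    have h1 := mid hρ x x'
    have h2 := par h hh x x' y
    calc w x * w x' = (ρ x * ρ x') * (E x * E x') := by rw [hw]; ring
      _ ≤ (ρ ((1 / 2 : ℝ) • (x + x'))) ^ 2 * (E x * E x') :=
          mul_le_mul_of_nonneg_right h1 (mul_nonneg (hE0 x).le (hE0 x').le)
      _ = _ := by
          rw [hE] at *
          simp only at h2 ⊢
          rw [h2, hw]
          ring
  obtain ⟨c, hc⟩ := Pool.Agent.H212R2.KLS.poincare_of_strong volume w hw0 hwm hwb hws h⁻¹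
    (inv_pos.2 hh) hmid u hu
  rw [inv_inv] at hc
  obtain ⟨R, hR⟩ := hws
  have I1 : ∀ {φ : EuclideanSpace ℝ κ → ℝ}, Continuous φ →
      Integrable (fun x => φ x * w x) (volume : Measure (EuclideanSpace ℝ κ)) :=
    fun hφ => Pool.Agent.H212R2.KLS.R4aux.intg hwm hw0 hwb hR hφ
  have hP : ∀ g : EuclideanSpace ℝ κ → ℝ, pst h ρ g y = (∫ x, g x * w x) / ∫ x, w x := by
    intro g
    unfold pst zz
    rw [conv hρ, conv hρ]
    congr 1
    apply integral_congr_ae
    refine Filter.Eventually.of_forall fun x => ?_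
    simp only [hw, hE]
    ring
  rw [hP, hP, hP]
  have huc : Continuous u := hu.continuous
  have e1 : ∫ x, (u x - c) ^ 2 * w x =
      (∫ x, u x ^ 2 * w x) - 2 * c * (∫ x, u x * w x) + c ^ 2 * ∫ x, w x := by
    have i1 := I1 (φ := fun x => u x ^ 2) (huc.pow 2)
    have i2 := I1 (φ := u) huc
    have i3 : Integrable w (volume : Measure (EuclideanSpace ℝ κ)) := by
      have := I1 (φ := fun _ => (1 : ℝ)) continuous_const
      simpa using this
    have i4 : Integrable (fun x => u x ^ 2 * w x - 2 * c * (u x * w x))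
      (volume : Measure (EuclideanSpace ℝ κ)) := i1.sub (i2.const_mul _)
    rw [← integral_const_mul, ← integral_const_mul, ← integral_sub i1 (i2.const_mul _),
      ← integral_add i4 (i3.const_mul _)]
    apply integral_congr_ae
    refine Filter.Eventually.of_forall fun x => ?_
    simp only
    ring
  rw [e1] at hc
  set Z := ∫ x, w x with hZ
  set A := ∫ x, u x ^ 2 * w x with hA
  set Bu := ∫ x, u x * w x with hBu
  set G := ∫ x, ‖fderiv ℝ u x‖ ^ 2 * w x with hG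
  have hZ0 : 0 ≤ Z := integral_nonneg hw0
  rcases hZ0.eq_or_lt with hZ1 | hZ1
  · rw [← hZ1]
    simp
  · have h3 : A / Z - (Bu / Z) ^ 2 = (A * Z - Bu ^ 2) / Z ^ 2 := by
      field_simp
    have h4 : h * (G / Z) = (h * G * Z) / Z ^ 2 := by
      field_simp
    rw [h3, h4]
    apply div_le_div_of_nonneg_right _ (by positivity)
    have h5 := mul_le_mul_of_nonneg_right hc hZ1.le
    nlinarith [sq_nonneg (c * Z - Bu)]

end Pool.Agent.H888R2.KT
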