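import Pool.Agent.H888R2.KT.Defs
import Pool.Agent.H888R2.KT.N10
import Pool.Agent.H888R2.KT.N11
import Pool.Agent.H888R2.KT.N9
import Pool.Agent.H888R2.KC.A3
import Pool.Agent.H888R2.KC.A4
import Pool.Agent.H888R2.KC.A8
import Pool.Agent.H888R2.KC.L2
import Pool.Agent.H212R2.KLS.L1
import Pool.Agent.H212R2.KLS.A8

/-!
# KLS for tuples: the general local Poincare inequality (task N12)
-/

set_option autoImplicit false

namespace Pool.Agent.H888R2.KT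

open MeasureTheory Set Matrix Pool.Agent.H888R2.KC
open scoped ENNReal InnerProductSpace
open Pool.Agent.H212R2.KLS (mu Bdd ev gr ev_contDiff poly_approx)

namespace N12x

/-- from polynomials to functions of class `C¹` -/
theorem approx {κ : Type} [Fintype κ] {ρ : EuclideanSpace ℝ κ → ℝ} (hρ : LC ρ) (L : ℝ)
    (hP : ∀ p : MvPolynomial κ ℝ, ∃ c : ℝ, ∫ x, (ev p x - c) ^ 2 ∂(mu ρ) ≤
      L * ∫ x, ‖fderiv ℝ (ev p) x‖ ^ 2 ∂(mu ρ))
    (f : EuclideanSpace ℝ κ → ℝ) (hf : ContDiff ℝ 1 f) :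
    ∃ c : ℝ, ∫ x, (f x - c) ^ 2 ∂(mu ρ) ≤ L * ∫ x, ‖fderiv ℝ f x‖ ^ 2 ∂(mu ρ) := by
  have hμ := hρ.ne
  have hfin' : IsFiniteMeasure (mu ρ) := ⟨lt_top_iff_ne_top.2 hρ.fin⟩
  obtain ⟨R, hR⟩ := hρ.bdd
  have hball0 : (mu ρ) (Metric.closedBall 0 R)ᶜ = 0 := by
    rw [mu, withDensity_apply_eq_zero' (hρ.meas.ennreal_ofReal.aemeasurable)]
    refine measure_mono_null ?_ (measure_empty (μ := (volume : Measure (EuclideanSpace ℝ κ))))
    intro x hx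
    refine hx.1 ?_
    have h2 : R < ‖x‖ := by
      have := hx.2
      rw [mem_compl_iff, mem_closedBall_zero_iff, not_le] at this
      exact this
    simp [hR x h2]
  have hball : ∃ R, (mu ρ) (Metric.closedBall 0 R)ᶜ = 0 := ⟨R, hball0⟩
  set M := ((mu ρ) univ).toReal with hM
  have hM0 : 0 < M := by
    refine ENNReal.toReal_pos ?_ (measure_ne_top _ _)
    rwa [Ne, Measure.measure_univ_eq_zero]
  -- polynomial approximation
  have happ : ∀ k : ℕ, ∃ p : MvPolynomial κ ℝ, ∀ x : EuclideanSpace ℝ κ, ‖x‖ ≤ R →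
      |ev p x - f x| ≤ 1 / ((k : ℝ) + 1) ∧
      ‖fderiv ℝ (ev p) x - fderiv ℝ f x‖ ≤ 1 / ((k : ℝ) + 1) := fun k =>
    poly_approx f hf R _ (by positivity)
  choose p hp using happ
  have hae : ∀ᵐ x ∂(mu ρ), ‖x‖ ≤ R := by
    have : Metric.closedBall (0 : EuclideanSpace ℝ κ) R ∈ ae (mu ρ) := mem_ae_iff.2 hball0
    filter_upwards [this] with x hx using by simpa using hx
  have hcont : ∀ q : MvPolynomial κ ℝ, Continuous (ev q) := fun q =>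
    (ev_contDiff q 0).continuous
  have hI : ∀ g : EuclideanSpace ℝ κ → ℝ, Continuous g → Integrable g (mu ρ) := fun g hg =>
    KC.L2x.intg (mu ρ) hball g hg
  have hfc : Continuous f := hf.continuous
  have hdc : Continuous (fun x => ‖fderiv ℝ f x‖) := (hf.continuous_fderiv (by norm_num)).norm
  have hlim : Filter.Tendsto (fun k : ℕ => 1 / ((k : ℝ) + 1)) Filter.atTop (nhds 0) :=
    tendsto_one_div_add_atTop_nhds_zero_nat
  have hk1 : ∀ k : ℕ, 1 / ((k : ℝ) + 1) ≤ 1 := fun k => by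
    rw [div_le_one (by positivity)]; linarith [Nat.cast_nonneg (α := ℝ) k]
  have hval : ∀ x : EuclideanSpace ℝ κ, ‖x‖ ≤ R → Filter.Tendsto (fun k => ev (p k) x) Filter.atTop
      (nhds (f x)) := by
    intro x hx
    rw [tendsto_iff_norm_sub_tendsto_zero]
    refine squeeze_zero (fun k => norm_nonneg _) (fun k => ?_) hlim
    rw [Real.norm_eq_abs]
    exact (hp k x hx).1
  have hder : ∀ x : EuclideanSpace ℝ κ, ‖x‖ ≤ R → Filter.Tendsto (fun k => fderiv ℝ (ev (p k)) x)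
      Filter.atTop (nhds (fderiv ℝ f x)) := by
    intro x hx
    rw [tendsto_iff_norm_sub_tendsto_zero]
    exact squeeze_zero (fun k => norm_nonneg _) (fun k => (hp k x hx).2) hlim
  have hvb : ∀ x : EuclideanSpace ℝ κ, ‖x‖ ≤ R → ∀ k, |ev (p k) x| ≤ |f x| + 1 := by
    intro x hx k
    have h1 := (hp k x hx).1
    have h2 := hk1 k
    have h3 : |ev (p k) x| ≤ |ev (p k) x - f x| + |f x| := by
      simpa using abs_add_le (ev (p k) x - f x) (f x)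
    linarith
  have hdb : ∀ x : EuclideanSpace ℝ κ, ‖x‖ ≤ R → ∀ k,
      ‖fderiv ℝ (ev (p k)) x‖ ≤ ‖fderiv ℝ f x‖ + 1 := by
    intro x hx k
    have h1 := (hp k x hx).2
    have h2 := hk1 k
    have h3 : ‖fderiv ℝ (ev (p k)) x‖ ≤ ‖fderiv ℝ (ev (p k)) x - fderiv ℝ f x‖ +
        ‖fderiv ℝ f x‖ := by
      simpa using norm_add_le (fderiv ℝ (ev (p k)) x - fderiv ℝ f x) (fderiv ℝ f x)
    linarith
  have t1 : Filter.Tendsto (fun k => ∫ x, ev (p k) x ∂(mu ρ)) Filter.atTop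
      (nhds (∫ x, f x ∂(mu ρ))) := by
    refine tendsto_integral_of_dominated_convergence (fun x => |f x| + 1)
      (fun k => (hcont _).aestronglyMeasurable) (hI _ (by fun_prop)) (fun k => ?_) ?_
    · filter_upwards [hae] with x hx
      rw [Real.norm_eq_abs]
      exact hvb x hx k
    · filter_upwards [hae] with x hx using hval x hx
  have t2 : Filter.Tendsto (fun k => ∫ x, ev (p k) x ^ 2 ∂(mu ρ)) Filter.atTop
      (nhds (∫ x, f x ^ 2 ∂(mu ρ))) := by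
    refine tendsto_integral_of_dominated_convergence (fun x => (|f x| + 1) ^ 2)
      (fun k => ((hcont _).pow 2).aestronglyMeasurable) (hI _ (by fun_prop)) (fun k => ?_) ?_
    · filter_upwards [hae] with x hx
      rw [Real.norm_eq_abs, abs_pow]
      exact pow_le_pow_left₀ (abs_nonneg _) (hvb x hx k) 2
    · filter_upwards [hae] with x hx using (hval x hx).pow 2
  have t3 : Filter.Tendsto (fun k => ∫ x, ‖fderiv ℝ (ev (p k)) x‖ ^ 2 ∂(mu ρ)) Filter.atTop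
      (nhds (∫ x, ‖fderiv ℝ f x‖ ^ 2 ∂(mu ρ))) := by
    refine tendsto_integral_of_dominated_convergence (fun x => (‖fderiv ℝ f x‖ + 1) ^ 2)
      (fun k => ((((ev_contDiff (p k) 1).continuous_fderiv
        (by norm_num)).norm).pow 2).aestronglyMeasurable) (hI _ (by fun_prop)) (fun k => ?_) ?_
    · filter_upwards [hae] with x hx
      rw [Real.norm_eq_abs, abs_pow, abs_norm]
      exact pow_le_pow_left₀ (norm_nonneg _) (hdb x hx k) 2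
    · filter_upwards [hae] with x hx using ((hder x hx).norm).pow 2
  have hk : ∀ k, ∫ x, ev (p k) x ^ 2 ∂(mu ρ) - (∫ x, ev (p k) x ∂(mu ρ)) ^ 2 / M ≤
      L * ∫ x, ‖fderiv ℝ (ev (p k)) x‖ ^ 2 ∂(mu ρ) := by
    intro k
    obtain ⟨c, hc⟩ := hP (p k)
    rw [KC.L2x.var_le (mu ρ) hμ hball (ev (p k)) (hcont _) c] at hc
    have : 0 ≤ M * (c - (∫ x, ev (p k) x ∂(mu ρ)) / M) ^ 2 := by positivity
    linarith
  have hfin2 : ∫ x, f x ^ 2 ∂(mu ρ) - (∫ x, f x ∂(mu ρ)) ^ 2 / M ≤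
      L * ∫ x, ‖fderiv ℝ f x‖ ^ 2 ∂(mu ρ) :=
    le_of_tendsto_of_tendsto' (t2.sub ((t1.pow 2).div_const M)) (t3.const_mul L) hk
  refine ⟨(∫ x, f x ∂(mu ρ)) / M, ?_⟩
  rw [KC.L2x.var_le (mu ρ) hμ hball f hfc, ← hM]
  have hz : M * ((∫ x, f x ∂(mu ρ)) / M - (∫ x, f x ∂(mu ρ)) / M) ^ 2 = 0 := by ring
  linarith

theorem hs_nonneg {κ : Type} [Fintype κ] (v : EuclideanSpace ℝ κ → ℝ) (x : EuclideanSpace ℝ κ) :
    0 ≤ hs v x := by
  unfold hs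
  exact Finset.sum_nonneg fun i _ => by positivity

theorem ae_ne {κ : Type} [Fintype κ] (ρ : EuclideanSpace ℝ κ → ℝ) (hm : Measurable ρ) :
    ∀ᵐ x ∂(mu ρ), ρ x ≠ 0 := by
  unfold mu
  rw [ae_withDensity_iff hm.ennreal_ofReal]
  refine Filter.Eventually.of_forall fun x hx h => hx ?_
  rw [h, ENNReal.ofReal_zero]

end N12x

section channel

variable {κ : Type} [Fintype κ] {ρ : EuclideanSpace ℝ κ → ℝ}

theorem gen_local {κ' : Type} [Fintype κ']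
    (A : κ' → (EuclideanSpace ℝ κ →ₗ[ℝ] EuclideanSpace ℝ κ))
    (hA : ∀ k x y, ⟪A k x, y⟫_ℝ = - ⟪x, A k y⟫_ℝ)
    (c : κ' → κ' → κ' → ℝ) (hc1 : ∀ i j k, c j i k = - c i j k) (hc2 : ∀ i j k, c i k j = - c i j k)
    (hcomm : ∀ i j x, A i (A j x) - A j (A i x) = ∑ k, c i j k • A k x) (κ0 : ℝ) (hκ : 0 < κ0)
    (hkil : ∀ k x, ∑ l, (∑ i, ∑ j, c i j k * c i j l) • A l x = κ0 • A k x)
    {q : ℕ} (e : Fin q → EuclideanSpace ℝ κ) (he : Orthonormal ℝ e)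
    (cV : ℝ) (hcV : 0 < cV) (hcas : ∀ w, cV * (‖w‖ ^ 2 - ∑ j, ⟪e j, w⟫_ℝ ^ 2) ≤ ∑ k, ‖A k w‖ ^ 2)
    (hρ : LC ρ) (K : ℝ) (hK : 0 < K) (hT : St e K ρ) (L : ℝ) (hL0 : 0 ≤ L)
    (hL : ∀ x, ρ x ≠ 0 → ∀ w, ∑ k, ⟪w, A k x⟫_ℝ ^ 2 ≤ L * ‖w‖ ^ 2)
    (G : Set (EuclideanSpace ℝ κ ≃ₗᵢ[ℝ] EuclideanSpace ℝ κ)) (hG : ∀ g ∈ G, ∀ x, ρ (g x) = ρ x)
    (hG1 : ∀ v : EuclideanSpace ℝ κ → ℝ, ContDiff ℝ 1 v → (∀ g ∈ G, ∀ x, v (g x) = v x) →
      ∀ k x, fderiv ℝ v x (A k x) = 0)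
    (hG2 : ∀ p : MvPolynomial κ ℝ, (∀ k, dl (A k) p = 0) → ∀ g ∈ G, ∀ x, ev p (g x) = ev p x)
    (hint : ∀ k p, ∫ x, ev (dl (A k) p) x ∂(mu ρ) = 0)
    (f : EuclideanSpace ℝ κ → ℝ) (hf : ContDiff ℝ 1 f) :
    ∃ c : ℝ, ∫ x, (f x - c) ^ 2 ∂(mu ρ) ≤
      (4 * L / κ0 + 4 * max K (L / cV)) * ∫ x, ‖fderiv ℝ f x‖ ^ 2 ∂(mu ρ) := by
  have hfin' : IsFiniteMeasure (mu ρ) := ⟨lt_top_iff_ne_top.2 hρ.fin⟩
  have hball := KC.A8x.ball_null ρ hρ.bdd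
  have hcont : ∀ q : MvPolynomial κ ℝ, Continuous (ev q) := fun q =>
    (ev_contDiff q 0).continuous
  have hI : ∀ g : EuclideanSpace ℝ κ → ℝ, Continuous g → Integrable g (mu ρ) := fun g hg =>
    KC.L2x.intg (mu ρ) hball g hg
  refine N12x.approx hρ _ (fun p => ?_) f hf
  obtain ⟨p0, h0, h1, h2, h3, h4⟩ := angular_gen A hA c hc1 hc2 hcomm κ0 hκ hkil
    (mu ρ) hball hint
    (fun q hq => ev_pos ρ hρ.nonneg hρ.meas hρ.logc hρ.bdd hρ.ne q hq) p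
  have hgr : ∀ q : MvPolynomial κ ℝ, (fun x => ‖fderiv ℝ (ev q) x‖ ^ 2) =
      fun x => ev (gr q q) x := by
    intro q
    funext x
    rw [Pool.Agent.H212R2.KLS.ev_gr]
  have h4' : ∫ x, ‖fderiv ℝ (ev p0) x‖ ^ 2 ∂(mu ρ) ≤ ∫ x, ‖fderiv ℝ (ev p) x‖ ^ 2 ∂(mu ρ) := by
    rw [hgr p, hgr p0]
    exact h4
  have hJi : Integrable (fun x => ‖fderiv ℝ (ev p) x‖ ^ 2) (mu ρ) := by
    rw [hgr]
    exact hI _ (hcont _)
  have hki : ∀ k, Integrable (fun x => (ev (dl (A k) p) x) ^ 2) (mu ρ) :=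
    fun k => hI _ ((hcont _).pow 2)
  have hsum : ∑ k, ∫ x, (ev (dl (A k) p) x) ^ 2 ∂(mu ρ) ≤
      L * ∫ x, ‖fderiv ℝ (ev p) x‖ ^ 2 ∂(mu ρ) := by
    rw [← integral_finsetSum _ (fun k _ => hki k), ← integral_const_mul]
    refine integral_mono_ae (integrable_finsetSum _ fun k _ => hki k) (hJi.const_mul _) ?_
    filter_upwards [N12x.ae_ne ρ hρ.meas] with x hx
    obtain ⟨g, hg⟩ : ∃ g : EuclideanSpace ℝ κ, g =
      (InnerProductSpace.toDual ℝ (EuclideanSpace ℝ κ)).symm (fderiv ℝ (ev p) x) := ⟨_, rfl⟩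
    have hg1 : ∀ y, fderiv ℝ (ev p) x y = ⟪g, y⟫_ℝ := by
      intro y
      rw [hg, InnerProductSpace.toDual_symm_apply]
    have hg2 : ‖fderiv ℝ (ev p) x‖ = ‖g‖ := by
      rw [hg, LinearIsometryEquiv.norm_map]
    rw [hg2]
    refine le_trans (le_of_eq (Finset.sum_congr rfl fun k _ => ?_)) (hL x hx g)
    rw [ev_dl, hg1]
  -- the invariant part
  have hΘ : K ≤ max K (L / cV) := le_max_left _ _
  have hΘ0 : 0 < max K (L / cV) := lt_of_lt_of_le hK hΘ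
  obtain ⟨c1, hc1'⟩ := iter hρ e he K hK hT (max K (L / cV)) hΘ
    {v | ∀ g ∈ G, ∀ x, v (g x) = v x}
    (fun u hu _ g hg x => equiv hρ _ g (hG g hg) u (hu g hg) x)
    (by
      intro v hv hv2 x hx
      have hv1 : ContDiff ℝ 1 v := hv2.of_le (by norm_num)
      have k1 := inv_hess A hA e cV hcas v hv2 (hG1 v hv1 hv) x L (hL x hx)
      have k2 := N12x.hs_nonneg v x
      have k3 : ‖fderiv ℝ v x‖ ^ 2 - ∑ j, (fderiv ℝ v x (e j)) ^ 2 ≤ L / cV * hs v x := by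
        rw [div_mul_eq_mul_div, le_div_iff₀ hcV]
        linarith
      exact k3.trans (mul_le_mul_of_nonneg_right (le_max_right _ _) k2))
    (ev p0) (hG2 p0 h0) (ev_contDiff p0 1)
  refine ⟨c1, ?_⟩
  have hp := hcont p
  have hp0 := hcont p0
  have e1 : ∫ x, (ev p x - c1) ^ 2 ∂(mu ρ) =
      ∫ x, (ev p0 x - c1) ^ 2 ∂(mu ρ) + ∫ x, (ev p x - ev p0 x) ^ 2 ∂(mu ρ) := by
    have : ∫ x, (ev p x - c1) ^ 2 ∂(mu ρ) = ∫ x, (((ev p0 x - c1) ^ 2 +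
        (ev p x - ev p0 x) ^ 2) + (2 * (ev p0 x * (ev p x - ev p0 x)) -
        (2 * c1) * (ev p x - ev p0 x))) ∂(mu ρ) := by
      congr 1
      ext x
      ring
    rw [this, integral_add (hI _ (by fun_prop)) (hI _ (by fun_prop)),
      integral_add (hI _ (by fun_prop)) (hI _ (by fun_prop)),
      integral_sub (hI _ (by fun_prop)) (hI _ (by fun_prop)), integral_const_mul,
      integral_const_mul, h1, h2]
    ring
  have hG0 : 0 ≤ ∫ x, ‖fderiv ℝ (ev p) x‖ ^ 2 ∂(mu ρ) := integral_nonneg fun x => by positivity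
  have h5 := h3.trans hsum
  have e4 : ∫ x, (ev p0 x - c1) ^ 2 ∂(mu ρ) ≤
      (4 * max K (L / cV)) * ∫ x, ‖fderiv ℝ (ev p) x‖ ^ 2 ∂(mu ρ) :=
    hc1'.trans (mul_le_mul_of_nonneg_left h4' (by positivity))
  have e5 : ∫ x, (ev p x - ev p0 x) ^ 2 ∂(mu ρ) ≤
      (4 * L / κ0) * ∫ x, ‖fderiv ℝ (ev p) x‖ ^ 2 ∂(mu ρ) := by
    rw [div_mul_eq_mul_div, le_div_iff₀ hκ]
    linarith
  rw [e1]
  linarith

end channel

end Pool.Agent.H888R2.KT
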