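import Pool.Agent.H888R2.KT.Defs
import Pool.Agent.H888R2.KC.F2
import Pool.Agent.H888R2.KC.R2
import Pool.Agent.H212R2.KLS.T1

/-!
# Task T1: the marginal of a component
-/

set_option autoImplicit false

namespace Pool.Agent.H888R2.KT

open MeasureTheory Set Matrix Pool.Agent.H888R2.KC
open scoped ENNReal InnerProductSpace
open Pool.Agent.H212R2.KLS (mu Bdd ev gr)

namespace T1x

section

variable {q : ℕ} {ι : Type}

/-- the other components -/
abbrev Ot (j : Fin q) : Type := {k : Fin q // k ≠ j}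

/-- the index equivalence -/
def sg (j : Fin q) : ι ⊕ (Ot j × ι) ≃ Fin q × ι where
  toFun s := Sum.elim (fun i => (j, i)) (fun p => (p.1.1, p.2)) s
  invFun p := if h : p.1 = j then Sum.inl p.2 else Sum.inr (⟨p.1, h⟩, p.2)
  left_inv s := by
    rcases s with i | ⟨k, i⟩
    · simp
    · have := k.2
      simp [this]
  right_inv p := by
    by_cases h : p.1 = j
    · obtain ⟨a, b⟩ := p
      simp only at h
      subst h
      simp
    · simp [h]

variable [Fintype ι]

/-- the splitting map -/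
noncomputable def mg (j : Fin q) (z : EuclideanSpace ℝ ι × EuclideanSpace ℝ (Ot j × ι)) :
    EuclideanSpace ℝ (Fin q × ι) :=
  WithLp.toLp 2 fun p => if h : p.1 = j then z.1 p.2 else z.2 (⟨p.1, h⟩, p.2)

theorem mg_j (j : Fin q) (z : EuclideanSpace ℝ ι × EuclideanSpace ℝ (Ot j × ι)) (i : ι) :
    mg j z (j, i) = z.1 i := by
  simp [mg]

theorem mg_o (j : Fin q) (z : EuclideanSpace ℝ ι × EuclideanSpace ℝ (Ot j × ι)) (k : Ot j) (i : ι) :
    mg j z (k.1, i) = z.2 (k, i) := by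
  have := k.2
  simp [mg, this]

theorem mg_mp (j : Fin q) : MeasurePreserving (mg (ι := ι) j)
    ((volume : Measure (EuclideanSpace ℝ ι)).prod
      (volume : Measure (EuclideanSpace ℝ (Ot j × ι)))) volume := by
  have h1 : MeasurePreserving (fun z : EuclideanSpace ℝ ι × EuclideanSpace ℝ (Ot j × ι) =>
      ((z.1.ofLp, z.2.ofLp) : (ι → ℝ) × (Ot j × ι → ℝ)))
      ((volume : Measure (EuclideanSpace ℝ ι)).prod
        (volume : Measure (EuclideanSpace ℝ (Ot j × ι))))
      ((volume : Measure (ι → ℝ)).prod (volume : Measure (Ot j × ι → ℝ))) :=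
    (PiLp.volume_preserving_ofLp ι).prod (PiLp.volume_preserving_ofLp _)
  have h2 := volume_measurePreserving_sumPiEquivProdPi_symm (fun _ : ι ⊕ (Ot j × ι) => ℝ)
  have h3 := volume_measurePreserving_piCongrLeft (fun _ : Fin q × ι => ℝ) (sg (ι := ι) j)
  have h4 := PiLp.volume_preserving_toLp (Fin q × ι)
  have h5 := h4.comp (h3.comp (h2.comp h1))
  have h6 : mg (ι := ι) j = (@WithLp.toLp 2 (Fin q × ι → ℝ)) ∘
      ((MeasurableEquiv.piCongrLeft (fun _ : Fin q × ι => ℝ) (sg (ι := ι) j)) ∘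
      ((MeasurableEquiv.sumPiEquivProdPi (fun _ : ι ⊕ (Ot j × ι) => ℝ)).symm ∘
      fun z : EuclideanSpace ℝ ι × EuclideanSpace ℝ (Ot j × ι) =>
      ((z.1.ofLp, z.2.ofLp) : (ι → ℝ) × (Ot j × ι → ℝ)))) := by
    funext z
    ext p
    obtain ⟨s, rfl⟩ := (sg (ι := ι) j).surjective p
    simp only [Function.comp_apply, MeasurableEquiv.coe_piCongrLeft,
      Equiv.piCongrLeft_apply_apply, MeasurableEquiv.coe_sumPiEquivProdPi_symm]
    rcases s with i | ⟨k, i⟩
    · exact mg_j j z i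
    · exact mg_o j z k i
  rw [h6]
  exact h5

theorem norm_mg (j : Fin q) (z : EuclideanSpace ℝ ι × EuclideanSpace ℝ (Ot j × ι)) :
    ‖mg j z‖ ^ 2 = ‖z.1‖ ^ 2 + ‖z.2‖ ^ 2 := by
  rw [EuclideanSpace.norm_sq_eq, EuclideanSpace.norm_sq_eq, EuclideanSpace.norm_sq_eq,
    ← Equiv.sum_comp (sg (ι := ι) j), Fintype.sum_sum_type]
  congr 1
  · refine Finset.sum_congr rfl fun i _ => ?_
    have : mg j z (sg j (Sum.inl i)) = z.1 i := mg_j j z i
    rw [this]
  · refine Finset.sum_congr rfl fun p _ => ?_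
    have : mg j z (sg j (Sum.inr p)) = z.2 p := mg_o j z p.1 p.2
    rw [this]

theorem le_norm_mg (j : Fin q) (x : EuclideanSpace ℝ ι) (y : EuclideanSpace ℝ (Ot j × ι)) :
    ‖x‖ ≤ ‖mg j (x, y)‖ := by
  have h := norm_mg j (x, y)
  simp only at h
  exact le_of_sq_le_sq (by nlinarith [sq_nonneg ‖y‖]) (norm_nonneg _)

theorem le_norm_mg' (j : Fin q) (x : EuclideanSpace ℝ ι) (y : EuclideanSpace ℝ (Ot j × ι)) :
    ‖y‖ ≤ ‖mg j (x, y)‖ := by
  have h := norm_mg j (x, y)
  simp only at h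
  exact le_of_sq_le_sq (by nlinarith [sq_nonneg ‖x‖]) (norm_nonneg _)

theorem cp_mg (j : Fin q) (x : EuclideanSpace ℝ ι) (y : EuclideanSpace ℝ (Ot j × ι)) :
    cp j (mg j (x, y)) = x := by
  ext i
  exact mg_j j (x, y) i

theorem mg_lin (j : Fin q) (a b : ℝ) (x x' : EuclideanSpace ℝ ι)
    (y y' : EuclideanSpace ℝ (Ot j × ι)) :
    mg j (a • x + b • x', a • y + b • y') = a • mg j (x, y) + b • mg j (x', y') := by
  ext p
  obtain ⟨k, i⟩ := p
  by_cases h : k = j
  · subst h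
    simp [mg]
  · simp [mg, h]

/-- a linear map acting on all other components -/
noncomputable def LL (j : Fin q) (A : EuclideanSpace ℝ ι →ₗ[ℝ] EuclideanSpace ℝ ι) :
    EuclideanSpace ℝ (Ot j × ι) →ₗ[ℝ] EuclideanSpace ℝ (Ot j × ι) where
  toFun y := WithLp.toLp 2 fun p => A (WithLp.toLp 2 fun i => y (p.1, i)) p.2
  map_add' x y := by
    ext p
    have : (WithLp.toLp 2 fun i => (x + y) (p.1, i) : EuclideanSpace ℝ ι) =
        (WithLp.toLp 2 fun i => x (p.1, i)) + WithLp.toLp 2 fun i => y (p.1, i) := by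
      ext i; rfl
    simp only [PiLp.add_apply] at this ⊢
    rw [this, map_add]
    rfl
  map_smul' c x := by
    ext p
    have : (WithLp.toLp 2 fun i => (c • x) (p.1, i) : EuclideanSpace ℝ ι) =
        c • (WithLp.toLp 2 fun i => x (p.1, i)) := by
      ext i; rfl
    simp only [PiLp.smul_apply, RingHom.id_apply] at this ⊢
    rw [this, map_smul]
    rfl

theorem di_mg (j : Fin q) (A : EuclideanSpace ℝ ι →ₗ[ℝ] EuclideanSpace ℝ ι)
    (x : EuclideanSpace ℝ ι) (y : EuclideanSpace ℝ (Ot j × ι)) :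
    di q A (mg j (x, y)) = mg j (A x, LL j A y) := by
  ext p
  obtain ⟨k, i⟩ := p
  by_cases h : k = j
  · subst h
    rw [mg_j]
    change A (cp k (mg k (x, y))) i = A x i
    rw [cp_mg]
  · rw [show mg j (A x, LL j A y) (k, i) = (LL j A y) (⟨k, h⟩, i) from
      mg_o j (A x, LL j A y) ⟨k, h⟩ i]
    change A (cp k (mg j (x, y))) i = A (WithLp.toLp 2 fun i => y (⟨k, h⟩, i)) i
    have h2 : cp k (mg j (x, y)) = WithLp.toLp 2 fun i => y (⟨k, h⟩, i) := by
      ext i'
      exact mg_o j (x, y) ⟨k, h⟩ i'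
    rw [h2]

theorem norm_LL (j : Fin q) (A : EuclideanSpace ℝ ι →ₗ[ℝ] EuclideanSpace ℝ ι)
    (hA : ∀ x, ‖A x‖ = ‖x‖) (y : EuclideanSpace ℝ (Ot j × ι)) : ‖LL j A y‖ = ‖y‖ := by
  have h : ‖LL j A y‖ ^ 2 = ‖y‖ ^ 2 := by
    rw [EuclideanSpace.norm_sq_eq, EuclideanSpace.norm_sq_eq, Fintype.sum_prod_type,
      Fintype.sum_prod_type]
    refine Finset.sum_congr rfl fun k _ => ?_
    have h1 := hA (WithLp.toLp 2 fun i => y (k, i))
    have h2 : ‖A (WithLp.toLp 2 fun i => y (k, i))‖ ^ 2 =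
        ‖(WithLp.toLp 2 fun i => y (k, i) : EuclideanSpace ℝ ι)‖ ^ 2 := by rw [h1]
    rw [EuclideanSpace.norm_sq_eq, EuclideanSpace.norm_sq_eq] at h2
    exact h2
  exact (sq_eq_sq₀ (norm_nonneg _) (norm_nonneg _)).1 h

theorem mp_of_norm {κ : Type} [Fintype κ] (A : EuclideanSpace ℝ κ →ₗ[ℝ] EuclideanSpace ℝ κ)
    (hA : ∀ x, ‖A x‖ = ‖x‖) :
    MeasurePreserving A (volume : Measure (EuclideanSpace ℝ κ)) volume := by
  let B : EuclideanSpace ℝ κ →ₗᵢ[ℝ] EuclideanSpace ℝ κ := ⟨A, hA⟩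
  let C := B.toLinearIsometryEquiv rfl
  exact C.measurePreserving

/-- the marginal density (extended) -/
noncomputable def me (j : Fin q) (ρ : EuclideanSpace ℝ (Fin q × ι) → ℝ) (x : EuclideanSpace ℝ ι) :
    ℝ≥0∞ := ∫⁻ y : EuclideanSpace ℝ (Ot j × ι), ENNReal.ofReal (ρ (mg j (x, y)))

theorem me_meas (j : Fin q) (ρ : EuclideanSpace ℝ (Fin q × ι) → ℝ) (hm : Measurable ρ) :
    Measurable (me j ρ) := by
  have h : Measurable fun z : EuclideanSpace ℝ ι × EuclideanSpace ℝ (Ot j × ι) =>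
      ENNReal.ofReal (ρ (mg j z)) := (hm.comp (mg_mp j).measurable).ennreal_ofReal
  exact h.lintegral_prod_right'

theorem me_lt (j : Fin q) (ρ : EuclideanSpace ℝ (Fin q × ι) → ℝ) (hb : Bdd ρ) (B : ℝ)
    (hB : ∀ x, ρ x ≤ B) (x : EuclideanSpace ℝ ι) : me j ρ x < ⊤ := by
  obtain ⟨R, hR⟩ := hb
  have h1 : me j ρ x ≤ ∫⁻ _y in Metric.closedBall (0 : EuclideanSpace ℝ (Ot j × ι)) R,
      ENNReal.ofReal B := by
    rw [← lintegral_indicator Metric.isClosed_closedBall.measurableSet]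
    refine lintegral_mono fun y => ?_
    by_cases hy : y ∈ Metric.closedBall (0 : EuclideanSpace ℝ (Ot j × ι)) R
    · rw [indicator_of_mem hy]
      exact ENNReal.ofReal_le_ofReal (hB _)
    · have : R < ‖mg j (x, y)‖ := by
        refine lt_of_lt_of_le ?_ (le_norm_mg' j x y)
        simpa [Metric.mem_closedBall, dist_zero_right] using hy
      rw [hR _ this]
      simp
  refine lt_of_le_of_lt h1 ?_
  rw [setLIntegral_const]
  exact ENNReal.mul_lt_top ENNReal.ofReal_lt_top measure_closedBall_lt_top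

end

end T1x

open T1x in
/-- T1: the marginals -/
theorem marginal {𝕜 : Type} [RCLike 𝕜] {N q : ℕ} {ι : Type} [Fintype ι]
    {Φ : EuclideanSpace ℝ ι →ₗ[ℝ] Matrix (Fin N) (Fin N) 𝕜}
    (h : Fr Φ) (ρ : EuclideanSpace ℝ (Fin q × ι) → ℝ) (hρ : DT Φ ρ) (hb : Bdd ρ)
    (h1 : mu ρ univ = 1) (j : Fin q) :
    ∃ ρ' : EuclideanSpace ℝ ι → ℝ, Dn Φ ρ' ∧ Bdd ρ' ∧ (mu ρ).map (cp j) = mu ρ' := by
  obtain ⟨B, hB⟩ := bdd_of_finite ρ hρ.nonneg hρ.meas hρ.logc (by rw [h1]; exact ENNReal.one_ne_top)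
    (by
      intro h0
      rw [h0] at h1
      simp at h1)
  have hfin := me_lt j ρ hb B hB
  have hmeas := me_meas j ρ hρ.meas
  refine ⟨fun x => (me j ρ x).toReal, ⟨fun x => ENNReal.toReal_nonneg, hmeas.ennreal_toReal,
    ?_, ?_⟩, ?_, ?_⟩
  · intro x y t ht0 ht1
    have t1 : 0 < 1 - t := by linarith
    have hsec : ∀ x : EuclideanSpace ℝ ι, Measurable fun u : EuclideanSpace ℝ (Ot j × ι) =>
        ENNReal.ofReal (ρ (mg j (x, u))) := fun x =>
      (hρ.meas.comp ((mg_mp j).measurable.comp measurable_prodMk_left)).ennreal_ofReal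
    have key := Pool.Agent.H212R2.KLS.PL (volume : Measure (EuclideanSpace ℝ (Ot j × ι))) t ht0 ht1
      (fun u => ENNReal.ofReal (ρ (mg j (x, u)))) (fun u => ENNReal.ofReal (ρ (mg j (y, u))))
      (fun u => ENNReal.ofReal (ρ (mg j ((1 - t) • x + t • y, u)))) (hsec _) (hsec _) (hsec _) (by
        intro u v
        rw [ENNReal.ofReal_rpow_of_nonneg (hρ.nonneg _) t1.le,
          ENNReal.ofReal_rpow_of_nonneg (hρ.nonneg _) ht0.le,
          ← ENNReal.ofReal_mul (Real.rpow_nonneg (hρ.nonneg _) _), mg_lin]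
        exact ENNReal.ofReal_le_ofReal (hρ.logc _ _ t ht0 ht1))
    change (me j ρ x).toReal ^ (1 - t) * (me j ρ y).toReal ^ t ≤
      (me j ρ ((1 - t) • x + t • y)).toReal
    rw [ENNReal.toReal_rpow, ENNReal.toReal_rpow, ← ENNReal.toReal_mul]
    exact ENNReal.toReal_mono (hfin _).ne key
  · intro U hU x
    have hn := norm_cj h U hU
    have h2 := mp_of_norm (LL j (cj Φ U)) (norm_LL j _ hn)
    have h3 : me j ρ (cj Φ U x) = me j ρ x := by
      unfold me
      have hsec : Measurable fun u : EuclideanSpace ℝ (Ot j × ι) =>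
          ENNReal.ofReal (ρ (mg j (cj Φ U x, u))) :=
        (hρ.meas.comp ((mg_mp j).measurable.comp measurable_prodMk_left)).ennreal_ofReal
      rw [← h2.lintegral_comp hsec]
      refine lintegral_congr fun y => ?_
      rw [← di_mg, hρ.inv U hU]
    change (me j ρ (cj Φ U x)).toReal = (me j ρ x).toReal
    rw [h3]
  · obtain ⟨R, hR⟩ := hb
    refine ⟨R, fun x hx => ?_⟩
    have : me j ρ x = 0 := by
      unfold me
      have : ∀ y : EuclideanSpace ℝ (Ot j × ι), ENNReal.ofReal (ρ (mg j (x, y))) = 0 := by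
        intro y
        rw [hR _ (lt_of_lt_of_le hx (le_norm_mg j x y))]
        simp
      simp [this]
    change (me j ρ x).toReal = 0
    rw [this]
    simp
  · have hcp : Measurable (cp (ι := ι) j) :=
      (LinearMap.continuous_of_finiteDimensional _).measurable
    ext S hS
    rw [Measure.map_apply hcp hS, mu, mu, withDensity_apply _ (hcp hS), withDensity_apply _ hS,
      ← lintegral_indicator (hcp hS), ← lintegral_indicator hS]
    have hF : Measurable ((cp (ι := ι) j ⁻¹' S).indicator fun z => ENNReal.ofReal (ρ z)) :=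
      hρ.meas.ennreal_ofReal.indicator (hcp hS)
    have hG : AEMeasurable (fun z : EuclideanSpace ℝ ι × EuclideanSpace ℝ (Ot j × ι) =>
        (cp (ι := ι) j ⁻¹' S).indicator (fun z => ENNReal.ofReal (ρ z)) (mg j z))
        ((volume : Measure (EuclideanSpace ℝ ι)).prod
          (volume : Measure (EuclideanSpace ℝ (Ot j × ι)))) :=
      (hF.comp (mg_mp j).measurable).aemeasurable
    rw [← (mg_mp j).lintegral_comp hF, lintegral_prod _ hG]
    refine lintegral_congr fun x => ?_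
    by_cases hx : x ∈ S
    · rw [indicator_of_mem hx, ENNReal.ofReal_toReal (hfin x).ne]
      refine lintegral_congr fun y => ?_
      rw [indicator_of_mem]
      rw [mem_preimage, cp_mg]
      exact hx
    · rw [indicator_of_notMem hx]
      have : ∀ y : EuclideanSpace ℝ (Ot j × ι), (cp (ι := ι) j ⁻¹' S).indicator
          (fun z => ENNReal.ofReal (ρ z)) (mg j (x, y)) = 0 := by
        intro y
        rw [indicator_of_notMem]
        rw [mem_preimage, cp_mg]
        exact hx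
      simp [this]

end Pool.Agent.H888R2.KT
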