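import Pool.Agent.H888R2.KT.Defs
import Pool.Agent.H888R2.KC.F1
import Pool.Agent.H888R2.KC.F2
import Pool.Agent.H888R2.KC.F4
import Pool.Agent.H888R2.KC.F5

/-!
# C3: the Casimir bound
-/

set_option autoImplicit false

namespace Pool.Agent.H888R2.KT

open MeasureTheory Set Matrix Pool.Agent.H888R2.KC
open scoped ENNReal InnerProductSpace
open Pool.Agent.H212R2.KLS (mu Bdd ev gr)

variable {𝕜 : Type} [RCLike 𝕜] {N q : ℕ} {ι : Type} [Fintype ι]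
  {Φ : EuclideanSpace ℝ ι →ₗ[ℝ] Matrix (Fin N) (Fin N) 𝕜}

namespace C3x

theorem norm_cp (x : EuclideanSpace ℝ (Fin q × ι)) : ‖x‖ ^ 2 = ∑ j, ‖cp j x‖ ^ 2 := by
  rw [EuclideanSpace.real_norm_sq_eq, Fintype.sum_prod_type]
  refine Finset.sum_congr rfl fun j _ => ?_
  rw [EuclideanSpace.real_norm_sq_eq]
  rfl

theorem cp_di (A : EuclideanSpace ℝ ι →ₗ[ℝ] EuclideanSpace ℝ ι)
    (x : EuclideanSpace ℝ (Fin q × ι)) (j : Fin q) : cp j (di q A x) = A (cp j x) := by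
  ext i; rfl

theorem inner_inj (v : EuclideanSpace ℝ ι) (j : Fin q) (x : EuclideanSpace ℝ (Fin q × ι)) :
    ⟪inj v j, x⟫_ℝ = ⟪v, cp j x⟫_ℝ := by
  rw [PiLp.inner_apply, PiLp.inner_apply, Fintype.sum_prod_type, Finset.sum_eq_single j]
  · refine Finset.sum_congr rfl fun i _ => ?_
    simp [inj, cp]
  · intro k _ hk
    refine Finset.sum_eq_zero fun i _ => ?_
    simp [inj, hk]
  · simp

/-- real matrices: transpose and adjoint agree -/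
theorem trn (h0 : (RCLike.I : 𝕜) = 0) (W : Matrix (Fin N) (Fin N) 𝕜) (hW : Wᴴ = W) :
    Wᵀ = W := by
  conv_rhs => rw [← hW]
  ext i j
  rw [Matrix.transpose_apply, Matrix.conjTranspose_apply]
  have h1 : star (W j i) = (starRingEnd 𝕜) (W j i) := rfl
  rw [h1, RCLike.conj_eq_re_sub_im, h0, mul_zero, sub_zero]
  conv_lhs => rw [← RCLike.re_add_im (W j i), h0, mul_zero, add_zero]

/-- the sum of the double commutators -/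
theorem dbl (W : Matrix (Fin N) (Fin N) 𝕜) :
    ∑ k, (Km 𝕜 k * (Km 𝕜 k * W - W * Km 𝕜 k) - (Km 𝕜 k * W - W * Km 𝕜 k) * Km 𝕜 k) =
      (∑ k, Km 𝕜 k * 1 * Km 𝕜 k) * W + W * (∑ k, Km 𝕜 k * 1 * Km 𝕜 k) -
        (2 : ℝ) • ∑ k, Km 𝕜 k * W * Km 𝕜 k := by
  rw [Finset.sum_mul, Finset.mul_sum, Finset.smul_sum, ← Finset.sum_add_distrib,
    ← Finset.sum_sub_distrib]
  refine Finset.sum_congr rfl fun k _ => ?_
  rw [two_smul, Matrix.mul_sub, Matrix.sub_mul, Matrix.mul_one]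
  simp only [Matrix.mul_assoc]
  abel

theorem dbl2 (W : Matrix (Fin N) (Fin N) 𝕜) (hW : Wᴴ = W) : ∃ p : ℝ, 1 ≤ p ∧
    ∑ k, (Km 𝕜 k * (Km 𝕜 k * W - W * Km 𝕜 k) - (Km 𝕜 k * W - W * Km 𝕜 k) * Km 𝕜 k) =
      p • (W.trace • (1 : Matrix (Fin N) (Fin N) 𝕜) - (N : ℝ) • W) := by
  have e1 : ((1 / 2 : ℝ) : 𝕜) = 1 / 2 := by
    rw [RCLike.ofReal_div, RCLike.ofReal_one, RCLike.ofReal_ofNat]
  have e2 : ((2 : ℝ) : 𝕜) = 2 := by rw [RCLike.ofReal_ofNat]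
  have key : ∑ k, (Km 𝕜 k * (Km 𝕜 k * W - W * Km 𝕜 k) -
      (Km 𝕜 k * W - W * Km 𝕜 k) * Km 𝕜 k) =
      (1 + RCLike.I * RCLike.I : 𝕜) • (W - Wᵀ) -
      ((1 - RCLike.I * RCLike.I : 𝕜) * (N : 𝕜)) • W +
      ((1 - RCLike.I * RCLike.I : 𝕜) * W.trace) • (1 : Matrix (Fin N) (Fin N) 𝕜) := by
    rw [dbl, F5x.sum_KMK, F5x.sum_KMK, Matrix.transpose_one, Matrix.trace_one, Fintype.card_fin]
    rw [Matrix.smul_mul, Matrix.mul_smul, Matrix.sub_mul, Matrix.mul_sub, Matrix.smul_mul,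
      Matrix.smul_mul, Matrix.mul_smul, Matrix.mul_smul, Matrix.one_mul, Matrix.mul_one]
    ext p q
    simp only [Matrix.add_apply, Matrix.sub_apply, Matrix.smul_apply, smul_eq_mul,
      RCLike.real_smul_eq_coe_mul]
    rw [e1, e2]
    ring
  rcases (RCLike.I_mul_I (K := 𝕜)) with h0 | h1
  · refine ⟨1, le_refl _, ?_⟩
    rw [key, trn h0 W hW, h0]
    ext p q
    simp only [Matrix.add_apply, Matrix.sub_apply, Matrix.smul_apply, smul_eq_mul,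
      RCLike.real_smul_eq_coe_mul, RCLike.ofReal_natCast, RCLike.ofReal_one]
    ring
  · refine ⟨2, by norm_num, ?_⟩
    rw [key, h1]
    ext p q
    simp only [Matrix.add_apply, Matrix.sub_apply, Matrix.smul_apply, smul_eq_mul,
      RCLike.real_smul_eq_coe_mul, RCLike.ofReal_natCast, e2]
    ring

/-- one component -/
theorem cas1 (h : Fr Φ) (hN : 1 ≤ N) (w : EuclideanSpace ℝ ι) :
    (N : ℝ) * (‖w‖ ^ 2 - ⟪tv Φ, w⟫_ℝ ^ 2) ≤ ∑ k, ‖ad Φ (Km 𝕜 k) w‖ ^ 2 := by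
  have hW : (Φ w)ᴴ = Φ w := h.herm w
  have hN' : (0 : ℝ) < N := by exact_mod_cast hN
  obtain ⟨p, hp, hd⟩ := dbl2 (Φ w) hW
  have h1 : ∀ k, ‖ad Φ (Km 𝕜 k) w‖ ^ 2 = - ip (Φ w)
      (Km 𝕜 k * (Km 𝕜 k * Φ w - Φ w * Km 𝕜 k) - (Km 𝕜 k * Φ w - Φ w * Km 𝕜 k) * Km 𝕜 k) := by
    intro k
    rw [← real_inner_self_eq_norm_sq, ad_skew h _ (Km_skew k), inner_Phi h,
      Phi_ad h _ (Km_skew k), Phi_ad h _ (Km_skew k)]
  have h2 : ∑ k, ‖ad Φ (Km 𝕜 k) w‖ ^ 2 =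
      p * (N * ‖w‖ ^ 2 - ip (Φ w) ((Φ w).trace • (1 : Matrix (Fin N) (Fin N) 𝕜))) := by
    rw [Finset.sum_congr rfl fun k _ => h1 k, Finset.sum_neg_distrib, ← F4x.ip_sum, hd, ip_smul,
      F4x.ip_sub, ip_smul, ← inner_Phi h, real_inner_self_eq_norm_sq]
    ring
  obtain ⟨t, ht⟩ : ∃ t : ℝ, (Φ w).trace = (t : 𝕜) := by
    refine ⟨RCLike.re (Φ w).trace, ?_⟩
    refine (RCLike.conj_eq_iff_re.1 ?_).symm
    have : star (Φ w).trace = ((Φ w)ᴴ).trace := (Matrix.trace_conjTranspose _).symm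
    rw [hW] at this
    exact this
  have h3 : ip (Φ w) ((Φ w).trace • (1 : Matrix (Fin N) (Fin N) 𝕜)) = t ^ 2 := by
    rw [F2x.ip_tr, hW, Matrix.mul_smul, Matrix.mul_one, Matrix.trace_smul, ht, smul_eq_mul,
      ← RCLike.ofReal_mul, RCLike.ofReal_re, sq]
  have h4 : ⟪tv Φ, w⟫_ℝ = (Real.sqrt N)⁻¹ * t := by
    rw [tv, real_inner_smul_left, inner_ps, F2x.ip_tr, Matrix.conjTranspose_one, Matrix.one_mul,
      ht, RCLike.ofReal_re]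
  have h5 : (N : ℝ) * ⟪tv Φ, w⟫_ℝ ^ 2 = t ^ 2 := by
    rw [h4, mul_pow, inv_pow, Real.sq_sqrt hN'.le]
    field_simp
  have h6 : ⟪tv Φ, w⟫_ℝ ^ 2 ≤ ‖w‖ ^ 2 := by
    have h7 := abs_real_inner_le_norm (tv Φ) w
    rw [norm_tv h hN, one_mul] at h7
    rw [← sq_abs]
    exact pow_le_pow_left₀ (abs_nonneg _) h7 2
  rw [h2, h3, ← h5]
  have h8 : 0 ≤ (N : ℝ) * (‖w‖ ^ 2 - ⟪tv Φ, w⟫_ℝ ^ 2) := mul_nonneg hN'.le (by linarith)
  nlinarith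

end C3x

theorem casimir (h : Fr Φ) (hN : 1 ≤ N) (w : EuclideanSpace ℝ (Fin q × ι)) :
    (N : ℝ) * (‖w‖ ^ 2 - ∑ j, ⟪inj (tv Φ) j, w⟫_ℝ ^ 2) ≤
      ∑ k, ‖di q (ad Φ (Km 𝕜 k)) w‖ ^ 2 := by
  have h1 : ∀ k, ‖di q (ad Φ (Km 𝕜 k)) w‖ ^ 2 = ∑ j, ‖ad Φ (Km 𝕜 k) (cp j w)‖ ^ 2 := by
    intro k
    rw [C3x.norm_cp]
    exact Finset.sum_congr rfl fun j _ => by rw [C3x.cp_di]
  rw [Finset.sum_congr rfl fun k _ => h1 k, Finset.sum_comm, C3x.norm_cp w,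
    ← Finset.sum_sub_distrib, Finset.mul_sum]
  refine Finset.sum_le_sum fun j _ => ?_
  rw [C3x.inner_inj]
  exact C3x.cas1 h hN (cp j w)

end Pool.Agent.H888R2.KT
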