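import Pool.Agent.H888R2.KT.Defs
import Pool.Agent.H888R2.KC.F5
import Pool.Agent.H888R2.KC.F2

set_option autoImplicit false

namespace Pool.Agent.H888R2.KT

open MeasureTheory Set Matrix Pool.Agent.H888R2.KC
open scoped ENNReal InnerProductSpace

variable {𝕜 : Type} [RCLike 𝕜] {N q : ℕ} {ι : Type} [Fintype ι]
  {Φ : EuclideanSpace ℝ ι →ₗ[ℝ] Matrix (Fin N) (Fin N) 𝕜}

namespace C5x

theorem inner_cp (x y : EuclideanSpace ℝ (Fin q × ι)) :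
    ⟪x, y⟫_ℝ = ∑ j, ⟪cp j x, cp j y⟫_ℝ := by
  simp only [PiLp.inner_apply]
  rw [Fintype.sum_prod_type]
  rfl

theorem cp_di (A : EuclideanSpace ℝ ι →ₗ[ℝ] EuclideanSpace ℝ ι)
    (x : EuclideanSpace ℝ (Fin q × ι)) (j : Fin q) : cp j (di q A x) = A (cp j x) := by
  ext i
  rfl

theorem ext_cp (x y : EuclideanSpace ℝ (Fin q × ι)) (h : ∀ j, cp j x = cp j y) : x = y := by
  ext p
  have := congrArg (fun z : EuclideanSpace ℝ ι => z p.2) (h p.1)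
  exact this

end C5x

open C5x

theorem strucq (h : Fr Φ) (hN : 1 ≤ N) : ∃ (c : KI N → KI N → KI N → ℝ) (κ : ℝ), (N : ℝ) - 2 ≤ κ ∧
    (∀ i j k, c j i k = - c i j k) ∧ (∀ i j k, c i k j = - c i j k) ∧
    (∀ i j x, di q (ad Φ (Km 𝕜 i)) (di q (ad Φ (Km 𝕜 j)) x) -
      di q (ad Φ (Km 𝕜 j)) (di q (ad Φ (Km 𝕜 i)) x) = ∑ k, c i j k • di q (ad Φ (Km 𝕜 k)) x) ∧
    (∀ k x, ∑ l, (∑ i, ∑ j, c i j k * c i j l) • di q (ad Φ (Km 𝕜 l)) x =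
      κ • di q (ad Φ (Km 𝕜 k)) x) := by
  obtain ⟨c, κ, h1, h2, h3, h4, h5⟩ := struc h hN
  refine ⟨c, κ, h1, h2, h3, fun i j x => ?_, fun k x => ?_⟩
  · apply ext_cp
    intro a
    simp only [map_sub, map_sum, map_smul, C5x.cp_di]
    exact h4 i j (cp a x)
  · apply ext_cp
    intro a
    simp only [map_sum, map_smul, C5x.cp_di]
    exact h5 k (cp a x)

theorem di_skew (h : Fr Φ) (K : Matrix (Fin N) (Fin N) 𝕜) (hK : Kᴴ = -K)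
    (x y : EuclideanSpace ℝ (Fin q × ι)) :
    ⟪di q (ad Φ K) x, y⟫_ℝ = - ⟪x, di q (ad Φ K) y⟫_ℝ := by
  rw [C5x.inner_cp, C5x.inner_cp, ← Finset.sum_neg_distrib]
  apply Finset.sum_congr rfl
  intro j _
  rw [C5x.cp_di, C5x.cp_di]
  exact ad_skew h K hK (cp j x) (cp j y)

end Pool.Agent.H888R2.KT
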