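import Pool.Agent.H888R2.KT.Defs
import Pool.Agent.H888R2.KC.A6

/-!
# C6c: invariant functions have vanishing derivatives along the commutator fields
-/

set_option autoImplicit false

namespace Pool.Agent.H888R2.KT

open MeasureTheory Set Matrix Pool.Agent.H888R2.KC
open scoped ENNReal InnerProductSpace
open Pool.Agent.H212R2.KLS (mu Bdd ev gr)

variable {𝕜 : Type} [RCLike 𝕜] {N q : ℕ} {ι : Type} [Fintype ι]
  {Φ : EuclideanSpace ℝ ι →ₗ[ℝ] Matrix (Fin N) (Fin N) 𝕜}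

namespace C6cx

theorem ad_smul (c : ℝ) (K : Matrix (Fin N) (Fin N) 𝕜) (x : EuclideanSpace ℝ ι) :
    ad Φ (c • K) x = c • ad Φ K x := by
  show ps Φ (c • K * Φ x - Φ x * (c • K)) = c • ps Φ (K * Φ x - Φ x * K)
  rw [← map_smul, smul_mul_assoc, mul_smul_comm, smul_sub]

theorem Ws_zero (K : Matrix (Fin N) (Fin N) 𝕜) : A6x.Ws K 0 0 = (-2 : ℝ) • K := by
  unfold A6x.Ws A6x.Rs
  rw [zero_smul, add_zero, inv_one, conjTranspose_one, one_mul, mul_one]

theorem cay_zero (K : Matrix (Fin N) (Fin N) 𝕜) : cay ((0 : ℝ) • K) = 1 := by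
  unfold cay
  rw [zero_smul, sub_zero, add_zero, inv_one, mul_one]

theorem di_deriv (h : Fr Φ) {K : Matrix (Fin N) (Fin N) 𝕜} (hK : Kᴴ = -K)
    (x : EuclideanSpace ℝ (Fin q × ι)) :
    HasDerivAt (fun t : ℝ => di q (cj Φ (cay (t • K))) x) ((-2 : ℝ) • di q (ad Φ K) x) 0 := by
  have h1 : HasDerivAt (fun t : ℝ => fun p : Fin q × ι => (cj Φ (cay (t • K)) (cp p.1 x)) p.2)
      (fun p : Fin q × ι => ((-2 : ℝ) • ad Φ K (cp p.1 x)) p.2) 0 := by
    rw [hasDerivAt_pi]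
    intro p
    have h2 := A6x.path_deriv h hK (cp p.1 x) 0
    rw [Ws_zero, cay_zero, cj_one h, ad_smul] at h2
    exact (EuclideanSpace.proj p.2 : EuclideanSpace ℝ ι →L[ℝ] ℝ).hasFDerivAt.comp_hasDerivAt
      (0 : ℝ) h2
  have h3 := (EuclideanSpace.equiv (Fin q × ι) ℝ).symm.toContinuousLinearMap.hasFDerivAt.comp_hasDerivAt
    (0 : ℝ) h1
  exact h3

end C6cx

open C6cx in
theorem fderiv_of_CI (h : Fr Φ) (v : EuclideanSpace ℝ (Fin q × ι) → ℝ) (hv : ContDiff ℝ 1 v)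
    (hi : CI Φ v) (K : Matrix (Fin N) (Fin N) 𝕜) (hK : Kᴴ = -K)
    (x : EuclideanSpace ℝ (Fin q × ι)) : fderiv ℝ v x (di q (ad Φ K) x) = 0 := by
  have h0 : di q (cj Φ (cay ((0 : ℝ) • K))) x = x := by
    ext p
    show (cj Φ (cay ((0 : ℝ) • K)) (cp p.1 x)) p.2 = x p
    rw [cay_zero, cj_one h]
    rfl
  have h1 : HasFDerivAt v (fderiv ℝ v (di q (cj Φ (cay ((0 : ℝ) • K))) x))
      (di q (cj Φ (cay ((0 : ℝ) • K))) x) :=
    (hv.differentiable (by norm_num) _).hasFDerivAt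
  have h2 := h1.comp_hasDerivAt (0 : ℝ) (di_deriv h hK x)
  have h3 : (v ∘ fun t : ℝ => di q (cj Φ (cay (t • K))) x) = fun _ => v x := by
    funext t
    exact hi (t • K) (A6x.skew_smul hK t) x
  rw [h3, h0] at h2
  have h4 := h2.unique (hasDerivAt_const (0 : ℝ) (v x))
  rw [map_smul, smul_eq_mul] at h4
  linarith

end Pool.Agent.H888R2.KT
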