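import Pool.Agent.H888R2.KT.Defs
import Pool.Agent.H888R2.KT.C1
import Pool.Agent.H888R2.KT.C1b
import Pool.Agent.H888R2.KT.C2
import Pool.Agent.H888R2.KT.C3
import Pool.Agent.H888R2.KT.C4
import Pool.Agent.H888R2.KT.C5
import Pool.Agent.H888R2.KT.C6a
import Pool.Agent.H888R2.KT.C6b
import Pool.Agent.H888R2.KT.C6c
import Pool.Agent.H888R2.KT.N12
import Pool.Agent.H888R2.KC.F4
import Pool.Agent.H888R2.KC.W2b

/-!
# KLS for tuples: local Poincare inequality (task C7)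
-/

set_option autoImplicit false

namespace Pool.Agent.H888R2.KT

open MeasureTheory Set Matrix Pool.Agent.H888R2.KC
open scoped ENNReal InnerProductSpace
open Pool.Agent.H212R2.KLS (mu Bdd ev gr)

variable {𝕜 : Type} [RCLike 𝕜] {N q : ℕ} {ι : Type} [Fintype ι]
  {Φ : EuclideanSpace ℝ ι →ₗ[ℝ] Matrix (Fin N) (Fin N) 𝕜}

theorem local_poincareq (h : Fr Φ) (hN : 3 ≤ N) (ρ : EuclideanSpace ℝ (Fin q × ι) → ℝ)
    (hρ : DT Φ ρ) (hb : Bdd ρ) (hfin : mu ρ univ ≠ ⊤) (r : ℝ) (hr : 0 < r)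
    (hs : ∀ x, ¬ (∀ j, OpL r (Φ (cp j x))) → ρ x = 0) (K : ℝ) (hK : 0 < K)
    (hT : St (fun j : Fin q => inj (tv Φ) j) K ρ)
    (f : EuclideanSpace ℝ (Fin q × ι) → ℝ) (hf : ContDiff ℝ 1 f) :
    ∃ c : ℝ, ∫ x, (f x - c) ^ 2 ∂(mu ρ) ≤
      (64 * r ^ 2 * q / N + 4 * K) * ∫ x, ‖fderiv ℝ f x‖ ^ 2 ∂(mu ρ) := by
  by_cases hμ : mu ρ = 0
  · exact ⟨0, by simp [hμ]⟩
  have hLC : LC ρ := ⟨hρ.nonneg, hρ.meas, hρ.logc, hb, hfin, hμ⟩
  have hfin' : IsFiniteMeasure (mu ρ) := ⟨lt_top_iff_ne_top.2 hfin⟩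
  have hN3 : (3 : ℝ) ≤ N := by exact_mod_cast hN
  obtain ⟨c, κ0, hκ, hc1, hc2, hcomm, hkil⟩ := strucq (q := q) h (by omega)
  have hκ0 : 0 < κ0 := by linarith
  have hball : ∃ R, (mu ρ) (Metric.closedBall 0 R)ᶜ = 0 := by
    obtain ⟨R, hR⟩ := hb
    refine ⟨R, ?_⟩
    rw [mu, withDensity_apply_eq_zero' (hρ.meas.ennreal_ofReal.aemeasurable)]
    refine measure_mono_null ?_
      (measure_empty (μ := (volume : Measure (EuclideanSpace ℝ (Fin q × ι)))))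
    intro x hx
    refine hx.1 ?_
    have h2 : R < ‖x‖ := by
      have := hx.2
      rw [mem_compl_iff, mem_closedBall_zero_iff, not_le] at this
      exact this
    simp [hR x h2]
  obtain ⟨c', hc'⟩ := gen_local (fun k => di q (ad Φ (Km 𝕜 k)))
    (fun k x y => di_skew h _ (Km_skew k) x y) c hc1 hc2 hcomm κ0 hκ0 hkil
    (fun j : Fin q => inj (tv Φ) j) (orth_inj h (by omega)) N (by linarith)
    (fun w => casimir h (by omega) w) hLC K hK hT (4 * r ^ 2 * q) (by positivity)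
    (fun x hx w => lam h r hr.le x (by
      by_contra hcon
      exact hx (hs x hcon)) w)
    {g | ∃ K' : Matrix (Fin N) (Fin N) 𝕜, K'ᴴ = -K' ∧ ∀ x, g x = di q (cj Φ (cay K')) x}
    (by
      rintro g ⟨K', hK', hg⟩ x
      rw [hg]
      exact hρ.inv (cay K') (cay_unit K' hK').2.2 x)
    (by
      intro v hv hvg k x
      refine fderiv_of_CI h v hv ?_ (Km 𝕜 k) (Km_skew k) x
      intro K' hK' y
      obtain ⟨g, hg⟩ := di_iso (q := q) h (cay K') (cay_unit K' hK').2.2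
      have h1 := hvg g ⟨K', hK', hg⟩ y
      rwa [hg] at h1)
    (by
      rintro p hp g ⟨K', hK', hg⟩ x
      rw [hg]
      exact CI_of_dl h p hp K' hK' x)
    (fun k p => dl_integralq h (mu ρ) (DT.basic h (by omega) hρ).1 hball _
      (Km_skew k) p) f hf
  refine ⟨c', hc'.trans (mul_le_mul_of_nonneg_right ?_ (integral_nonneg fun x => by positivity))⟩
  have hL0 : 0 ≤ r ^ 2 * (q : ℝ) := by positivity
  have hN0 : (0 : ℝ) < N := by linarith
  have h1 : 4 * (4 * r ^ 2 * (q : ℝ)) / κ0 ≤ 48 * (r ^ 2 * q) / N := by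
    rw [div_le_div_iff₀ hκ0 hN0]
    have h2 : (N : ℝ) ≤ 3 * κ0 := by linarith
    nlinarith [mul_le_mul_of_nonneg_left h2 hL0]
  have h3 : max K (4 * r ^ 2 * (q : ℝ) / N) ≤ K + 4 * (r ^ 2 * q) / N := by
    have h4 : 0 ≤ 4 * (r ^ 2 * (q : ℝ)) / N := by positivity
    refine max_le (by linarith) ?_
    have h5 : 4 * r ^ 2 * (q : ℝ) / N = 4 * (r ^ 2 * q) / N := by ring
    linarith
  calc 4 * (4 * r ^ 2 * (q : ℝ)) / κ0 + 4 * max K (4 * r ^ 2 * (q : ℝ) / N)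
      ≤ 48 * (r ^ 2 * q) / N + 4 * (K + 4 * (r ^ 2 * q) / N) := by linarith
    _ = 64 * r ^ 2 * q / N + 4 * K := by ring

end Pool.Agent.H888R2.KT
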