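import Pool.Agent.H888R2.KT.Defs
import Pool.Agent.H888R2.KT.C1
import Pool.Agent.H888R2.KT.T1
import Pool.Agent.H888R2.KC.F2
import Pool.Agent.H888R2.KC.F3
import Pool.Agent.H888R2.KC.T1
import Pool.Agent.H888R2.KC.T2
import Pool.Agent.H888R2.KC.T3
import Pool.Agent.H888R2.KC.T4
import Pool.Agent.H888R2.KC.T5
import Pool.Agent.H888R2.KC.T6
import Pool.Agent.H888R2.KC.U3

/-!
# Task T2 (author helper171): tails of the operator norms of the components
-/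

set_option autoImplicit false

namespace Pool.Agent.H888R2.KT

open MeasureTheory Set Matrix Pool.Agent.H888R2.KC
open scoped ENNReal InnerProductSpace
open Pool.Agent.H212R2.KLS (mu Bdd ev gr)

namespace T2x

theorem intg {F : Type*} [NormedAddCommGroup F] [NormedSpace ℝ F] [FiniteDimensional ℝ F]
    [MeasurableSpace F] [BorelSpace F] (μ : Measure F) [IsFiniteMeasure μ]
    (hb : ∃ R, μ (Metric.closedBall 0 R)ᶜ = 0) (g : F → ℝ) (hg : Continuous g) :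
    Integrable g μ := by
  obtain ⟨R, hR⟩ := hb
  have : ProperSpace F := FiniteDimensional.proper ℝ F
  obtain ⟨C, hC⟩ := (isCompact_closedBall (0 : F) R).exists_bound_of_continuousOn hg.continuousOn
  have h1 : Metric.closedBall (0 : F) R ∈ ae μ := mem_ae_iff.2 hR
  refine Integrable.of_bound hg.aestronglyMeasurable C ?_
  filter_upwards [h1] with x hx using hC x hx

variable {𝕜 : Type} [RCLike 𝕜] {N : ℕ} {ι : Type} [Fintype ι]
  {Φ : EuclideanSpace ℝ ι →ₗ[ℝ] Matrix (Fin N) (Fin N) 𝕜}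

/-- the tail bound for one matrix -/
theorem single_tail (h : Fr Φ) (hN : 2 ≤ N) (ρ : EuclideanSpace ℝ ι → ℝ) (hρ : Dn Φ ρ)
    (hb : Bdd ρ) (h1 : mu ρ univ = 1) (s : ℝ) (hs : 0 < s)
    (hmom : ∀ θ : EuclideanSpace ℝ ι, ∫ x, ⟪θ, x⟫_ℝ ^ 2 ∂(mu ρ) ≤ s * ‖θ‖ ^ 2) (u : ℝ) :
    mu ρ {x | ¬ OpL (8 * u * Real.sqrt (N * s)) (Φ x)} ≤
      ENNReal.ofReal (Real.exp (N * (12 - u / 30))) := by
  have hprob : IsProbabilityMeasure (mu ρ) := ⟨h1⟩
  have hball : ∃ R, (mu ρ) (Metric.closedBall 0 R)ᶜ = 0 := by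
    obtain ⟨R, hR⟩ := hb
    refine ⟨R, ?_⟩
    rw [mu, withDensity_apply_eq_zero' (hρ.meas.ennreal_ofReal.aemeasurable)]
    refine measure_mono_null ?_ (measure_empty (μ := (volume : Measure (EuclideanSpace ℝ ι))))
    intro x hx
    refine hx.1 ?_
    have : R < ‖x‖ := by simpa using hx.2
    simp [hR x this]
  have htv : ‖tv Φ‖ = 1 := norm_tv h (by omega)
  have hcol := fun (i j : Fin N) (hij : i ≠ j) (u : ℝ) =>
    col_tail h (by omega) ρ hρ hb h1 s hs hmom i j hij u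
  have hdiff := fun (i j : Fin N) (hij : i ≠ j) (u : ℝ) =>
    diff_tail h ρ hρ s hs hcol i j hij u
  have hlin := fun (b : ℝ) (hb0 : 0 ≤ b) =>
    lin_tail ρ hρ.nonneg hρ.meas hρ.logc h1 (tv Φ) s hs
      (intg (mu ρ) hball _ (by fun_prop)) (by
        have := hmom (tv Φ)
        rwa [htv, one_pow, mul_one] at this) b hb0
  have hent := fun (i : Fin N) (u : ℝ) =>
    entry_tail h (by omega) ρ hρ h1 s hs hdiff hlin i u
  have hform := fun (v : EuclideanSpace 𝕜 (Fin N)) (hv : ‖v‖ ≤ 1) (u : ℝ) =>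
    form_tail h (by omega) ρ hρ h1 s hs hent v hv u
  exact op_tail h (by omega) ρ hρ h1 s hs hform u

end T2x

section tails

variable {𝕜 : Type} [RCLike 𝕜] {N q : ℕ} {ι : Type} [Fintype ι]
  {Φ : EuclideanSpace ℝ ι →ₗ[ℝ] Matrix (Fin N) (Fin N) 𝕜}

theorem op_tailq (h : Fr Φ) (hN : 2 ≤ N) (ρ : EuclideanSpace ℝ (Fin q × ι) → ℝ) (hρ : DT Φ ρ)
    (hb : Bdd ρ) (h1 : mu ρ univ = 1) (s : ℝ) (hs : 0 < s)
    (hmom : ∀ θ : EuclideanSpace ℝ (Fin q × ι), ∫ x, ⟪θ, x⟫_ℝ ^ 2 ∂(mu ρ) ≤ s * ‖θ‖ ^ 2) (u : ℝ) :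
    mu ρ {x | ¬ ∀ j, OpL (8 * u * Real.sqrt (N * s)) (Φ (cp j x))} ≤
      q * ENNReal.ofReal (Real.exp (N * (12 - u / 30))) := by
  have hcont : ∀ j : Fin q, Continuous (cp (ι := ι) j) := fun j =>
    LinearMap.continuous_of_finiteDimensional _
  have hone : ∀ j : Fin q, mu ρ ((cp (ι := ι) j) ⁻¹'
      {y | ¬ OpL (8 * u * Real.sqrt (N * s)) (Φ y)}) ≤
      ENNReal.ofReal (Real.exp (N * (12 - u / 30))) := by
    intro j
    obtain ⟨ρ', hD, hb', hmap⟩ := marginal h ρ hρ hb h1 j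
    have hm1 : mu ρ' univ = 1 := by
      rw [← hmap, Measure.map_apply (hcont j).measurable MeasurableSet.univ, preimage_univ, h1]
    have hmom' : ∀ θ : EuclideanSpace ℝ ι, ∫ x, ⟪θ, x⟫_ℝ ^ 2 ∂(mu ρ') ≤ s * ‖θ‖ ^ 2 := by
      intro θ
      have e1 : ∫ x, ⟪θ, x⟫_ℝ ^ 2 ∂(mu ρ') = ∫ x, ⟪inj θ j, x⟫_ℝ ^ 2 ∂(mu ρ) := by
        rw [← hmap, integral_map (hcont j).measurable.aemeasurable]
        · refine integral_congr_ae (ae_of_all _ fun x => ?_)
          simp only [inner_inj]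
        · exact Continuous.aestronglyMeasurable (by fun_prop)
      have e2 : ‖inj θ j‖ ^ 2 = ‖θ‖ ^ 2 := by
        rw [← real_inner_self_eq_norm_sq, ← real_inner_self_eq_norm_sq, inner_inj,
          cp_inj, if_pos rfl]
      rw [e1, ← e2]
      exact hmom (inj θ j)
    have ht := T2x.single_tail h hN ρ' hD hb' hm1 s hs hmom' u
    have hS : MeasurableSet {y : EuclideanSpace ℝ ι | ¬ OpL (8 * u * Real.sqrt (N * s)) (Φ y)} :=
      (OpL_closed (Φ := Φ) (8 * u * Real.sqrt (N * s))).measurableSet.compl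
    rw [← hmap, Measure.map_apply (hcont j).measurable hS] at ht
    exact ht
  calc mu ρ {x | ¬ ∀ j, OpL (8 * u * Real.sqrt (N * s)) (Φ (cp j x))}
      ≤ mu ρ (⋃ j : Fin q, (cp (ι := ι) j) ⁻¹'
          {y | ¬ OpL (8 * u * Real.sqrt (N * s)) (Φ y)}) := by
        refine measure_mono ?_
        intro x hx
        have hx' : ¬ ∀ j, OpL (8 * u * Real.sqrt (N * s)) (Φ (cp j x)) := hx
        rw [not_forall] at hx'
        obtain ⟨j, hj⟩ := hx'
        exact mem_iUnion.2 ⟨j, hj⟩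
    _ ≤ ∑ j : Fin q, mu ρ ((cp (ι := ι) j) ⁻¹'
          {y | ¬ OpL (8 * u * Real.sqrt (N * s)) (Φ y)}) := measure_iUnion_fintype_le _ _
    _ ≤ ∑ _j : Fin q, ENNReal.ofReal (Real.exp (N * (12 - u / 30))) :=
        Finset.sum_le_sum fun j _ => hone j
    _ = q * ENNReal.ofReal (Real.exp (N * (12 - u / 30))) := by simp

end tails

end Pool.Agent.H888R2.KT
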