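import Pool.Agent.H888R2.KT.Defs
import Pool.Agent.H888R2.KT.N2
import Pool.Agent.H888R2.KT.V1
import Pool.Agent.H888R2.KC.G1
import Pool.Agent.H212R2.KLS.S1
import Pool.Agent.H212R2.KLS.S2

/-!
# KLS for tuples, task V2: the crude Poincare inequality
-/

set_option autoImplicit false

namespace Pool.Agent.H888R2.KT

open MeasureTheory Set Matrix Pool.Agent.H888R2.KC
open scoped ENNReal InnerProductSpace
open Pool.Agent.H212R2.KLS (mu Bdd ev gr)

namespace V2x

theorem mu_indicator {F : Type*} [MeasureSpace F] (ρ : F → ℝ) (U : Set F)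
    (hU : MeasurableSet U) : mu (U.indicator ρ) = (mu ρ).restrict U := by
  rw [mu, mu, restrict_withDensity hU, ← withDensity_indicator hU]
  congr 1
  ext x
  by_cases hx : x ∈ U <;> simp [hx]

theorem lc_indicator {κ : Type} [Fintype κ] {ρ : EuclideanSpace ℝ κ → ℝ} (hρ : LC ρ) (R : ℝ)
    (hne : mu ρ (Metric.closedBall 0 R) ≠ 0) :
    LC ((Metric.closedBall (0 : EuclideanSpace ℝ κ) R).indicator ρ) := by
  obtain ⟨U, hU⟩ : ∃ U : Set (EuclideanSpace ℝ κ), U = Metric.closedBall 0 R := ⟨_, rfl⟩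
  have hUm : MeasurableSet U := by rw [hU]; exact Metric.isClosed_closedBall.measurableSet
  have hUc : Convex ℝ U := by rw [hU]; exact convex_closedBall _ _
  rw [← hU] at hne ⊢
  have hnn : ∀ x, 0 ≤ U.indicator ρ x := fun x => Set.indicator_nonneg (fun x _ => hρ.nonneg x) x
  refine ⟨hnn, hρ.meas.indicator hUm, ?_, ?_, ?_, ?_⟩
  · intro x y t ht0 ht1
    by_cases hx : x ∈ U
    · by_cases hy : y ∈ U
      · have hz : (1 - t) • x + t • y ∈ U := hUc hx hy (by linarith) ht0.le (by ring)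
        rw [Set.indicator_of_mem hx, Set.indicator_of_mem hy, Set.indicator_of_mem hz]
        exact hρ.logc x y t ht0 ht1
      · rw [Set.indicator_of_notMem hy, Real.zero_rpow ht0.ne', mul_zero]
        exact hnn _
    · rw [Set.indicator_of_notMem hx, Real.zero_rpow (by linarith), zero_mul]
      exact hnn _
  · obtain ⟨R', hR'⟩ := hρ.bdd
    refine ⟨R', fun x hx => ?_⟩
    by_cases h : x ∈ U
    · rw [Set.indicator_of_mem h]; exact hR' x hx
    · rw [Set.indicator_of_notMem h]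
  · rw [mu_indicator ρ U hUm, Measure.restrict_apply_univ]
    exact ne_top_of_le_ne_top hρ.fin (measure_mono (Set.subset_univ _))
  · rw [mu_indicator ρ U hUm]
    intro h
    apply hne
    rw [← Measure.restrict_apply_univ, h]
    simp

end V2x

open V2x in
theorem crude : ∃ C : ℝ, 0 < C ∧ ∀ {κ : Type} [Fintype κ] (ρ : EuclideanSpace ℝ κ → ℝ), LC ρ →
    mu ρ univ = 1 → ∀ σ : ℝ, 0 < σ → ∫ x, ‖x‖ ^ 2 ∂(mu ρ) ≤ σ ^ 2 →
    ∀ f : EuclideanSpace ℝ κ → ℝ, ContDiff ℝ 1 f →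
    ∫ x, f x ^ 2 ∂(mu ρ) - (∫ x, f x ∂(mu ρ)) ^ 2 ≤
      C * σ ^ 2 * ∫ x, ‖fderiv ℝ f x‖ ^ 2 ∂(mu ρ) := by
  obtain ⟨C₀, hC₀, hsmall⟩ := Pool.Agent.H212R2.KLS.small_l2
  refine ⟨2 * (2 * (2 * 72 ^ 2) + 4 * (C₀ * 3) ^ 2), by positivity, ?_⟩
  intro κ _ ρ hρ h1 σ hσ hmom f hf
  have hprob : IsProbabilityMeasure (mu ρ) := ⟨h1⟩
  have hball : ∃ R, (mu ρ) (Metric.closedBall 0 R)ᶜ = 0 := by
    obtain ⟨R, hR⟩ := hρ.bdd
    refine ⟨R, ?_⟩
    rw [mu, withDensity_apply_eq_zero' (hρ.meas.ennreal_ofReal.aemeasurable)]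
    refine measure_mono_null ?_ (measure_empty (μ := (volume : Measure (EuclideanSpace ℝ κ))))
    intro x hx
    refine hx.1 ?_
    have : R < ‖x‖ := by simpa using hx.2
    simp [hR x this]
  have hbor : ∀ r, 3 * σ ≤ r → mu ρ (Metric.closedBall 0 r)ᶜ ≤
      ENNReal.ofReal (Real.exp (-(r / (3 * σ)))) := fun r hr =>
    borell ρ hρ.nonneg hρ.meas hρ.logc h1 σ hσ
      (G1x.intg (mu ρ) hball _ (by fun_prop)) hmom r hr
  have hUm : MeasurableSet (Metric.closedBall (0 : EuclideanSpace ℝ κ) (72 * σ)) :=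
    Metric.isClosed_closedBall.measurableSet
  have hUc : mu ρ (Metric.closedBall (0 : EuclideanSpace ℝ κ) (72 * σ))ᶜ ≤
      ENNReal.ofReal (Real.exp (-(4 * 6))) := by
    have h2 := hbor (72 * σ) (by linarith)
    refine h2.trans (le_of_eq ?_)
    congr 2
    field_simp
    norm_num
  have hU0 : mu ρ (Metric.closedBall (0 : EuclideanSpace ℝ κ) (72 * σ)) ≠ 0 := by
    intro h
    have h2 : mu ρ (Metric.closedBall (0 : EuclideanSpace ℝ κ) (72 * σ))ᶜ = 1 := by
      rw [prob_compl_eq_one_sub hUm, h, tsub_zero]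
    rw [h2] at hUc
    have h3 : ENNReal.ofReal (Real.exp (-(4 * 6))) < 1 := by
      rw [← ENNReal.ofReal_one]
      apply (ENNReal.ofReal_lt_ofReal_iff (by norm_num)).2
      rw [Real.exp_lt_one_iff]
      norm_num
    exact absurd hUc (not_le.2 h3)
  have hLC := lc_indicator hρ (72 * σ) hU0
  have hfinal := glue (mu ρ) hball 6 (2 * (72 * σ) ^ 2) ((C₀ * (3 * σ)) ^ 2) le_rfl
    (by positivity) (by positivity) ?_ (Metric.closedBall 0 (72 * σ)) hUm hUc ?_ f hf
  · refine hfinal.trans (le_of_eq ?_)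
    ring
  · intro g hg hgs
    exact hsmall (mu ρ) h1 hball (fun f hf hf0 hf1 hfs r hr hBr =>
      Pool.Agent.H212R2.KLS.small_l1 volume ρ hρ.nonneg hρ.meas hρ.logc hρ.bdd (mu ρ) rfl h1
        f hf hf0 hf1 hfs r hr hBr)
      (3 * σ) 6 (by positivity) (by norm_num)
      (fun r hr => hbor r (by linarith)) g hg hgs
  · intro g hg
    obtain ⟨c, hc⟩ := ball_poincare hLC (72 * σ) (by positivity)
      (fun x hx => Set.indicator_of_notMem (by
        rw [mem_closedBall_zero_iff]; exact not_le.2 hx) ρ) g hg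
    rw [mu_indicator ρ _ hUm] at hc
    exact ⟨c, hc⟩

end Pool.Agent.H888R2.KT
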