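import Pool.Agent.H888R2.KT.Defs
import Pool.Agent.H888R2.KC.U2

/-!
# Task V4a: derivative of the tilted integrals
-/

set_option autoImplicit false

namespace Pool.Agent.H888R2.KT

open MeasureTheory Set Matrix Pool.Agent.H888R2.KC
open scoped ENNReal InnerProductSpace
open Pool.Agent.H212R2.KLS (mu Bdd ev gr)

variable {κ : Type} [Fintype κ] {q : ℕ}

namespace V4ax

theorem tw_pos (e : Fin q → EuclideanSpace ℝ κ) (K : ℝ) (τ : EuclideanSpace ℝ (Fin q))
    (x : EuclideanSpace ℝ κ) : 0 < tw e K τ x := Real.exp_pos _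

theorem tw_le (e : Fin q → EuclideanSpace ℝ κ) (K : ℝ) (hK : 0 < K)
    (τ : EuclideanSpace ℝ (Fin q)) (x : EuclideanSpace ℝ κ) : tw e K τ x ≤ 1 := by
  unfold tw
  apply Real.exp_le_one_iff.2
  have h1 : 0 ≤ ∑ j, (⟪e j, x⟫_ℝ - τ j) ^ 2 := Finset.sum_nonneg fun j _ => sq_nonneg _
  have : 0 ≤ (∑ j, (⟪e j, x⟫_ℝ - τ j) ^ 2) / (2 * K) := by positivity
  linarith

/-- the coordinate -/
noncomputable def L (j : Fin q) : EuclideanSpace ℝ (Fin q) →L[ℝ] ℝ := EuclideanSpace.proj j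

theorem L_apply (j : Fin q) (τ : EuclideanSpace ℝ (Fin q)) : L j τ = τ j := rfl

/-- the logarithmic derivative -/
noncomputable def D (e : Fin q → EuclideanSpace ℝ κ) (K : ℝ) (τ : EuclideanSpace ℝ (Fin q))
    (x : EuclideanSpace ℝ κ) : EuclideanSpace ℝ (Fin q) →L[ℝ] ℝ :=
  ∑ j, ((⟪e j, x⟫_ℝ - τ j) / K) • L j

theorem D_apply (e : Fin q → EuclideanSpace ℝ κ) (K : ℝ) (τ a : EuclideanSpace ℝ (Fin q))
    (x : EuclideanSpace ℝ κ) : D e K τ x a = (∑ j, a j * (⟪e j, x⟫_ℝ - τ j)) / K := by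
  unfold D
  rw [_root_.sum_apply, Finset.sum_div]
  refine Finset.sum_congr rfl fun j _ => ?_
  rw [_root_.smul_apply, L_apply, smul_eq_mul]
  ring

theorem tw_fderiv (e : Fin q → EuclideanSpace ℝ κ) (K : ℝ) (hK : 0 < K)
    (τ : EuclideanSpace ℝ (Fin q)) (x : EuclideanSpace ℝ κ) :
    HasFDerivAt (fun τ : EuclideanSpace ℝ (Fin q) => tw e K τ x) (tw e K τ x • D e K τ x) τ := by
  have h1 : ∀ j ∈ (Finset.univ : Finset (Fin q)),
      HasFDerivAt (fun τ : EuclideanSpace ℝ (Fin q) => (⟪e j, x⟫_ℝ - τ j) ^ 2)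
      ((-(2 * (⟪e j, x⟫_ℝ - τ j))) • L j) τ := by
    intro j _
    have h2 : HasFDerivAt (fun τ : EuclideanSpace ℝ (Fin q) => ⟪e j, x⟫_ℝ - τ j) (-(L j)) τ :=
      ((L j).hasFDerivAt (x := τ)).const_sub ⟪e j, x⟫_ℝ
    refine (h2.pow 2).congr_fderiv ?_
    ext a
    simp
  have h2 := (HasFDerivAt.fun_sum h1).mul_const (-(2 * K)⁻¹)
  have h3 := h2.exp
  have e1 : (fun τ : EuclideanSpace ℝ (Fin q) => tw e K τ x) =
      fun τ => Real.exp ((∑ j, (⟪e j, x⟫_ℝ - τ j) ^ 2) * (-(2 * K)⁻¹)) := by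
    funext τ
    unfold tw
    congr 1
    rw [div_eq_mul_inv, mul_neg]
  rw [e1]
  refine h3.congr_fderiv ?_
  have e2 : tw e K τ x = Real.exp ((∑ j, (⟪e j, x⟫_ℝ - τ j) ^ 2) * (-(2 * K)⁻¹)) :=
    congrFun e1 τ
  rw [← e2]
  congr 1
  unfold D
  rw [Finset.smul_sum]
  refine Finset.sum_congr rfl fun j _ => ?_
  rw [smul_smul]
  congr 1
  field_simp

theorem cont (e : Fin q → EuclideanSpace ℝ κ) (K : ℝ) (g : EuclideanSpace ℝ κ → ℝ)
    (hg : Continuous g) : Continuous fun p : EuclideanSpace ℝ (Fin q) × EuclideanSpace ℝ κ =>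
      (g p.2 * tw e K p.1 p.2) • D e K p.1 p.2 := by
  have h1 : ∀ j, Continuous fun p : EuclideanSpace ℝ (Fin q) × EuclideanSpace ℝ κ =>
      ⟪e j, p.2⟫_ℝ - p.1 j := by
    intro j
    exact (continuous_const.inner continuous_snd).sub ((L j).continuous.comp continuous_fst)
  have h2 : Continuous fun p : EuclideanSpace ℝ (Fin q) × EuclideanSpace ℝ κ =>
      tw e K p.1 p.2 := by
    unfold tw
    exact Real.continuous_exp.comp ((continuous_finsetSum _ fun j _ => (h1 j).pow 2).div_const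
      (2 * K)).neg
  have h3 : Continuous fun p : EuclideanSpace ℝ (Fin q) × EuclideanSpace ℝ κ =>
      D e K p.1 p.2 := by
    unfold D
    exact continuous_finsetSum _ fun j _ => ((h1 j).div_const K).smul continuous_const
  exact ((hg.comp continuous_snd).mul h2).smul h3

theorem cont1 (e : Fin q → EuclideanSpace ℝ κ) (K : ℝ) (τ : EuclideanSpace ℝ (Fin q)) :
    Continuous fun x : EuclideanSpace ℝ κ => tw e K τ x := by
  unfold tw
  have h1 : ∀ j, Continuous fun x : EuclideanSpace ℝ κ => ⟪e j, x⟫_ℝ - τ j := fun j =>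
    (continuous_const.inner continuous_id).sub continuous_const
  exact Real.continuous_exp.comp ((continuous_finsetSum _ fun j _ => (h1 j).pow 2).div_const
      (2 * K)).neg

theorem bound (e : Fin q → EuclideanSpace ℝ κ) (K : ℝ) (hK : 0 < K)
    (g : EuclideanSpace ℝ κ → ℝ) {B R : ℝ} (hB0 : 0 ≤ B) (x : EuclideanSpace ℝ κ)
    (hB : |g x| ≤ B) (hR : ‖x‖ ≤ R) (τ₀ τ : EuclideanSpace ℝ (Fin q))
    (hτ : τ ∈ Metric.ball τ₀ 1) :
    ‖(g x * tw e K τ x) • D e K τ x‖ ≤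
      B * ∑ j : Fin q, ((‖e j‖ * R + (‖τ₀‖ + 1)) / K) * ‖L j‖ := by
  rw [norm_smul, norm_mul, Real.norm_eq_abs, Real.norm_of_nonneg (tw_pos e K τ x).le]
  have hR0 : 0 ≤ R := (norm_nonneg x).trans hR
  have h1 : |g x| * tw e K τ x ≤ B := by
    calc |g x| * tw e K τ x ≤ B * 1 :=
          mul_le_mul hB (tw_le e K hK τ x) (tw_pos e K τ x).le hB0
      _ = B := mul_one B
  have h2 : ‖D e K τ x‖ ≤ ∑ j : Fin q, ((‖e j‖ * R + (‖τ₀‖ + 1)) / K) * ‖L j‖ := by
    unfold D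
    refine (norm_sum_le _ _).trans (Finset.sum_le_sum fun j _ => ?_)
    rw [norm_smul]
    refine mul_le_mul_of_nonneg_right ?_ (norm_nonneg _)
    rw [norm_div, Real.norm_of_nonneg hK.le]
    refine div_le_div_of_nonneg_right ?_ hK.le
    have h3 : ‖⟪e j, x⟫_ℝ‖ ≤ ‖e j‖ * R :=
      (norm_inner_le_norm _ _).trans (mul_le_mul_of_nonneg_left hR (norm_nonneg _))
    have h4 : ‖τ j‖ ≤ ‖τ₀‖ + 1 := by
      have h5 : ‖τ j‖ ≤ ‖τ‖ := PiLp.norm_apply_le τ j
      have h6 : ‖τ‖ ≤ ‖τ₀‖ + 1 := by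
        rw [mem_ball_iff_norm] at hτ
        have := norm_sub_norm_le τ τ₀
        linarith
      linarith
    exact (norm_sub_le _ _).trans (add_le_add h3 h4)
  exact mul_le_mul h1 h2 (norm_nonneg _) hB0

end V4ax

open V4ax

theorem tw_deriv (μ : Measure (EuclideanSpace ℝ κ)) [IsFiniteMeasure μ]
    (hb : ∃ R, μ (Metric.closedBall 0 R)ᶜ = 0) (e : Fin q → EuclideanSpace ℝ κ) (K : ℝ)
    (hK : 0 < K) (g : EuclideanSpace ℝ κ → ℝ) (hg : Continuous g) :
    ContDiff ℝ 1 (fun τ : EuclideanSpace ℝ (Fin q) => ∫ x, g x * tw e K τ x ∂μ) ∧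
    ∀ τ a : EuclideanSpace ℝ (Fin q),
      fderiv ℝ (fun τ : EuclideanSpace ℝ (Fin q) => ∫ x, g x * tw e K τ x ∂μ) τ a =
      ∫ x, g x * ((∑ j, a j * (⟪e j, x⟫_ℝ - τ j)) / K) * tw e K τ x ∂μ := by
  obtain ⟨B, hB0, hB⟩ := U2x.ae_bdd μ hb g hg
  obtain ⟨R, hR⟩ := U2x.ae_norm μ hb
  have hbd : ∀ τ₀ : EuclideanSpace ℝ (Fin q), ∀ᵐ x ∂μ, ∀ τ ∈ Metric.ball τ₀ 1,
      ‖(g x * tw e K τ x) • D e K τ x‖ ≤
        B * ∑ j : Fin q, ((‖e j‖ * R + (‖τ₀‖ + 1)) / K) * ‖L j‖ := by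
    intro τ₀
    filter_upwards [hB, hR] with x h1 h2 τ hτ
    exact bound e K hK g hB0 x h1 h2 τ₀ τ hτ
  have hcx : ∀ τ, Continuous fun x => (g x * tw e K τ x) • D e K τ x := fun τ =>
    (cont e K g hg).comp (Continuous.prodMk continuous_const continuous_id)
  have hmeas : ∀ τ, AEStronglyMeasurable (fun x => (g x * tw e K τ x) • D e K τ x) μ :=
    fun τ => (hcx τ).aestronglyMeasurable
  have hint : ∀ τ, Integrable (fun x => (g x * tw e K τ x) • D e K τ x) μ := by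
    intro τ
    refine Integrable.of_bound (hmeas τ)
      (B * ∑ j : Fin q, ((‖e j‖ * R + (‖τ‖ + 1)) / K) * ‖L j‖) ?_
    filter_upwards [hbd τ] with x hx
    exact hx τ (Metric.mem_ball_self one_pos)
  have hd : ∀ τ₀ : EuclideanSpace ℝ (Fin q),
      HasFDerivAt (fun τ : EuclideanSpace ℝ (Fin q) => ∫ x, g x * tw e K τ x ∂μ)
        (∫ x, (g x * tw e K τ₀ x) • D e K τ₀ x ∂μ) τ₀ := by
    intro τ₀
    refine (hasFDerivAt_integral_of_dominated_of_fderiv_le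
      (s := Metric.ball τ₀ 1) (Metric.ball_mem_nhds τ₀ one_pos)
      (F := fun τ x => g x * tw e K τ x)
      (F' := fun τ x => (g x * tw e K τ x) • D e K τ x)
      (bound := fun _ => B * ∑ j : Fin q, ((‖e j‖ * R + (‖τ₀‖ + 1)) / K) * ‖L j‖)
      ?_ ?_ (hmeas τ₀) (hbd τ₀) (integrable_const _) ?_)
    · exact Filter.Eventually.of_forall fun τ => (hg.mul (cont1 e K τ)).aestronglyMeasurable
    · exact U2x.int_bdd μ hb _ (hg.mul (cont1 e K τ₀))
    · refine ae_of_all _ fun x τ _ => ?_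
      refine ((tw_fderiv e K hK τ x).const_mul (g x)).congr_fderiv ?_
      rw [smul_smul]
  have hfd : fderiv ℝ (fun τ : EuclideanSpace ℝ (Fin q) => ∫ x, g x * tw e K τ x ∂μ) =
      fun τ => ∫ x, (g x * tw e K τ x) • D e K τ x ∂μ := by
    funext τ
    exact (hd τ).fderiv
  refine ⟨?_, ?_⟩
  · rw [contDiff_one_iff_fderiv]
    refine ⟨fun τ => (hd τ).differentiableAt, ?_⟩
    rw [hfd, continuous_iff_continuousAt]
    intro τ₀
    refine continuousAt_of_dominated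
      (bound := fun _ => B * ∑ j : Fin q, ((‖e j‖ * R + (‖τ₀‖ + 1)) / K) * ‖L j‖) ?_ ?_
      (integrable_const _) ?_
    · exact Filter.Eventually.of_forall fun τ => hmeas τ
    · filter_upwards [Metric.ball_mem_nhds τ₀ one_pos] with τ hτ
      filter_upwards [hbd τ₀] with x hx
      exact hx τ hτ
    · refine ae_of_all _ fun x => Continuous.continuousAt ?_
      exact (cont e K g hg).comp (Continuous.prodMk continuous_id continuous_const)
  · intro τ a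
    rw [hfd]
    simp only
    rw [ContinuousLinearMap.integral_apply (hint τ)]
    congr 1
    funext x
    rw [_root_.smul_apply, D_apply, smul_eq_mul]
    ring

end Pool.Agent.H888R2.KT
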