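import Pool.Agent.H888R2.KT.Defs
import Pool.Agent.H888R2.KT.V3
import Pool.Agent.H888R2.KT.V4a
import Pool.Agent.H888R2.KT.V4b
import Pool.Agent.H888R2.KT.V4c

/-!
# V5: removing a Gaussian tilt in `q` directions
-/

set_option autoImplicit false

namespace Pool.Agent.H888R2.KT

open MeasureTheory Set Matrix Pool.Agent.H888R2.KC
open scoped ENNReal InnerProductSpace
open Pool.Agent.H212R2.KLS (mu Bdd ev gr)

namespace V5x

variable {κ : Type} [Fintype κ] {q : ℕ}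

theorem tw_pos (e : Fin q → EuclideanSpace ℝ κ) (K : ℝ) (τ : EuclideanSpace ℝ (Fin q))
    (x : EuclideanSpace ℝ κ) : 0 < tw e K τ x := Real.exp_pos _

theorem tw_cont (e : Fin q → EuclideanSpace ℝ κ) (K : ℝ) (τ : EuclideanSpace ℝ (Fin q)) :
    Continuous (tw e K τ) := by
  unfold tw
  fun_prop

theorem intg (μ : Measure (EuclideanSpace ℝ κ)) [IsFiniteMeasure μ]
    (hb : ∃ R, μ (Metric.closedBall 0 R)ᶜ = 0) (g : EuclideanSpace ℝ κ → ℝ) (hg : Continuous g) :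
    Integrable g μ := by
  obtain ⟨R, hR⟩ := hb
  obtain ⟨C, hC⟩ := (isCompact_closedBall (0 : EuclideanSpace ℝ κ) R).exists_bound_of_continuousOn
    hg.continuousOn
  refine Integrable.of_bound hg.aestronglyMeasurable C ?_
  have h1 : ∀ᵐ x ∂μ, x ∈ Metric.closedBall (0 : EuclideanSpace ℝ κ) R := by
    rw [ae_iff]
    exact hR
  filter_upwards [h1] with x hx
  exact hC x hx

theorem int3 (μ : Measure (EuclideanSpace ℝ κ)) (g1 g2 g3 : EuclideanSpace ℝ κ → ℝ) (a b c : ℝ)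
    (i1 : Integrable g1 μ) (i2 : Integrable g2 μ) (i3 : Integrable g3 μ) :
    ∫ x, (a * g1 x + b * g2 x + c * g3 x) ∂μ =
      a * ∫ x, g1 x ∂μ + b * ∫ x, g2 x ∂μ + c * ∫ x, g3 x ∂μ := by
  have j1 : Integrable (fun x => a * g1 x) μ := i1.const_mul a
  have j2 : Integrable (fun x => b * g2 x) μ := i2.const_mul b
  have j3 : Integrable (fun x => c * g3 x) μ := i3.const_mul c
  have j12 : Integrable (fun x => a * g1 x + b * g2 x) μ := j1.add j2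
  rw [integral_add j12 j3, integral_add j1 j2, integral_const_mul, integral_const_mul,
    integral_const_mul]

/-- Cauchy-Schwarz -/
theorem cs (μ : Measure (EuclideanSpace ℝ κ)) [IsFiniteMeasure μ]
    (hb : ∃ R, μ (Metric.closedBall 0 R)ᶜ = 0) (u v w : EuclideanSpace ℝ κ → ℝ)
    (hu : Continuous u) (hv : Continuous v) (hw : Continuous w) (hw0 : ∀ x, 0 ≤ w x) :
    (∫ x, u x * v x * w x ∂μ) ^ 2 ≤ (∫ x, u x ^ 2 * w x ∂μ) * ∫ x, v x ^ 2 * w x ∂μ := by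
  have h1 : ∀ t : ℝ, 0 ≤ (∫ x, v x ^ 2 * w x ∂μ) * (t * t) + (-2 * ∫ x, u x * v x * w x ∂μ) * t +
      ∫ x, u x ^ 2 * w x ∂μ := by
    intro t
    have i1 := intg μ hb (fun x => v x ^ 2 * w x) (by fun_prop)
    have i2 := intg μ hb (fun x => u x * v x * w x) (by fun_prop)
    have i3 := intg μ hb (fun x => u x ^ 2 * w x) (by fun_prop)
    have h2 : 0 ≤ ∫ x, (u x - t * v x) ^ 2 * w x ∂μ :=
      integral_nonneg fun x => mul_nonneg (sq_nonneg _) (hw0 x)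
    have h3 : ∫ x, (u x - t * v x) ^ 2 * w x ∂μ = (∫ x, v x ^ 2 * w x ∂μ) * (t * t) +
        (-2 * ∫ x, u x * v x * w x ∂μ) * t + ∫ x, u x ^ 2 * w x ∂μ := by
      have h4 : (fun x => (u x - t * v x) ^ 2 * w x) = fun x => (t * t) * (v x ^ 2 * w x) +
          (-2 * t) * (u x * v x * w x) + 1 * (u x ^ 2 * w x) := by
        funext x; ring
      rw [h4, int3 μ (fun x => v x ^ 2 * w x) (fun x => u x * v x * w x)
        (fun x => u x ^ 2 * w x) (t * t) (-2 * t) 1 i1 i2 i3]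
      ring
    rw [h3] at h2
    exact h2
  have h5 := discrim_le_zero h1
  unfold discrim at h5
  nlinarith

/-- expanding the square around the mean -/
theorem expand (μ : Measure (EuclideanSpace ℝ κ)) [IsFiniteMeasure μ]
    (hb : ∃ R, μ (Metric.closedBall 0 R)ᶜ = 0) (f w : EuclideanSpace ℝ κ → ℝ)
    (hf : Continuous f) (hw : Continuous w) (m : ℝ) (hm : ∫ x, f x * w x ∂μ = m * ∫ x, w x ∂μ)
    (c : ℝ) : ∫ x, (f x - c) ^ 2 * w x ∂μ =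
      ∫ x, (f x - m) ^ 2 * w x ∂μ + (m - c) ^ 2 * ∫ x, w x ∂μ := by
  have i1 := intg μ hb (fun x => (f x - m) ^ 2 * w x) (by fun_prop)
  have i2 := intg μ hb (fun x => f x * w x) (by fun_prop)
  have i3 := intg μ hb (fun x => w x) hw
  have h4 : (fun x => (f x - c) ^ 2 * w x) = fun x => 1 * ((f x - m) ^ 2 * w x) +
      (2 * (m - c)) * (f x * w x) + ((m - c) ^ 2 - 2 * (m - c) * m) * w x := by
    funext x; ring
  rw [h4, int3 μ (fun x => (f x - m) ^ 2 * w x) (fun x => f x * w x) (fun x => w x) 1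
    (2 * (m - c)) ((m - c) ^ 2 - 2 * (m - c) * m) i1 i2 i3, hm]
  ring

/-- the linear combination of the directions -/
theorem norm_comb (e : Fin q → EuclideanSpace ℝ κ) (he : Orthonormal ℝ e)
    (a : EuclideanSpace ℝ (Fin q)) : ‖∑ j, a j • e j‖ ^ 2 = ‖a‖ ^ 2 := by
  rw [← real_inner_self_eq_norm_sq, he.inner_sum a.ofLp a.ofLp Finset.univ,
    EuclideanSpace.norm_sq_eq]
  refine Finset.sum_congr rfl fun j _ => ?_
  rw [Real.norm_eq_abs, sq_abs]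
  simp [sq]

theorem inner_comb (e : Fin q → EuclideanSpace ℝ κ) (a : EuclideanSpace ℝ (Fin q))
    (x : EuclideanSpace ℝ κ) : ⟪∑ j, a j • e j, x⟫_ℝ = ∑ j, a j * ⟪e j, x⟫_ℝ := by
  rw [sum_inner]
  refine Finset.sum_congr rfl fun j _ => ?_
  rw [real_inner_smul_left]

theorem main (C3 : ℝ) (hC3 : 0 < C3)
    (crude : ∀ (Z M : EuclideanSpace ℝ (Fin q) → ℝ),
      (∀ x, 0 < Z x) → Continuous Z →
      (∀ a b : EuclideanSpace ℝ (Fin q), ∀ t : ℝ, 0 < t → t < 1 →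
        Z a ^ (1 - t) * Z b ^ t ≤ Z ((1 - t) • a + t • b)) →
      Integrable Z → ∀ σ : ℝ, 0 < σ → Integrable (fun x => ‖x‖ ^ 2 * Z x) →
      (∫ x, ‖x‖ ^ 2 * Z x ≤ σ ^ 2 * ∫ x, Z x) → ContDiff ℝ 1 M → (∃ B, ∀ x, |M x| ≤ B) →
      Integrable (fun x => ‖fderiv ℝ M x‖ ^ 2 * Z x) →
      ∃ c : ℝ, ∫ x, (M x - c) ^ 2 * Z x ≤ C3 * σ ^ 2 * ∫ x, ‖fderiv ℝ M x‖ ^ 2 * Z x)
    (μ : Measure (EuclideanSpace ℝ κ)) [IsFiniteMeasure μ] [NeZero μ]
    (hb : ∃ R, μ (Metric.closedBall 0 R)ᶜ = 0)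
    (e : Fin q → EuclideanSpace ℝ κ) (he : Orthonormal ℝ e) (K : ℝ) (hK : 0 < K)
    (hmom : ∀ j, ∫ x, ⟪e j, x⟫_ℝ ^ 2 ∂μ ≤ K * (μ univ).toReal)
    (hlcZ : ∀ (a b : EuclideanSpace ℝ (Fin q)) (t : ℝ), 0 < t → t < 1 →
      (∫ x, tw e K a x ∂μ) ^ (1 - t) * (∫ x, tw e K b x ∂μ) ^ t ≤
      ∫ x, tw e K ((1 - t) • a + t • b) x ∂μ)
    (hloc : ∀ (τ : EuclideanSpace ℝ (Fin q)) (f : EuclideanSpace ℝ κ → ℝ), ContDiff ℝ 1 f →
      ∃ c : ℝ, ∫ x, (f x - c) ^ 2 * tw e K τ x ∂μ ≤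
        5 * K * ∫ x, ‖fderiv ℝ f x‖ ^ 2 * tw e K τ x ∂μ)
    (f : EuclideanSpace ℝ κ → ℝ) (hf : ContDiff ℝ 1 f) :
    ∃ c : ℝ, ∫ x, (f x - c) ^ 2 ∂μ ≤
      (5 + 50 * C3) * (q + 1) * K * ∫ x, ‖fderiv ℝ f x‖ ^ 2 ∂μ := by
  have hfc : Continuous f := hf.continuous
  have hdc : Continuous fun x => ‖fderiv ℝ f x‖ ^ 2 :=
    ((hf.continuous_fderiv (by norm_num)).norm).pow 2
  have hWc := tw_cont e K
  set Z : EuclideanSpace ℝ (Fin q) → ℝ := fun τ => ∫ x, tw e K τ x ∂μ with hZdef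
  set A : EuclideanSpace ℝ (Fin q) → ℝ := fun τ => ∫ x, f x * tw e K τ x ∂μ with hAdef
  set D : EuclideanSpace ℝ (Fin q) → ℝ :=
    fun τ => ∫ x, ‖fderiv ℝ f x‖ ^ 2 * tw e K τ x ∂μ with hDdef
  have hZpos : ∀ τ, 0 < Z τ := fun τ =>
    integral_exp_pos (intg μ hb (tw e K τ) (hWc τ))
  obtain ⟨hZ1, hZd⟩ := tw_deriv μ hb e K hK (fun _ => (1 : ℝ)) continuous_const
  simp only [one_mul] at hZ1 hZd
  have hZ1 : ContDiff ℝ 1 Z := hZ1
  obtain ⟨hA1, hAd⟩ := tw_deriv μ hb e K hK f hfc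
  have hA1 : ContDiff ℝ 1 A := hA1
  have hZc : Continuous Z := hZ1.continuous
  have hAc : Continuous A := hA1.continuous
  obtain ⟨hZi, hZI, hZ2i, hZ2I⟩ := tw_fub μ hb e K hK (fun _ => (1 : ℝ)) continuous_const
  simp only [one_mul] at hZi hZI
  have hZi : Integrable Z := hZi
  obtain ⟨hDi, hDI, -, -⟩ := tw_fub μ hb e K hK (fun x => ‖fderiv ℝ f x‖ ^ 2) hdc
  have hDi : Integrable D := hDi
  set G : ℝ := Real.sqrt (2 * Real.pi * K) ^ q with hG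
  have hGpos : 0 < G := pow_pos (Real.sqrt_pos.2 (by positivity)) _
  set J : ℝ := ∫ x, ‖fderiv ℝ f x‖ ^ 2 ∂μ with hJ
  have hJ0 : 0 ≤ J := integral_nonneg fun x => by positivity
  have hDI : ∫ τ, D τ = G * J := hDI
  -- the mean
  set M : EuclideanSpace ℝ (Fin q) → ℝ := fun τ => A τ / Z τ with hMdef
  have hMm : ∀ τ, ∫ x, f x * tw e K τ x ∂μ = M τ * ∫ x, tw e K τ x ∂μ := fun τ => by
    show A τ = A τ / Z τ * Z τ
    rw [div_mul_cancel₀ _ (hZpos τ).ne']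
  have hMc1 : ContDiff ℝ 1 M := hA1.div hZ1 fun τ => (hZpos τ).ne'
  have hMc : Continuous M := hMc1.continuous
  have hM'c : Continuous (fderiv ℝ M) := hMc1.continuous_fderiv (by norm_num)
  have hMd : ∀ τ a, fderiv ℝ M τ a * Z τ = fderiv ℝ A τ a - M τ * fderiv ℝ Z τ a := by
    intro τ a
    have h1 : A = fun τ => M τ * Z τ := by
      funext τ
      show A τ = A τ / Z τ * Z τ
      rw [div_mul_cancel₀ _ (hZpos τ).ne']
    have h2 : HasFDerivAt (fun τ => M τ * Z τ) (M τ • fderiv ℝ Z τ + Z τ • fderiv ℝ M τ) τ :=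
      ((hMc1.differentiable (by norm_num) τ).hasFDerivAt).mul
        ((hZ1.differentiable (by norm_num) τ).hasFDerivAt)
    have h3 : fderiv ℝ A τ = M τ • fderiv ℝ Z τ + Z τ • fderiv ℝ M τ := by
      rw [h1]
      exact h2.fderiv
    rw [h3]
    simp only [ContinuousLinearMap.add_apply, ContinuousLinearMap.smul_apply, smul_eq_mul]
    ring
  -- variance bounds
  have hvar : ∀ (g : EuclideanSpace ℝ κ → ℝ) (_ : ContDiff ℝ 1 g)
      (τ : EuclideanSpace ℝ (Fin q)) (m : ℝ),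
      ∫ x, g x * tw e K τ x ∂μ = m * ∫ x, tw e K τ x ∂μ →
      ∫ x, (g x - m) ^ 2 * tw e K τ x ∂μ ≤
        5 * K * ∫ x, ‖fderiv ℝ g x‖ ^ 2 * tw e K τ x ∂μ := by
    intro g hg τ m hm
    obtain ⟨c, hc⟩ := hloc τ g hg
    have h1 := expand μ hb g (tw e K τ) hg.continuous (hWc τ) m hm c
    have h2 : 0 ≤ (m - c) ^ 2 * ∫ x, tw e K τ x ∂μ := mul_nonneg (sq_nonneg _) (hZpos τ).le
    linarith
  -- the derivative of the mean
  have hM'a : ∀ τ a, (fderiv ℝ M τ a) ^ 2 * Z τ ≤ 25 * ‖a‖ ^ 2 * D τ := by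
    intro τ a
    set v : EuclideanSpace ℝ κ := ∑ j, a j • e j with hv
    have hvn : ‖v‖ ^ 2 = ‖a‖ ^ 2 := norm_comb e he a
    have hvi : ∀ x, ∑ j, a j * (⟪e j, x⟫_ℝ - τ j) = ⟪v, x⟫_ℝ - ∑ j, a j * τ j := by
      intro x
      rw [hv, inner_comb, ← Finset.sum_sub_distrib]
      refine Finset.sum_congr rfl fun j _ => ?_
      ring
    set s : ℝ := ∑ j, a j * τ j with hs
    set T : ℝ := (∫ x, ⟪v, x⟫_ℝ * tw e K τ x ∂μ) / Z τ with hT
    have hTm : ∫ x, ⟪v, x⟫_ℝ * tw e K τ x ∂μ = T * ∫ x, tw e K τ x ∂μ := by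
      show _ = (∫ x, ⟪v, x⟫_ℝ * tw e K τ x ∂μ) / Z τ * Z τ
      rw [div_mul_cancel₀ _ (hZpos τ).ne']
    have hlC : ContDiff ℝ 1 fun x : EuclideanSpace ℝ κ => ⟪v, x⟫_ℝ := (innerSL ℝ v).contDiff
    have v1 := hvar f hf τ (M τ) (hMm τ)
    have v2 := hvar (fun x => ⟪v, x⟫_ℝ) hlC τ T hTm
    have hfd : ∀ x : EuclideanSpace ℝ κ, ‖fderiv ℝ (fun x => ⟪v, x⟫_ℝ) x‖ ^ 2 = ‖a‖ ^ 2 := by
      intro x
      have h1 : fderiv ℝ (fun x : EuclideanSpace ℝ κ => ⟪v, x⟫_ℝ) x = innerSL ℝ v :=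
        (innerSL ℝ v).hasFDerivAt.fderiv
      rw [h1, innerSL_apply_norm, hvn]
    have v3 : ∫ x, ‖fderiv ℝ (fun x : EuclideanSpace ℝ κ => ⟪v, x⟫_ℝ) x‖ ^ 2 * tw e K τ x ∂μ =
        ‖a‖ ^ 2 * Z τ := by
      simp only [hfd]
      rw [integral_const_mul]
    have hcs := cs μ hb (fun x => f x - M τ) (fun x => ⟪v, x⟫_ℝ - T) (tw e K τ)
      (by fun_prop) (by fun_prop) (hWc τ) (fun x => (tw_pos e K τ x).le)
    have i1 := intg μ hb (fun x => f x * tw e K τ x) (hfc.mul (hWc τ))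
    have i2 := intg μ hb (fun x => tw e K τ x) (hWc τ)
    have i3 := intg μ hb (fun x => (f x - M τ) * (⟪v, x⟫_ℝ - T) * tw e K τ x)
      (Continuous.mul (by fun_prop) (hWc τ))
    -- `M' Z = K⁻¹ ∫ (f - M) (ℓ - T) W`
    have hkey : fderiv ℝ M τ a * Z τ =
        K⁻¹ * ∫ x, (f x - M τ) * (⟪v, x⟫_ℝ - T) * tw e K τ x ∂μ := by
      have i4 := intg μ hb (fun x => f x * ((⟪v, x⟫_ℝ - s) / K) * tw e K τ x)
        (Continuous.mul (by fun_prop) (hWc τ))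
      have i5 := intg μ hb (fun x => ((⟪v, x⟫_ℝ - s) / K) * tw e K τ x)
        (Continuous.mul (by fun_prop) (hWc τ))
      have hZd' : fderiv ℝ Z τ a = ∫ x, ((⟪v, x⟫_ℝ - s) / K) * tw e K τ x ∂μ := by
        rw [hZd τ a]
        simp only [hvi]
      have hAd' : fderiv ℝ A τ a = ∫ x, f x * ((⟪v, x⟫_ℝ - s) / K) * tw e K τ x ∂μ := by
        rw [hAd τ a]
        simp only [hvi]
      have h2 : fderiv ℝ A τ a - M τ * fderiv ℝ Z τ a =
          ∫ x, (f x * ((⟪v, x⟫_ℝ - s) / K) * tw e K τ x -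
            M τ * (((⟪v, x⟫_ℝ - s) / K) * tw e K τ x)) ∂μ := by
        rw [integral_sub i4 (i5.const_mul _), integral_const_mul, hZd', hAd']
      have h3 : (fun x => f x * ((⟪v, x⟫_ℝ - s) / K) * tw e K τ x -
          M τ * (((⟪v, x⟫_ℝ - s) / K) * tw e K τ x)) = fun x =>
          (K⁻¹ * ((f x - M τ) * (⟪v, x⟫_ℝ - T) * tw e K τ x) +
            (K⁻¹ * (T - s)) * (f x * tw e K τ x)) + (-(K⁻¹ * (T - s) * M τ)) * tw e K τ x := by
        funext x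
        field_simp
        ring
      rw [hMd τ a, h2, h3, int3 μ (fun x => (f x - M τ) * (⟪v, x⟫_ℝ - T) * tw e K τ x)
        (fun x => f x * tw e K τ x) (fun x => tw e K τ x) K⁻¹ (K⁻¹ * (T - s))
        (-(K⁻¹ * (T - s) * M τ)) i3 i1 i2, hMm τ]
      ring
    set X := ∫ x, (f x - M τ) * (⟪v, x⟫_ℝ - T) * tw e K τ x ∂μ with hX
    have hD0 : 0 ≤ D τ := integral_nonneg fun x => mul_nonneg (by positivity) (tw_pos e K τ x).le
    have hXle : X ^ 2 ≤ (5 * K * D τ) * (5 * K * (‖a‖ ^ 2 * Z τ)) := by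
      refine hcs.trans (mul_le_mul v1 (v2.trans (le_of_eq ?_)) ?_ (by positivity))
      · rw [v3]
      · exact integral_nonneg fun x => mul_nonneg (sq_nonneg _) (tw_pos e K τ x).le
    have h5 : (fderiv ℝ M τ a * Z τ) ^ 2 ≤ 25 * ‖a‖ ^ 2 * D τ * Z τ := by
      rw [hkey, mul_pow]
      have h6 : (K⁻¹) ^ 2 * ((5 * K * D τ) * (5 * K * (‖a‖ ^ 2 * Z τ))) =
          25 * ‖a‖ ^ 2 * D τ * Z τ := by
        field_simp
        ring
      rw [← h6]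
      exact mul_le_mul_of_nonneg_left hXle (by positivity)
    have h7 : ((fderiv ℝ M τ a) ^ 2 * Z τ) * Z τ ≤ (25 * ‖a‖ ^ 2 * D τ) * Z τ := by
      calc ((fderiv ℝ M τ a) ^ 2 * Z τ) * Z τ = (fderiv ℝ M τ a * Z τ) ^ 2 := by ring
        _ ≤ _ := h5
    exact le_of_mul_le_mul_right h7 (hZpos τ)
  have hM'Z : ∀ τ, ‖fderiv ℝ M τ‖ ^ 2 * Z τ ≤ 25 * D τ := by
    intro τ
    have hD0 : 0 ≤ D τ := integral_nonneg fun x => mul_nonneg (by positivity) (tw_pos e K τ x).le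
    have h1 : ‖fderiv ℝ M τ‖ ≤ Real.sqrt (25 * D τ / Z τ) := by
      refine ContinuousLinearMap.opNorm_le_bound _ (Real.sqrt_nonneg _) fun a => ?_
      rw [Real.norm_eq_abs]
      refine abs_le_of_sq_le_sq ?_ (by positivity)
      rw [mul_pow, Real.sq_sqrt (div_nonneg (by positivity) (hZpos τ).le)]
      have h2 := hM'a τ a
      rw [div_mul_eq_mul_div, le_div_iff₀ (hZpos τ)]
      calc (fderiv ℝ M τ a) ^ 2 * Z τ ≤ 25 * ‖a‖ ^ 2 * D τ := h2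
        _ = 25 * D τ * ‖a‖ ^ 2 := by ring
    have h2 : ‖fderiv ℝ M τ‖ ^ 2 ≤ 25 * D τ / Z τ := by
      have h3 := pow_le_pow_left₀ (norm_nonneg _) h1 2
      rwa [Real.sq_sqrt (div_nonneg (by positivity) (hZpos τ).le)] at h3
    rwa [le_div_iff₀ (hZpos τ)] at h2
  -- boundedness of the mean
  have hMb : ∃ B, ∀ τ, |M τ| ≤ B := by
    obtain ⟨R, hR⟩ := hb
    obtain ⟨C, hC⟩ := (isCompact_closedBall (0 : EuclideanSpace ℝ κ) R).exists_bound_of_continuousOn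
      hfc.continuousOn
    refine ⟨C, fun τ => ?_⟩
    have hae : ∀ᵐ x ∂μ, x ∈ Metric.closedBall (0 : EuclideanSpace ℝ κ) R := by
      rw [ae_iff]
      exact hR
    have h1 : |A τ| ≤ C * Z τ := by
      have h2 : |A τ| ≤ ∫ x, C * tw e K τ x ∂μ := by
        rw [← Real.norm_eq_abs]
        refine norm_integral_le_of_norm_le ((intg μ ⟨R, hR⟩ _ (hWc τ)).const_mul C) ?_
        filter_upwards [hae] with x hx
        rw [norm_mul, Real.norm_of_nonneg (tw_pos e K τ x).le]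
        exact mul_le_mul_of_nonneg_right (hC x hx) (tw_pos e K τ x).le
      rwa [integral_const_mul] at h2
    show |A τ / Z τ| ≤ C
    rw [abs_div, abs_of_pos (hZpos τ), div_le_iff₀ (hZpos τ)]
    exact h1
  have hM'i : Integrable fun τ => ‖fderiv ℝ M τ‖ ^ 2 * Z τ := by
    refine Integrable.mono' (hDi.const_mul 25) ((hM'c.norm.pow 2).mul hZc).aestronglyMeasurable
      (Filter.Eventually.of_forall fun τ => ?_)
    rw [Real.norm_of_nonneg (mul_nonneg (sq_nonneg _) (hZpos τ).le)]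
    exact hM'Z τ
  have hm0 : 0 ≤ (μ univ).toReal := ENNReal.toReal_nonneg
  have hmomZ : ∫ τ, ‖τ‖ ^ 2 * Z τ ≤ (Real.sqrt (2 * (q + 1) * K)) ^ 2 * ∫ τ, Z τ := by
    have h1 : ∫ τ, ‖τ‖ ^ 2 * Z τ = G * ∫ x, (∑ j, ⟪e j, x⟫_ℝ ^ 2 + q * K) ∂μ := hZ2I
    have h2 : ∫ τ, Z τ = G * ∫ _x, (1 : ℝ) ∂μ := hZI
    rw [h1, h2, Real.sq_sqrt (by positivity)]
    have h3 : ∫ x, (∑ j, ⟪e j, x⟫_ℝ ^ 2 + q * K) ∂μ =
        ∑ j, ∫ x, ⟪e j, x⟫_ℝ ^ 2 ∂μ + q * K * (μ univ).toReal := by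
      rw [integral_add (integrable_finset_sum _ fun j _ => intg μ hb _ (by fun_prop))
        (integrable_const _), integral_const,
        integral_finset_sum _ fun j _ => intg μ hb _ (by fun_prop), smul_eq_mul,
        mul_comm ((q : ℝ) * K)]
      rfl
    have h4 : ∫ _x, (1 : ℝ) ∂μ = (μ univ).toReal := by
      rw [integral_const, smul_eq_mul, mul_one]
      rfl
    have h5 : ∑ j, ∫ x, ⟪e j, x⟫_ℝ ^ 2 ∂μ ≤ q * (K * (μ univ).toReal) := by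
      calc ∑ j, ∫ x, ⟪e j, x⟫_ℝ ^ 2 ∂μ ≤ ∑ _j : Fin q, K * (μ univ).toReal :=
            Finset.sum_le_sum fun j _ => hmom j
        _ = q * (K * (μ univ).toReal) := by simp
    rw [h3, h4]
    have h6 : ∑ j, ∫ x, ⟪e j, x⟫_ℝ ^ 2 ∂μ + q * K * (μ univ).toReal ≤
        2 * (q + 1) * K * (μ univ).toReal := by
      have h7 : 0 ≤ K * (μ univ).toReal := mul_nonneg hK.le hm0
      nlinarith
    calc G * (∑ j, ∫ x, ⟪e j, x⟫_ℝ ^ 2 ∂μ + q * K * (μ univ).toReal) ≤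
          G * (2 * (q + 1) * K * (μ univ).toReal) := mul_le_mul_of_nonneg_left h6 hGpos.le
      _ = 2 * (q + 1) * K * (G * (μ univ).toReal) := by ring
  obtain ⟨c, hc⟩ := crude Z M hZpos hZc hlcZ hZi (Real.sqrt (2 * (q + 1) * K))
    (Real.sqrt_pos.2 (by positivity)) hZ2i hmomZ hMc1 hMb hM'i
  rw [Real.sq_sqrt (by positivity)] at hc
  refine ⟨c, ?_⟩
  have hfin : ∫ τ, ‖fderiv ℝ M τ‖ ^ 2 * Z τ ≤ 25 * (G * J) := by
    calc ∫ τ, ‖fderiv ℝ M τ‖ ^ 2 * Z τ ≤ ∫ τ, 25 * D τ :=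
          integral_mono hM'i (hDi.const_mul 25) hM'Z
      _ = 25 * (G * J) := by rw [integral_const_mul, hDI]
  obtain ⟨hFi, hFI, -, -⟩ := tw_fub μ hb e K hK (fun x => (f x - c) ^ 2) (by fun_prop)
  obtain ⟨B, hB⟩ := hMb
  have hMi : Integrable fun τ => (M τ - c) ^ 2 * Z τ := by
    refine Integrable.mono' (hZi.const_mul ((B + |c|) ^ 2))
      (((hMc.sub continuous_const).pow 2).mul hZc).aestronglyMeasurable
      (Filter.Eventually.of_forall fun τ => ?_)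
    rw [Real.norm_of_nonneg (mul_nonneg (sq_nonneg _) (hZpos τ).le)]
    refine mul_le_mul_of_nonneg_right ?_ (hZpos τ).le
    rw [← sq_abs]
    refine pow_le_pow_left₀ (abs_nonneg _) ?_ 2
    exact (abs_sub _ _).trans (add_le_add (hB τ) le_rfl)
  have hpt : ∀ τ, ∫ x, (f x - c) ^ 2 * tw e K τ x ∂μ ≤ 5 * K * D τ + (M τ - c) ^ 2 * Z τ := by
    intro τ
    rw [expand μ hb f (tw e K τ) hfc (hWc τ) (M τ) (hMm τ) c]
    exact add_le_add (hvar f hf τ (M τ) (hMm τ)) le_rfl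
  have hint : G * ∫ x, (f x - c) ^ 2 ∂μ ≤ 5 * K * (G * J) + ∫ τ, (M τ - c) ^ 2 * Z τ := by
    calc G * ∫ x, (f x - c) ^ 2 ∂μ = ∫ τ, ∫ x, (f x - c) ^ 2 * tw e K τ x ∂μ := hFI.symm
      _ ≤ ∫ τ, (5 * K * D τ + (M τ - c) ^ 2 * Z τ) :=
        integral_mono hFi ((hDi.const_mul _).add hMi) hpt
      _ = 5 * K * (G * J) + ∫ τ, (M τ - c) ^ 2 * Z τ := by
        rw [integral_add (hDi.const_mul _) hMi, integral_const_mul, hDI]
  have h9 : G * ∫ x, (f x - c) ^ 2 ∂μ ≤ G * ((5 * K + 50 * C3 * (q + 1) * K) * J) := by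
    calc G * ∫ x, (f x - c) ^ 2 ∂μ ≤ 5 * K * (G * J) + ∫ τ, (M τ - c) ^ 2 * Z τ := hint
      _ ≤ 5 * K * (G * J) + C3 * (2 * (q + 1) * K) * (25 * (G * J)) := by
        refine add_le_add le_rfl (hc.trans ?_)
        exact mul_le_mul_of_nonneg_left hfin (by positivity)
      _ = G * ((5 * K + 50 * C3 * (q + 1) * K) * J) := by ring
  have h10 := le_of_mul_le_mul_left h9 hGpos
  have h11 : 0 ≤ q * K * J := mul_nonneg (mul_nonneg (Nat.cast_nonneg q) hK.le) hJ0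
  calc ∫ x, (f x - c) ^ 2 ∂μ ≤ (5 * K + 50 * C3 * (q + 1) * K) * J := h10
    _ ≤ (5 + 50 * C3) * (q + 1) * K * J := by nlinarith

end V5x

theorem untiltq : ∃ C : ℝ, 0 < C ∧ ∀ {κ : Type} [Fintype κ] {q : ℕ}
    (ρ : EuclideanSpace ℝ κ → ℝ), LC ρ →
    ∀ e : Fin q → EuclideanSpace ℝ κ, Orthonormal ℝ e → ∀ K : ℝ, 0 < K →
    (∀ j, ∫ x, ⟪e j, x⟫_ℝ ^ 2 ∂(mu ρ) ≤ K * (mu ρ univ).toReal) →
    (∀ (τ : EuclideanSpace ℝ (Fin q)) (f : EuclideanSpace ℝ κ → ℝ), ContDiff ℝ 1 f →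
      ∃ c : ℝ, ∫ x, (f x - c) ^ 2 * tw e K τ x ∂(mu ρ) ≤
        5 * K * ∫ x, ‖fderiv ℝ f x‖ ^ 2 * tw e K τ x ∂(mu ρ)) →
    ∀ f : EuclideanSpace ℝ κ → ℝ, ContDiff ℝ 1 f →
    ∃ c : ℝ, ∫ x, (f x - c) ^ 2 ∂(mu ρ) ≤
      C * (q + 1) * K * ∫ x, ‖fderiv ℝ f x‖ ^ 2 ∂(mu ρ) := by
  obtain ⟨C3, hC3, hcr⟩ := crude_all
  refine ⟨5 + 50 * C3, by positivity, ?_⟩
  intro κ _ q ρ hρ e he K hK hmom hloc f hf
  have : NeZero (mu ρ) := ⟨hρ.ne⟩
  have : IsFiniteMeasure (mu ρ) := ⟨lt_top_iff_ne_top.2 hρ.fin⟩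
  have hbd : ∃ R, mu ρ (Metric.closedBall 0 R)ᶜ = 0 := by
    obtain ⟨R, hR⟩ := hρ.bdd
    refine ⟨R, ?_⟩
    unfold mu
    rw [withDensity_apply _ Metric.isClosed_closedBall.measurableSet.compl]
    refine setLIntegral_eq_zero Metric.isClosed_closedBall.measurableSet.compl ?_
    intro x hx
    have h1 : R < ‖x‖ := by
      rw [mem_compl_iff, mem_closedBall_zero_iff, not_le] at hx
      exact hx
    show ENNReal.ofReal (ρ x) = 0
    rw [hR x h1]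
    simp
  exact V5x.main C3 hC3 (fun Z M => hcr Z M) (mu ρ) hbd e he K hK hmom
    (fun a b t ht0 ht1 => tw_lc ρ hρ.nonneg hρ.meas hρ.logc hρ.fin e K hK a b t ht0 ht1)
    hloc f hf

end Pool.Agent.H888R2.KT
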