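import Pool.Agent.H888R2.KT.Defs
import Pool.Agent.H888R2.KT.C2
import Pool.Agent.H888R2.KT.G2
import Pool.Agent.H212R2.KLS.G2

/-!
# KT G3 (helper177): removing the boundedness of the support (adapted from KC/G3.lean, helper439)
-/

set_option autoImplicit false

namespace Pool.Agent.H888R2.KT

open MeasureTheory Set Matrix Filter Pool.Agent.H888R2.KC
open scoped ENNReal InnerProductSpace Topology
open Pool.Agent.H212R2.KLS (mu Bdd ev gr)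

theorem mainq : ∃ C : ℝ, 0 < C ∧ ∀ {𝕜 : Type} [RCLike 𝕜] {N q : ℕ} {ι : Type} [Fintype ι]
    {Φ : EuclideanSpace ℝ ι →ₗ[ℝ] Matrix (Fin N) (Fin N) 𝕜}, Fr Φ → 3 ≤ N → 1 ≤ q →
    ∀ ρ : EuclideanSpace ℝ (Fin q × ι) → ℝ, DT Φ ρ → mu ρ univ = 1 → ∀ s : ℝ, 0 < s →
    (∀ θ : EuclideanSpace ℝ (Fin q × ι), ∫⁻ x, ENNReal.ofReal (⟪θ, x⟫_ℝ ^ 2) ∂(mu ρ) ≤
      ENNReal.ofReal (s * ‖θ‖ ^ 2)) →
    ∀ f : EuclideanSpace ℝ (Fin q × ι) → ℝ, ContDiff ℝ 1 f → MemLp f 2 (mu ρ) →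
    ENNReal.ofReal (∫ x, (f x - ∫ y, f y ∂(mu ρ)) ^ 2 ∂(mu ρ)) ≤
      ENNReal.ofReal (C * q ^ 4 * s) * ∫⁻ x, ENNReal.ofReal (‖fderiv ℝ f x‖ ^ 2) ∂(mu ρ) := by
  obtain ⟨C, hC, hcore⟩ := coreq
  refine ⟨C, hC, ?_⟩
  intro 𝕜 _ N q ι _ Φ hΦ hN hq ρ hρ h1 s hs hmom f hf hfL
  have hq0 : (0:ℝ) < q := by exact_mod_cast hq
  have hprob : IsProbabilityMeasure (mu ρ) := ⟨h1⟩
  by_cases hI : ∫⁻ x, ENNReal.ofReal (‖fderiv ℝ f x‖ ^ 2) ∂(mu ρ) = ⊤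
  · rw [hI, ENNReal.mul_top (by
      rw [Ne, ENNReal.ofReal_eq_zero, not_le]
      positivity)]
    exact le_top
  obtain ⟨I, hIdef⟩ : ∃ I : ℝ, I = (∫⁻ x, ENNReal.ofReal (‖fderiv ℝ f x‖ ^ 2) ∂(mu ρ)).toReal :=
    ⟨_, rfl⟩
  have hI0 : 0 ≤ I := by rw [hIdef]; exact ENNReal.toReal_nonneg
  have hgrad_meas : Continuous fun x => ‖fderiv ℝ f x‖ ^ 2 :=
    ((hf.continuous_fderiv (by norm_num)).norm).pow 2
  have hf2 : Integrable (fun x => f x ^ 2) (mu ρ) := hfL.integrable_sq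
  have hf1 : Integrable f (mu ρ) := hfL.integrable (by norm_num)
  have key : ∀ᶠ k : ℕ in atTop,
      ((mu ρ).real {x : EuclideanSpace ℝ (Fin q × ι) | ‖x‖ ≤ k})⁻¹ *
        (∫ x in {x : EuclideanSpace ℝ (Fin q × ι) | ‖x‖ ≤ k}, f x ^ 2 ∂(mu ρ)) -
        (((mu ρ).real {x : EuclideanSpace ℝ (Fin q × ι) | ‖x‖ ≤ k})⁻¹ *
          ∫ x in {x : EuclideanSpace ℝ (Fin q × ι) | ‖x‖ ≤ k}, f x ∂(mu ρ)) ^ 2 ≤
      C * q ^ 4 * (s * ((mu ρ).real {x : EuclideanSpace ℝ (Fin q × ι) | ‖x‖ ≤ k})⁻¹) *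
        (((mu ρ).real {x : EuclideanSpace ℝ (Fin q × ι) | ‖x‖ ≤ k})⁻¹ * I) := by
    have hev : ∀ᶠ k : ℕ in atTop, 0 < (mu ρ).real {x : EuclideanSpace ℝ (Fin q × ι) | ‖x‖ ≤ k} :=
      (H212R2.KLS.g2_mass (mu ρ)).eventually (lt_mem_nhds one_pos)
    filter_upwards [hev] with k hk
    obtain ⟨B, hBdef⟩ : ∃ B : Set (EuclideanSpace ℝ (Fin q × ι)), B = {x | ‖x‖ ≤ k} := ⟨_, rfl⟩
    have hBm : MeasurableSet B := by
      rw [hBdef]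
      exact measurableSet_le measurable_norm measurable_const
    rw [← hBdef] at hk ⊢
    obtain ⟨M, hM⟩ : ∃ M : ℝ, M = (mu ρ).real B := ⟨_, rfl⟩
    rw [← hM] at hk ⊢
    have hMi : 0 ≤ M⁻¹ := (inv_pos.2 hk).le
    have hd : DT Φ (fun x => M⁻¹ * B.indicator ρ x) := by
      have hb1 : DT Φ (B.indicator ρ) := by
        rw [hBdef]
        exact (DT.basic hΦ (by omega) hρ).2.2.1 k
      exact (DT.basic hΦ (by omega) hb1).2.2.2.1 _ hMi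
    have hb : Bdd (fun x => M⁻¹ * B.indicator ρ x) := by
      refine ⟨k, fun x hx => ?_⟩
      show M⁻¹ * B.indicator ρ x = 0
      rw [indicator_of_notMem, mul_zero]
      rw [hBdef]
      exact not_le.2 hx
    have hmu := H212R2.KLS.g2_mu ρ hρ.nonneg hρ.meas B hBm M⁻¹ hMi
    have hmass : mu (fun x => M⁻¹ * B.indicator ρ x) univ = 1 := by
      rw [hmu, Measure.smul_apply, Measure.restrict_apply_univ, smul_eq_mul]
      have h2 : mu ρ B = ENNReal.ofReal M := by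
        rw [hM, Measure.real, ENNReal.ofReal_toReal (measure_ne_top _ _)]
      rw [h2, ← ENNReal.ofReal_mul hMi, inv_mul_cancel₀ hk.ne', ENNReal.ofReal_one]
    have hint : ∀ g : EuclideanSpace ℝ (Fin q × ι) → ℝ, ∫ x, g x ∂(mu (fun x => M⁻¹ * B.indicator ρ x)) =
        M⁻¹ * ∫ x in B, g x ∂(mu ρ) := by
      intro g
      rw [hmu, integral_smul_measure, ENNReal.toReal_ofReal hMi, smul_eq_mul]
    -- a nonnegative function has a smaller integral over `B`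
    have hle : ∀ g : EuclideanSpace ℝ (Fin q × ι) → ℝ, Continuous g → (∀ x, 0 ≤ g x) → ∀ a : ℝ, 0 ≤ a →
        ∫⁻ x, ENNReal.ofReal (g x) ∂(mu ρ) ≤ ENNReal.ofReal a → ∫ x in B, g x ∂(mu ρ) ≤ a := by
      intro g hg hg0 a ha hga
      rw [integral_eq_lintegral_of_nonneg_ae (Eventually.of_forall hg0)
        hg.aestronglyMeasurable]
      apply ENNReal.toReal_le_of_le_ofReal ha
      exact le_trans (setLIntegral_le_lintegral _ _) hga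
    have hmom' : ∀ θ : EuclideanSpace ℝ (Fin q × ι),
        ∫ x, ⟪θ, x⟫_ℝ ^ 2 ∂(mu (fun x => M⁻¹ * B.indicator ρ x)) ≤ (s * M⁻¹) * ‖θ‖ ^ 2 := by
      intro θ
      rw [hint]
      have h2 := hle (fun x => ⟪θ, x⟫_ℝ ^ 2) (by fun_prop) (fun x => sq_nonneg _) (s * ‖θ‖ ^ 2)
        (by positivity) (hmom θ)
      calc M⁻¹ * ∫ x in B, ⟪θ, x⟫_ℝ ^ 2 ∂(mu ρ) ≤ M⁻¹ * (s * ‖θ‖ ^ 2) :=
            mul_le_mul_of_nonneg_left h2 hMi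
        _ = (s * M⁻¹) * ‖θ‖ ^ 2 := by ring
    have h3 := hcore hΦ hN hq _ hd hb hmass (s * M⁻¹) (mul_pos hs (inv_pos.2 hk)) hmom' f hf
    rw [hint, hint, hint] at h3
    refine h3.trans ?_
    have h4 : ∫ x in B, ‖fderiv ℝ f x‖ ^ 2 ∂(mu ρ) ≤ I := by
      apply hle _ hgrad_meas (fun x => sq_nonneg _) I hI0
      rw [hIdef, ENNReal.ofReal_toReal hI]
    have h5 : 0 ≤ C * q ^ 4 * (s * M⁻¹) := by positivity
    exact mul_le_mul_of_nonneg_left (mul_le_mul_of_nonneg_left h4 hMi) h5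
  have hM1 : Tendsto (fun k : ℕ => ((mu ρ).real {x : EuclideanSpace ℝ (Fin q × ι) | ‖x‖ ≤ k})⁻¹)
      atTop (𝓝 1) := by
    have := (H212R2.KLS.g2_mass (mu ρ)).inv₀ one_ne_zero
    rwa [inv_one] at this
  have hL : Tendsto (fun k : ℕ =>
      ((mu ρ).real {x : EuclideanSpace ℝ (Fin q × ι) | ‖x‖ ≤ k})⁻¹ *
        (∫ x in {x : EuclideanSpace ℝ (Fin q × ι) | ‖x‖ ≤ k}, f x ^ 2 ∂(mu ρ)) -
        (((mu ρ).real {x : EuclideanSpace ℝ (Fin q × ι) | ‖x‖ ≤ k})⁻¹ *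
          ∫ x in {x : EuclideanSpace ℝ (Fin q × ι) | ‖x‖ ≤ k}, f x ∂(mu ρ)) ^ 2)
      atTop (𝓝 (1 * (∫ x, f x ^ 2 ∂(mu ρ)) - (1 * ∫ x, f x ∂(mu ρ)) ^ 2)) :=
    (hM1.mul (H212R2.KLS.g2_lim (mu ρ) _ hf2)).sub
      ((hM1.mul (H212R2.KLS.g2_lim (mu ρ) _ hf1)).pow 2)
  have hR : Tendsto (fun k : ℕ =>
        C * q ^ 4 * (s * ((mu ρ).real {x : EuclideanSpace ℝ (Fin q × ι) | ‖x‖ ≤ k})⁻¹) *
        (((mu ρ).real {x : EuclideanSpace ℝ (Fin q × ι) | ‖x‖ ≤ k})⁻¹ * I))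
      atTop (𝓝 (C * q ^ 4 * (s * 1) * (1 * I))) :=
    ((hM1.const_mul s).const_mul (C * q ^ 4)).mul (hM1.mul_const I)
  have hfin := le_of_tendsto_of_tendsto hL hR key
  have hvar : ∫ x, (f x - ∫ y, f y ∂(mu ρ)) ^ 2 ∂(mu ρ) =
      ∫ x, f x ^ 2 ∂(mu ρ) - (∫ x, f x ∂(mu ρ)) ^ 2 := by
    obtain ⟨a, ha⟩ : ∃ a : ℝ, a = ∫ y, f y ∂(mu ρ) := ⟨_, rfl⟩
    rw [← ha]
    have h2 : ∀ x, (f x - a) ^ 2 = (f x ^ 2 - 2 * a * f x) + a ^ 2 := fun x => by ring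
    simp_rw [h2]
    have h3 : Integrable (fun x => 2 * a * f x) (mu ρ) := hf1.const_mul _
    have h4 : Integrable (fun x => f x ^ 2 - 2 * a * f x) (mu ρ) := hf2.sub h3
    rw [integral_add h4 (integrable_const _), integral_sub hf2 h3, integral_const_mul, ← ha]
    simp
    ring
  rw [hvar]
  have h6 : ∫ x, f x ^ 2 ∂(mu ρ) - (∫ x, f x ∂(mu ρ)) ^ 2 ≤ C * q ^ 4 * s * I := by
    have : C * (q:ℝ) ^ 4 * (s * 1) * (1 * I) = C * q ^ 4 * s * I := by ring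
    rw [this] at hfin
    simpa using hfin
  calc ENNReal.ofReal (∫ x, f x ^ 2 ∂(mu ρ) - (∫ x, f x ∂(mu ρ)) ^ 2)
      ≤ ENNReal.ofReal (C * q ^ 4 * s * I) := ENNReal.ofReal_le_ofReal h6
    _ = ENNReal.ofReal (C * q ^ 4 * s) * ∫⁻ x, ENNReal.ofReal (‖fderiv ℝ f x‖ ^ 2) ∂(mu ρ) := by
      rw [ENNReal.ofReal_mul (by positivity), hIdef, ENNReal.ofReal_toReal hI]

end Pool.Agent.H888R2.KT
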