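import Pool.Agent.H888R2.KT.Defs
import Pool.Agent.H888R2.KT.Defs
import Pool.Agent.H888R2.KT.C2
import Pool.Agent.H888R2.KT.G3
import Pool.Agent.H888R2.KC.G4

/-!
# G4: general mean (tuples)
-/

set_option autoImplicit false

namespace Pool.Agent.H888R2.KT

open MeasureTheory Set Matrix Pool.Agent.H888R2.KC
open scoped ENNReal InnerProductSpace
open Pool.Agent.H212R2.KLS (mu Bdd ev gr)

open Pool.Agent.H888R2.KC.G4x in
theorem mainq_centered : ∃ C : ℝ, 0 < C ∧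
    ∀ {𝕜 : Type} [RCLike 𝕜] {N q : ℕ} {ι : Type} [Fintype ι]
    {Φ : EuclideanSpace ℝ ι →ₗ[ℝ] Matrix (Fin N) (Fin N) 𝕜}, Fr Φ → 3 ≤ N → 1 ≤ q →
    ∀ ρ : EuclideanSpace ℝ (Fin q × ι) → ℝ, DT Φ ρ → mu ρ univ = 1 → ∀ s : ℝ, 0 < s →
    (∀ θ : EuclideanSpace ℝ (Fin q × ι), ProbabilityTheory.evariance (fun x => ⟪θ, x⟫_ℝ) (mu ρ) ≤
      ENNReal.ofReal (s * ‖θ‖ ^ 2)) →
    ∀ f : EuclideanSpace ℝ (Fin q × ι) → ℝ, ContDiff ℝ 1 f → MemLp f 2 (mu ρ) →
    ENNReal.ofReal (∫ x, (f x - ∫ y, f y ∂(mu ρ)) ^ 2 ∂(mu ρ)) ≤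
      ENNReal.ofReal (C * q ^ 4 * s) * ∫⁻ x, ENNReal.ofReal (‖fderiv ℝ f x‖ ^ 2) ∂(mu ρ) := by
  obtain ⟨C, hC, H⟩ := mainq
  refine ⟨C, hC, ?_⟩
  intro 𝕜 _ N q ι _ Φ hΦ hN hq ρ hρ h1 s hs hvar f hf hf2
  classical
  have : IsProbabilityMeasure (mu ρ) := ⟨h1⟩
  have hL2 : ∀ θ : EuclideanSpace ℝ (Fin q × ι),
      MemLp (fun x : EuclideanSpace ℝ (Fin q × ι) => ⟪θ, x⟫_ℝ) 2 (mu ρ) := by
    intro θ
    have hmeas : AEStronglyMeasurable (fun x : EuclideanSpace ℝ (Fin q × ι) => ⟪θ, x⟫_ℝ)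
        (mu ρ) := by
      have : Continuous (fun x : EuclideanSpace ℝ (Fin q × ι) => ⟪θ, x⟫_ℝ) := by fun_prop
      exact this.aestronglyMeasurable
    rw [← ProbabilityTheory.evariance_lt_top_iff_memLp hmeas]
    exact lt_of_le_of_lt (hvar θ) ENNReal.ofReal_lt_top
  have hint : ∀ k, Integrable (fun x : EuclideanSpace ℝ (Fin q × ι) => x k) (mu ρ) := by
    intro k
    have h2 := (hL2 (EuclideanSpace.single k 1)).integrable (by norm_num)
    refine h2.congr ?_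
    filter_upwards with x
    rw [EuclideanSpace.inner_single_left]
    simp
  set a := mean (mu ρ) with ha
  have hcj : ∀ U ∈ Matrix.unitaryGroup (Fin N) 𝕜, di q (cj Φ U) a = a := by
    intro U hU
    have hmap := (DT.basic hΦ (by omega) hρ).1 U hU
    have hc : Continuous (di q (cj Φ U)) := LinearMap.continuous_of_finiteDimensional _
    ext j
    let L : EuclideanSpace ℝ (Fin q × ι) →ₗ[ℝ] ℝ :=
      (EuclideanSpace.proj j : EuclideanSpace ℝ (Fin q × ι) →L[ℝ] ℝ)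
    have h2 := lin_mean (mu ρ) hint (L ∘ₗ di q (cj Φ U))
    have h3 : ∫ y : EuclideanSpace ℝ (Fin q × ι), y j ∂((mu ρ).map (di q (cj Φ U))) =
        ∫ x, (di q (cj Φ U) x) j ∂(mu ρ) := by
      refine integral_map hc.measurable.aemeasurable ?_
      have : Continuous (fun y : EuclideanSpace ℝ (Fin q × ι) => y j) := by fun_prop
      exact this.aestronglyMeasurable
    rw [hmap] at h3
    have h4 : (L ∘ₗ di q (cj Φ U)) (mean (mu ρ)) = (di q (cj Φ U) a) j := rfl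
    rw [← h4, h2]
    exact h3.symm
  have hρ' : DT Φ (fun x => ρ (x + a)) := by
    refine ⟨fun x => hρ.nonneg _, hρ.meas.comp (measurable_add_const a), ?_, ?_⟩
    · intro x y t ht0 ht1
      have h2 := hρ.logc (x + a) (y + a) t ht0 ht1
      have h3 : (1 - t) • (x + a) + t • (y + a) = (1 - t) • x + t • y + a := by
        module
      rw [h3] at h2
      exact h2
    · intro U hU x
      have h2 : di q (cj Φ U) x + a = di q (cj Φ U) (x + a) := by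
        rw [map_add, hcj U hU]
      show ρ (di q (cj Φ U) x + a) = ρ (x + a)
      rw [h2]
      exact hρ.inv U hU _
  have hmap := map_shift ρ hρ.meas a
  have hemb : MeasurableEmbedding (fun x : EuclideanSpace ℝ (Fin q × ι) => x + a) :=
    measurableEmbedding_addRight a
  have h1' : mu (fun x => ρ (x + a)) univ = 1 := by
    have h2 := congrArg (fun m : Measure (EuclideanSpace ℝ (Fin q × ι)) => m univ) hmap
    rw [Measure.map_apply (measurable_add_const a) MeasurableSet.univ, preimage_univ, h1] at h2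
    exact h2
  have hI : ∀ g : EuclideanSpace ℝ (Fin q × ι) → ℝ,
      ∫ x, g x ∂(mu ρ) = ∫ x, g (x + a) ∂(mu fun x => ρ (x + a)) := by
    intro g
    conv_lhs => rw [← hmap]
    exact hemb.integral_map g
  have hLI : ∀ g : EuclideanSpace ℝ (Fin q × ι) → ℝ≥0∞,
      ∫⁻ x, g x ∂(mu ρ) = ∫⁻ x, g (x + a) ∂(mu fun x => ρ (x + a)) := by
    intro g
    conv_lhs => rw [← hmap]
    exact hemb.lintegral_map g
  have hvar' : ∀ θ : EuclideanSpace ℝ (Fin q × ι),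
      ∫⁻ x, ENNReal.ofReal (⟪θ, x⟫_ℝ ^ 2) ∂(mu fun x => ρ (x + a)) ≤
        ENNReal.ofReal (s * ‖θ‖ ^ 2) := by
    intro θ
    have h2 := hvar θ
    unfold ProbabilityTheory.evariance at h2
    rw [hLI] at h2
    refine le_trans (le_of_eq ?_) h2
    refine lintegral_congr fun x => ?_
    have h3 : ∫ x, ⟪θ, x⟫_ℝ ∂(mu ρ) = ⟪θ, a⟫_ℝ := by
      have h4 := lin_mean (mu ρ) hint (innerₛₗ ℝ θ)
      simp only [innerₛₗ_apply_apply] at h4
      exact h4.symm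
    rw [h3]
    show ENNReal.ofReal (⟪θ, x⟫_ℝ ^ 2) = ‖⟪θ, x + a⟫_ℝ - ⟪θ, a⟫_ℝ‖ₑ ^ 2
    rw [inner_add_right, add_sub_cancel_right, ← ofReal_norm,
      ← ENNReal.ofReal_pow (norm_nonneg _), Real.norm_eq_abs, sq_abs]
  have hg : ContDiff ℝ 1 (fun x => f (x + a)) := hf.comp (contDiff_id.add contDiff_const)
  have hg2 : MemLp (fun x => f (x + a)) 2 (mu fun x => ρ (x + a)) := by
    rw [← hmap] at hf2
    exact (hemb.memLp_map_measure_iff).mp hf2
  have key := H hΦ hN hq (fun x => ρ (x + a)) hρ' h1' s hs hvar' (fun x => f (x + a)) hg hg2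
  have e1 : ∫ x, (f x - ∫ y, f y ∂(mu ρ)) ^ 2 ∂(mu ρ) =
      ∫ x, (f (x + a) - ∫ y, f (y + a) ∂(mu fun x => ρ (x + a))) ^ 2
        ∂(mu fun x => ρ (x + a)) := by
    rw [hI (fun x => (f x - ∫ y, f y ∂(mu ρ)) ^ 2), hI f]
  have e2 : ∫⁻ x, ENNReal.ofReal (‖fderiv ℝ f x‖ ^ 2) ∂(mu ρ) =
      ∫⁻ x, ENNReal.ofReal (‖fderiv ℝ (fun x => f (x + a)) x‖ ^ 2)
        ∂(mu fun x => ρ (x + a)) := by
    rw [hLI (fun x => ENNReal.ofReal (‖fderiv ℝ f x‖ ^ 2))]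
    refine lintegral_congr fun x => ?_
    rw [fderiv_comp_add_right]
  rw [e1, e2]
  exact key

end Pool.Agent.H888R2.KT
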