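import Pool.Agent.H888R2.KT.Defs

/-!
# KLS for tuples of Hermitian matrices invariant under simultaneous conjugation: all statements
-/

set_option autoImplicit false

namespace Pool.Agent.H888R2.KT.Stubs

open MeasureTheory Set Matrix Pool.Agent.H888R2.KC Pool.Agent.H888R2.KT
open scoped ENNReal InnerProductSpace
open Pool.Agent.H212R2.KLS (mu Bdd ev gr)

/-! ## N: the Gaussian channel -/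

section channel

variable {κ : Type} [Fintype κ] {ρ : EuclideanSpace ℝ κ → ℝ}

-- N1
theorem bl_lin (w : EuclideanSpace ℝ κ → ℝ) (hw : ∀ x, 0 ≤ w x) (hwm : Measurable w)
    (hwb : ∃ B, ∀ x, w x ≤ B) (hws : Bdd w) (S : EuclideanSpace ℝ κ ≃L[ℝ] EuclideanSpace ℝ κ)
    (hmid : ∀ x y, w x * w y ≤ (w ((1 / 2 : ℝ) • (x + y))) ^ 2 *
      Real.exp (-(‖S.symm (x - y)‖ ^ 2 / 4)))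
    (f : EuclideanSpace ℝ κ → ℝ) (hf : ContDiff ℝ 1 f) :
    ∃ c : ℝ, ∫ x, (f x - c) ^ 2 * w x ≤
      ∫ x, ‖(fderiv ℝ f x).comp (S : EuclideanSpace ℝ κ →L[ℝ] EuclideanSpace ℝ κ)‖ ^ 2 * w x := sorry

-- N2
theorem ball_poincare (hρ : LC ρ) (R : ℝ) (hR : 0 < R) (hs : ∀ x, R < ‖x‖ → ρ x = 0)
    (f : EuclideanSpace ℝ κ → ℝ) (hf : ContDiff ℝ 1 f) :
    ∃ c : ℝ, ∫ x, (f x - c) ^ 2 ∂(mu ρ) ≤ 2 * R ^ 2 * ∫ x, ‖fderiv ℝ f x‖ ^ 2 ∂(mu ρ) := sorry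

-- N0
theorem zz_pos (hρ : LC ρ) (h : ℝ) (hh : 0 < h) (y : EuclideanSpace ℝ κ) :
    0 < zz h ρ y ∧ (∀ u : EuclideanSpace ℝ κ → ℝ, Continuous u →
      Integrable (fun x => u x * Real.exp (-(‖x - y‖ ^ 2 / (2 * h)))) (mu ρ)) := sorry

theorem gc_pos (h : ℝ) (hh : 0 < h) : 0 < gc κ h ∧
    (∀ x : EuclideanSpace ℝ κ, ∫ y, Real.exp (-(‖x - y‖ ^ 2 / (2 * h))) = gc κ h) ∧
    (∀ x : EuclideanSpace ℝ κ, Integrable fun y => Real.exp (-(‖x - y‖ ^ 2 / (2 * h)))) ∧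
    (∀ x : EuclideanSpace ℝ κ, Integrable fun y => ‖x - y‖ * Real.exp (-(‖x - y‖ ^ 2 / (2 * h)))) :=
  sorry

-- N0b
theorem gauss2 (h : ℝ) (hh : 0 < h) (w : EuclideanSpace ℝ κ) :
    Integrable (fun y : EuclideanSpace ℝ κ => ⟪y, w⟫_ℝ ^ 2 * Real.exp (-(‖y‖ ^ 2 / (2 * h)))) ∧
    ∫ y : EuclideanSpace ℝ κ, ⟪y, w⟫_ℝ ^ 2 * Real.exp (-(‖y‖ ^ 2 / (2 * h))) =
      h * ‖w‖ ^ 2 * gc κ h ∧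
    ∫ y : EuclideanSpace ℝ κ, ⟪y, w⟫_ℝ * Real.exp (-(‖y‖ ^ 2 / (2 * h))) = 0 := sorry

-- N3
theorem pst_deriv (hρ : LC ρ) (h : ℝ) (hh : 0 < h) (u : EuclideanSpace ℝ κ → ℝ)
    (hu : Continuous u) (y : EuclideanSpace ℝ κ) :
    DifferentiableAt ℝ (pst h ρ u) y ∧ ∀ w, fderiv ℝ (pst h ρ u) y w =
      h⁻¹ * (pst h ρ (fun x => u x * ⟪x, w⟫_ℝ) y - pst h ρ u y * pst h ρ (fun x => ⟪x, w⟫_ℝ) y) :=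
  sorry

-- N4
theorem pst_smooth (hρ : LC ρ) (h : ℝ) (hh : 0 < h) (u : EuclideanSpace ℝ κ → ℝ)
    (hu : Continuous u) :
    ContDiff ℝ 2 (pst h ρ u) ∧ ∃ B : ℝ, ∀ y, |pst h ρ u y| ≤ B ∧ ‖fderiv ℝ (pst h ρ u) y‖ ≤ B ∧
      ∀ w, ‖w‖ ≤ 1 → ‖fderiv ℝ (fun z => fderiv ℝ (pst h ρ u) z w) y‖ ≤ B := sorry

-- N5a
theorem post_bl (hρ : LC ρ) {q : ℕ} (e : Fin q → EuclideanSpace ℝ κ) (he : Orthonormal ℝ e)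
    (K : ℝ) (hK : 0 < K) (hT : St e K ρ) (h : ℝ) (hh : 0 < h) (f : EuclideanSpace ℝ κ → ℝ)
    (hf : ContDiff ℝ 1 f) (y : EuclideanSpace ℝ κ) :
    pst h ρ (fun x => f x ^ 2) y - (pst h ρ f y) ^ 2 ≤ pst h ρ (fun x =>
      h * ‖fderiv ℝ f x‖ ^ 2 - h ^ 2 / (h + K) * ∑ j, (fderiv ℝ f x (e j)) ^ 2) y := sorry

-- N5
theorem grad_contr (hρ : LC ρ) {q : ℕ} (e : Fin q → EuclideanSpace ℝ κ) (he : Orthonormal ℝ e)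
    (K : ℝ) (hK : 0 < K) (hT : St e K ρ) (h : ℝ) (hh : 0 < h) (u : EuclideanSpace ℝ κ → ℝ)
    (hu : ContDiff ℝ 1 u) (y : EuclideanSpace ℝ κ) :
    ‖fderiv ℝ (pst h ρ u) y‖ ^ 2 + h / K * ∑ j, (fderiv ℝ (pst h ρ u) y (e j)) ^ 2 ≤
      pst h ρ (fun x => ‖fderiv ℝ u x‖ ^ 2) y := sorry

-- N5b
theorem var_contr (hρ : LC ρ) (h : ℝ) (hh : 0 < h) (u : EuclideanSpace ℝ κ → ℝ)
    (hu : ContDiff ℝ 1 u) (y : EuclideanSpace ℝ κ) :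
    pst h ρ (fun x => u x ^ 2) y - (pst h ρ u y) ^ 2 ≤
      h * pst h ρ (fun x => ‖fderiv ℝ u x‖ ^ 2) y := sorry

-- N6a
theorem gs_deriv (h : ℝ) (hh : 0 < h) (φ : EuclideanSpace ℝ κ → ℝ) (hφ : ContDiff ℝ 1 φ) (B : ℝ)
    (hb : ∀ y, |φ y| ≤ B) (hb1 : ∀ y, ‖fderiv ℝ φ y‖ ≤ B) :
    ContDiff ℝ 1 (gs h φ) ∧
      ∀ x w, fderiv ℝ (gs h φ) x w = gs h (fun y => fderiv ℝ φ y w) x := sorry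

-- N6b
theorem gs_bessel (h : ℝ) (hh : 0 < h) (φ : EuclideanSpace ℝ κ → ℝ) (hφ : ContDiff ℝ 1 φ) (B : ℝ)
    (hb : ∀ y, |φ y| ≤ B) (hb1 : ∀ y, ‖fderiv ℝ φ y‖ ≤ B) (x : EuclideanSpace ℝ κ) :
    h * ‖fderiv ℝ (gs h φ) x‖ ^ 2 ≤ gs h (fun y => φ y ^ 2) x - (gs h φ x) ^ 2 := sorry

-- N7
theorem fub (hρ : LC ρ) (h : ℝ) (hh : 0 < h) (u φ : EuclideanSpace ℝ κ → ℝ) (hu : Continuous u)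
    (hφ : Continuous φ) (B : ℝ) (hb : ∀ y, |φ y| ≤ B) :
    Integrable (fun y => pst h ρ u y * φ y * zz h ρ y) ∧ Continuous (gs h φ) ∧
      ∫ x, u x * gs h φ x ∂(mu ρ) = (gc κ h)⁻¹ * ∫ y, pst h ρ u y * φ y * zz h ρ y := sorry

-- N8
theorem key (hρ : LC ρ) {q : ℕ} (e : Fin q → EuclideanSpace ℝ κ) (he : Orthonormal ℝ e)
    (K : ℝ) (hK : 0 < K) (hT : St e K ρ) (h : ℝ) (hh : 0 < h) (u : EuclideanSpace ℝ κ → ℝ)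
    (hu : ContDiff ℝ 1 u) :
    ContDiff ℝ 2 (gs h (pst h ρ u)) ∧
    ∫ x, (‖fderiv ℝ (gs h (pst h ρ u)) x‖ ^ 2 + h * hs (gs h (pst h ρ u)) x +
      h / K * ∑ j, (fderiv ℝ (gs h (pst h ρ u)) x (e j)) ^ 2) ∂(mu ρ) ≤
      ∫ x, ‖fderiv ℝ u x‖ ^ 2 ∂(mu ρ) := sorry

-- N9a
theorem l2step (hρ : LC ρ) (h : ℝ) (hh : 0 < h) (u : EuclideanSpace ℝ κ → ℝ)
    (hu : ContDiff ℝ 1 u) :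
    ∫ x, gs h (pst h ρ u) x ∂(mu ρ) = ∫ x, u x ∂(mu ρ) ∧
    ∫ x, u x ^ 2 ∂(mu ρ) - ∫ x, (gs h (pst h ρ u) x) ^ 2 ∂(mu ρ) ≤
      2 * h * ∫ x, ‖fderiv ℝ u x‖ ^ 2 ∂(mu ρ) := sorry

-- N9
theorem iter (hρ : LC ρ) {q : ℕ} (e : Fin q → EuclideanSpace ℝ κ) (he : Orthonormal ℝ e)
    (K : ℝ) (hK : 0 < K) (hT : St e K ρ) (Θ : ℝ) (hΘ : K ≤ Θ) (S : Set (EuclideanSpace ℝ κ → ℝ))
    (hS : ∀ u ∈ S, ContDiff ℝ 1 u → gs Θ (pst Θ ρ u) ∈ S)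
    (hS2 : ∀ v ∈ S, ContDiff ℝ 2 v → ∀ x, ρ x ≠ 0 →
      ‖fderiv ℝ v x‖ ^ 2 - ∑ j, (fderiv ℝ v x (e j)) ^ 2 ≤ Θ * hs v x)
    (u : EuclideanSpace ℝ κ → ℝ) (hu : u ∈ S) (hu1 : ContDiff ℝ 1 u) :
    ∃ c : ℝ, ∫ x, (u x - c) ^ 2 ∂(mu ρ) ≤ 4 * Θ * ∫ x, ‖fderiv ℝ u x‖ ^ 2 ∂(mu ρ) := sorry

-- N10
theorem equiv (hρ : LC ρ) (h : ℝ) (g : EuclideanSpace ℝ κ ≃ₗᵢ[ℝ] EuclideanSpace ℝ κ)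
    (hg : ∀ x, ρ (g x) = ρ x) (u : EuclideanSpace ℝ κ → ℝ) (hu : ∀ x, u (g x) = u x)
    (x : EuclideanSpace ℝ κ) : gs h (pst h ρ u) (g x) = gs h (pst h ρ u) x := sorry

-- N11
theorem inv_hess {κ' : Type} [Fintype κ']
    (A : κ' → (EuclideanSpace ℝ κ →ₗ[ℝ] EuclideanSpace ℝ κ))
    (hA : ∀ k x y, ⟪A k x, y⟫_ℝ = - ⟪x, A k y⟫_ℝ) {q : ℕ} (e : Fin q → EuclideanSpace ℝ κ)
    (cV : ℝ) (hcas : ∀ w, cV * (‖w‖ ^ 2 - ∑ j, ⟪e j, w⟫_ℝ ^ 2) ≤ ∑ k, ‖A k w‖ ^ 2)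
    (v : EuclideanSpace ℝ κ → ℝ) (hv : ContDiff ℝ 2 v) (hinv : ∀ k x, fderiv ℝ v x (A k x) = 0)
    (x : EuclideanSpace ℝ κ) (L : ℝ) (hL : ∀ w, ∑ k, ⟪w, A k x⟫_ℝ ^ 2 ≤ L * ‖w‖ ^ 2) :
    cV * (‖fderiv ℝ v x‖ ^ 2 - ∑ j, (fderiv ℝ v x (e j)) ^ 2) ≤ L * hs v x := sorry

-- N12
theorem gen_local {κ' : Type} [Fintype κ']
    (A : κ' → (EuclideanSpace ℝ κ →ₗ[ℝ] EuclideanSpace ℝ κ))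
    (hA : ∀ k x y, ⟪A k x, y⟫_ℝ = - ⟪x, A k y⟫_ℝ)
    (c : κ' → κ' → κ' → ℝ) (hc1 : ∀ i j k, c j i k = - c i j k) (hc2 : ∀ i j k, c i k j = - c i j k)
    (hcomm : ∀ i j x, A i (A j x) - A j (A i x) = ∑ k, c i j k • A k x) (κ0 : ℝ) (hκ : 0 < κ0)
    (hkil : ∀ k x, ∑ l, (∑ i, ∑ j, c i j k * c i j l) • A l x = κ0 • A k x)
    {q : ℕ} (e : Fin q → EuclideanSpace ℝ κ) (he : Orthonormal ℝ e)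
    (cV : ℝ) (hcV : 0 < cV) (hcas : ∀ w, cV * (‖w‖ ^ 2 - ∑ j, ⟪e j, w⟫_ℝ ^ 2) ≤ ∑ k, ‖A k w‖ ^ 2)
    (hρ : LC ρ) (K : ℝ) (hK : 0 < K) (hT : St e K ρ) (L : ℝ) (hL0 : 0 ≤ L)
    (hL : ∀ x, ρ x ≠ 0 → ∀ w, ∑ k, ⟪w, A k x⟫_ℝ ^ 2 ≤ L * ‖w‖ ^ 2)
    (G : Set (EuclideanSpace ℝ κ ≃ₗᵢ[ℝ] EuclideanSpace ℝ κ)) (hG : ∀ g ∈ G, ∀ x, ρ (g x) = ρ x)
    (hG1 : ∀ v : EuclideanSpace ℝ κ → ℝ, ContDiff ℝ 1 v → (∀ g ∈ G, ∀ x, v (g x) = v x) →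
      ∀ k x, fderiv ℝ v x (A k x) = 0)
    (hG2 : ∀ p : MvPolynomial κ ℝ, (∀ k, dl (A k) p = 0) → ∀ g ∈ G, ∀ x, ev p (g x) = ev p x)
    (hint : ∀ k p, ∫ x, ev (dl (A k) p) x ∂(mu ρ) = 0)
    (f : EuclideanSpace ℝ κ → ℝ) (hf : ContDiff ℝ 1 f) :
    ∃ c : ℝ, ∫ x, (f x - c) ^ 2 ∂(mu ρ) ≤
      (4 * L / κ0 + 4 * max K (L / cV)) * ∫ x, ‖fderiv ℝ f x‖ ^ 2 ∂(mu ρ) := sorry

end channel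

/-! ## C: tuples -/

section tuples

variable {𝕜 : Type} [RCLike 𝕜] {N q : ℕ} {ι : Type} [Fintype ι]
  {Φ : EuclideanSpace ℝ ι →ₗ[ℝ] Matrix (Fin N) (Fin N) 𝕜}

-- C1
theorem inner_cp (x y : EuclideanSpace ℝ (Fin q × ι)) :
    ⟪x, y⟫_ℝ = ∑ j, ⟪cp j x, cp j y⟫_ℝ := sorry

theorem norm_cp (x : EuclideanSpace ℝ (Fin q × ι)) : ‖x‖ ^ 2 = ∑ j, ‖cp j x‖ ^ 2 := sorry

theorem cp_di (A : EuclideanSpace ℝ ι →ₗ[ℝ] EuclideanSpace ℝ ι)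
    (x : EuclideanSpace ℝ (Fin q × ι)) (j : Fin q) : cp j (di q A x) = A (cp j x) := sorry

theorem ext_cp (x y : EuclideanSpace ℝ (Fin q × ι)) (h : ∀ j, cp j x = cp j y) : x = y := sorry

theorem cp_inj (v : EuclideanSpace ℝ ι) (i j : Fin q) :
    cp i (inj v j) = if i = j then v else 0 := sorry

theorem inner_inj (v : EuclideanSpace ℝ ι) (j : Fin q) (x : EuclideanSpace ℝ (Fin q × ι)) :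
    ⟪inj v j, x⟫_ℝ = ⟪v, cp j x⟫_ℝ := sorry

theorem orth_inj (h : Fr Φ) (hN : 1 ≤ N) :
    Orthonormal ℝ (fun j : Fin q => inj (tv Φ) j) := sorry

-- C1b
theorem di_iso (h : Fr Φ) (U : Matrix (Fin N) (Fin N) 𝕜)
    (hU : U ∈ Matrix.unitaryGroup (Fin N) 𝕜) :
    ∃ g : EuclideanSpace ℝ (Fin q × ι) ≃ₗᵢ[ℝ] EuclideanSpace ℝ (Fin q × ι),
      ∀ x, g x = di q (cj Φ U) x := sorry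

theorem di_mp (h : Fr Φ) (U : Matrix (Fin N) (Fin N) 𝕜)
    (hU : U ∈ Matrix.unitaryGroup (Fin N) 𝕜) :
    MeasurePreserving (di q (cj Φ U)) (volume : Measure (EuclideanSpace ℝ (Fin q × ι))) volume :=
  sorry

-- C2
theorem DT.basic (h : Fr Φ) (hN : 1 ≤ N) {ρ : EuclideanSpace ℝ (Fin q × ι) → ℝ} (hρ : DT Φ ρ) :
    (∀ U ∈ Matrix.unitaryGroup (Fin N) 𝕜, (mu ρ).map (di q (cj Φ U)) = mu ρ) ∧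
    (∀ r, DT Φ ({x | ∀ j, OpL r (Φ (cp j x))}.indicator ρ)) ∧
    (∀ r, DT Φ ({x | ‖x‖ ≤ r}.indicator ρ)) ∧
    (∀ c, 0 ≤ c → DT Φ (fun x => c * ρ x)) ∧
    (∀ K : ℝ, 0 < K → ∀ τ : EuclideanSpace ℝ (Fin q),
      DT Φ (fun x => ρ x * tw (fun j => inj (tv Φ) j) K τ x) ∧
      St (fun j : Fin q => inj (tv Φ) j) K (fun x => ρ x * tw (fun j => inj (tv Φ) j) K τ x)) :=
  sorry

-- C3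
theorem casimir (h : Fr Φ) (hN : 1 ≤ N) (w : EuclideanSpace ℝ (Fin q × ι)) :
    (N : ℝ) * (‖w‖ ^ 2 - ∑ j, ⟪inj (tv Φ) j, w⟫_ℝ ^ 2) ≤ ∑ k, ‖di q (ad Φ (Km 𝕜 k)) w‖ ^ 2 := sorry

-- C4
theorem lam (h : Fr Φ) (r : ℝ) (hr : 0 ≤ r) (x : EuclideanSpace ℝ (Fin q × ι))
    (hx : ∀ j, OpL r (Φ (cp j x))) (w : EuclideanSpace ℝ (Fin q × ι)) :
    ∑ k, ⟪w, di q (ad Φ (Km 𝕜 k)) x⟫_ℝ ^ 2 ≤ 4 * r ^ 2 * q * ‖w‖ ^ 2 := sorry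

-- C5
theorem strucq (h : Fr Φ) (hN : 1 ≤ N) : ∃ (c : KI N → KI N → KI N → ℝ) (κ : ℝ), (N : ℝ) - 2 ≤ κ ∧
    (∀ i j k, c j i k = - c i j k) ∧ (∀ i j k, c i k j = - c i j k) ∧
    (∀ i j x, di q (ad Φ (Km 𝕜 i)) (di q (ad Φ (Km 𝕜 j)) x) -
      di q (ad Φ (Km 𝕜 j)) (di q (ad Φ (Km 𝕜 i)) x) = ∑ k, c i j k • di q (ad Φ (Km 𝕜 k)) x) ∧
    (∀ k x, ∑ l, (∑ i, ∑ j, c i j k * c i j l) • di q (ad Φ (Km 𝕜 l)) x =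
      κ • di q (ad Φ (Km 𝕜 k)) x) := sorry

theorem di_skew (h : Fr Φ) (K : Matrix (Fin N) (Fin N) 𝕜) (hK : Kᴴ = -K)
    (x y : EuclideanSpace ℝ (Fin q × ι)) :
    ⟪di q (ad Φ K) x, y⟫_ℝ = - ⟪x, di q (ad Φ K) y⟫_ℝ := sorry

-- C6a
theorem dl_integralq (h : Fr Φ) (μ : Measure (EuclideanSpace ℝ (Fin q × ι))) [IsFiniteMeasure μ]
    (hinv : ∀ U ∈ Matrix.unitaryGroup (Fin N) 𝕜, μ.map (di q (cj Φ U)) = μ)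
    (hb : ∃ R, μ (Metric.closedBall 0 R)ᶜ = 0) (K : Matrix (Fin N) (Fin N) 𝕜) (hK : Kᴴ = -K)
    (p : MvPolynomial (Fin q × ι) ℝ) : ∫ x, ev (dl (di q (ad Φ K)) p) x ∂μ = 0 := sorry

-- C6b
theorem CI_of_dl (h : Fr Φ) (p : MvPolynomial (Fin q × ι) ℝ)
    (hp : ∀ k, dl (di q (ad Φ (Km 𝕜 k))) p = 0) : CI Φ (ev p) := sorry

-- C6c
theorem fderiv_of_CI (h : Fr Φ) (v : EuclideanSpace ℝ (Fin q × ι) → ℝ) (hv : ContDiff ℝ 1 v)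
    (hi : CI Φ v) (K : Matrix (Fin N) (Fin N) 𝕜) (hK : Kᴴ = -K)
    (x : EuclideanSpace ℝ (Fin q × ι)) : fderiv ℝ v x (di q (ad Φ K) x) = 0 := sorry

-- C7
theorem local_poincareq (h : Fr Φ) (hN : 3 ≤ N) (ρ : EuclideanSpace ℝ (Fin q × ι) → ℝ)
    (hρ : DT Φ ρ) (hb : Bdd ρ) (hfin : mu ρ univ ≠ ⊤) (r : ℝ) (hr : 0 < r)
    (hs : ∀ x, ¬ (∀ j, OpL r (Φ (cp j x))) → ρ x = 0) (K : ℝ) (hK : 0 < K)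
    (hT : St (fun j : Fin q => inj (tv Φ) j) K ρ)
    (f : EuclideanSpace ℝ (Fin q × ι) → ℝ) (hf : ContDiff ℝ 1 f) :
    ∃ c : ℝ, ∫ x, (f x - c) ^ 2 ∂(mu ρ) ≤
      (64 * r ^ 2 * q / N + 4 * K) * ∫ x, ‖fderiv ℝ f x‖ ^ 2 ∂(mu ρ) := sorry

end tuples

/-! ## V: crude Poincare inequality, removing the tilts -/

section untilt

-- V1
theorem borell {F : Type} [NormedAddCommGroup F] [InnerProductSpace ℝ F]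
    [FiniteDimensional ℝ F] [MeasurableSpace F] [BorelSpace F] (ρ : F → ℝ) (h0 : ∀ x, 0 ≤ ρ x)
    (hm : Measurable ρ) (hlc : ∀ x y : F, ∀ t : ℝ, 0 < t → t < 1 →
      ρ x ^ (1 - t) * ρ y ^ t ≤ ρ ((1 - t) • x + t • y)) (h1 : mu ρ univ = 1)
    (σ : ℝ) (hσ : 0 < σ) (hi : Integrable (fun x => ‖x‖ ^ 2) (mu ρ))
    (hmom : ∫ x, ‖x‖ ^ 2 ∂(mu ρ) ≤ σ ^ 2) (r : ℝ) (hr : 3 * σ ≤ r) :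
    mu ρ (Metric.closedBall 0 r)ᶜ ≤ ENNReal.ofReal (Real.exp (-(r / (3 * σ)))) := sorry

-- V2
theorem crude : ∃ C : ℝ, 0 < C ∧ ∀ {κ : Type} [Fintype κ] (ρ : EuclideanSpace ℝ κ → ℝ), LC ρ →
    mu ρ univ = 1 → ∀ σ : ℝ, 0 < σ → ∫ x, ‖x‖ ^ 2 ∂(mu ρ) ≤ σ ^ 2 →
    ∀ f : EuclideanSpace ℝ κ → ℝ, ContDiff ℝ 1 f →
    ∫ x, f x ^ 2 ∂(mu ρ) - (∫ x, f x ∂(mu ρ)) ^ 2 ≤
      C * σ ^ 2 * ∫ x, ‖fderiv ℝ f x‖ ^ 2 ∂(mu ρ) := sorry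

-- V3
theorem crude_all : ∃ C : ℝ, 0 < C ∧ ∀ {κ : Type} [Fintype κ] (Z M : EuclideanSpace ℝ κ → ℝ),
    (∀ x, 0 < Z x) → Continuous Z →
    (∀ a b : EuclideanSpace ℝ κ, ∀ t : ℝ, 0 < t → t < 1 →
      Z a ^ (1 - t) * Z b ^ t ≤ Z ((1 - t) • a + t • b)) →
    Integrable Z → ∀ σ : ℝ, 0 < σ → Integrable (fun x => ‖x‖ ^ 2 * Z x) →
    (∫ x, ‖x‖ ^ 2 * Z x ≤ σ ^ 2 * ∫ x, Z x) → ContDiff ℝ 1 M → (∃ B, ∀ x, |M x| ≤ B) →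
    Integrable (fun x => ‖fderiv ℝ M x‖ ^ 2 * Z x) →
    ∃ c : ℝ, ∫ x, (M x - c) ^ 2 * Z x ≤ C * σ ^ 2 * ∫ x, ‖fderiv ℝ M x‖ ^ 2 * Z x := sorry

variable {κ : Type} [Fintype κ] {q : ℕ}

-- V4a
theorem tw_deriv (μ : Measure (EuclideanSpace ℝ κ)) [IsFiniteMeasure μ]
    (hb : ∃ R, μ (Metric.closedBall 0 R)ᶜ = 0) (e : Fin q → EuclideanSpace ℝ κ) (K : ℝ)
    (hK : 0 < K) (g : EuclideanSpace ℝ κ → ℝ) (hg : Continuous g) :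
    ContDiff ℝ 1 (fun τ : EuclideanSpace ℝ (Fin q) => ∫ x, g x * tw e K τ x ∂μ) ∧
    ∀ τ a : EuclideanSpace ℝ (Fin q),
      fderiv ℝ (fun τ : EuclideanSpace ℝ (Fin q) => ∫ x, g x * tw e K τ x ∂μ) τ a =
      ∫ x, g x * ((∑ j, a j * (⟪e j, x⟫_ℝ - τ j)) / K) * tw e K τ x ∂μ := sorry

-- V4b
theorem tw_fub (μ : Measure (EuclideanSpace ℝ κ)) [IsFiniteMeasure μ]
    (hb : ∃ R, μ (Metric.closedBall 0 R)ᶜ = 0) (e : Fin q → EuclideanSpace ℝ κ) (K : ℝ)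
    (hK : 0 < K) (g : EuclideanSpace ℝ κ → ℝ) (hg : Continuous g) :
    (Integrable fun τ : EuclideanSpace ℝ (Fin q) => ∫ x, g x * tw e K τ x ∂μ) ∧
    (∫ τ : EuclideanSpace ℝ (Fin q), ∫ x, g x * tw e K τ x ∂μ) =
      Real.sqrt (2 * Real.pi * K) ^ q * ∫ x, g x ∂μ ∧
    (Integrable fun τ : EuclideanSpace ℝ (Fin q) => ‖τ‖ ^ 2 * ∫ x, tw e K τ x ∂μ) ∧
    (∫ τ : EuclideanSpace ℝ (Fin q), ‖τ‖ ^ 2 * ∫ x, tw e K τ x ∂μ) =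
      Real.sqrt (2 * Real.pi * K) ^ q * ∫ x, (∑ j, ⟪e j, x⟫_ℝ ^ 2 + q * K) ∂μ := sorry

-- V4c
theorem tw_lc (ρ : EuclideanSpace ℝ κ → ℝ) (h0 : ∀ x, 0 ≤ ρ x) (hm : Measurable ρ)
    (hlc : ∀ x y : EuclideanSpace ℝ κ, ∀ t : ℝ, 0 < t → t < 1 →
      ρ x ^ (1 - t) * ρ y ^ t ≤ ρ ((1 - t) • x + t • y)) (hfin : mu ρ univ ≠ ⊤)
    (e : Fin q → EuclideanSpace ℝ κ) (K : ℝ) (hK : 0 < K) (a b : EuclideanSpace ℝ (Fin q))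
    (t : ℝ) (ht0 : 0 < t) (ht1 : t < 1) :
    (∫ x, tw e K a x ∂(mu ρ)) ^ (1 - t) * (∫ x, tw e K b x ∂(mu ρ)) ^ t ≤
      ∫ x, tw e K ((1 - t) • a + t • b) x ∂(mu ρ) := sorry

-- V5
theorem untiltq : ∃ C : ℝ, 0 < C ∧ ∀ {κ : Type} [Fintype κ] {q : ℕ}
    (ρ : EuclideanSpace ℝ κ → ℝ), LC ρ →
    ∀ e : Fin q → EuclideanSpace ℝ κ, Orthonormal ℝ e → ∀ K : ℝ, 0 < K →
    (∀ j, ∫ x, ⟪e j, x⟫_ℝ ^ 2 ∂(mu ρ) ≤ K * (mu ρ univ).toReal) →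
    (∀ (τ : EuclideanSpace ℝ (Fin q)) (f : EuclideanSpace ℝ κ → ℝ), ContDiff ℝ 1 f →
      ∃ c : ℝ, ∫ x, (f x - c) ^ 2 * tw e K τ x ∂(mu ρ) ≤
        5 * K * ∫ x, ‖fderiv ℝ f x‖ ^ 2 * tw e K τ x ∂(mu ρ)) →
    ∀ f : EuclideanSpace ℝ κ → ℝ, ContDiff ℝ 1 f →
    ∃ c : ℝ, ∫ x, (f x - c) ^ 2 ∂(mu ρ) ≤
      C * (q + 1) * K * ∫ x, ‖fderiv ℝ f x‖ ^ 2 ∂(mu ρ) := sorry

end untilt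

/-! ## T: tails -/

section tails

variable {𝕜 : Type} [RCLike 𝕜] {N q : ℕ} {ι : Type} [Fintype ι]
  {Φ : EuclideanSpace ℝ ι →ₗ[ℝ] Matrix (Fin N) (Fin N) 𝕜}

-- T1
theorem marginal (h : Fr Φ) (ρ : EuclideanSpace ℝ (Fin q × ι) → ℝ) (hρ : DT Φ ρ) (hb : Bdd ρ)
    (h1 : mu ρ univ = 1) (j : Fin q) :
    ∃ ρ' : EuclideanSpace ℝ ι → ℝ, Dn Φ ρ' ∧ Bdd ρ' ∧ (mu ρ).map (cp j) = mu ρ' := sorry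

-- T2
theorem op_tailq (h : Fr Φ) (hN : 2 ≤ N) (ρ : EuclideanSpace ℝ (Fin q × ι) → ℝ) (hρ : DT Φ ρ)
    (hb : Bdd ρ) (h1 : mu ρ univ = 1) (s : ℝ) (hs : 0 < s)
    (hmom : ∀ θ : EuclideanSpace ℝ (Fin q × ι), ∫ x, ⟪θ, x⟫_ℝ ^ 2 ∂(mu ρ) ≤ s * ‖θ‖ ^ 2) (u : ℝ) :
    mu ρ {x | ¬ ∀ j, OpL (8 * u * Real.sqrt (N * s)) (Φ (cp j x))} ≤
      q * ENNReal.ofReal (Real.exp (N * (12 - u / 30))) := sorry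

end tails

/-! ## G: assembly -/

-- G2
theorem coreq : ∃ C : ℝ, 0 < C ∧ ∀ {𝕜 : Type} [RCLike 𝕜] {N q : ℕ} {ι : Type} [Fintype ι]
    {Φ : EuclideanSpace ℝ ι →ₗ[ℝ] Matrix (Fin N) (Fin N) 𝕜}, Fr Φ → 3 ≤ N → 1 ≤ q →
    ∀ ρ : EuclideanSpace ℝ (Fin q × ι) → ℝ, DT Φ ρ → Bdd ρ → mu ρ univ = 1 → ∀ s : ℝ, 0 < s →
    (∀ θ : EuclideanSpace ℝ (Fin q × ι), ∫ x, ⟪θ, x⟫_ℝ ^ 2 ∂(mu ρ) ≤ s * ‖θ‖ ^ 2) →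
    ∀ f : EuclideanSpace ℝ (Fin q × ι) → ℝ, ContDiff ℝ 1 f →
    ∫ x, f x ^ 2 ∂(mu ρ) - (∫ x, f x ∂(mu ρ)) ^ 2 ≤
      C * q ^ 4 * s * ∫ x, ‖fderiv ℝ f x‖ ^ 2 ∂(mu ρ) := sorry

-- G3
theorem mainq : ∃ C : ℝ, 0 < C ∧ ∀ {𝕜 : Type} [RCLike 𝕜] {N q : ℕ} {ι : Type} [Fintype ι]
    {Φ : EuclideanSpace ℝ ι →ₗ[ℝ] Matrix (Fin N) (Fin N) 𝕜}, Fr Φ → 3 ≤ N → 1 ≤ q →
    ∀ ρ : EuclideanSpace ℝ (Fin q × ι) → ℝ, DT Φ ρ → mu ρ univ = 1 → ∀ s : ℝ, 0 < s →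
    (∀ θ : EuclideanSpace ℝ (Fin q × ι), ∫⁻ x, ENNReal.ofReal (⟪θ, x⟫_ℝ ^ 2) ∂(mu ρ) ≤
      ENNReal.ofReal (s * ‖θ‖ ^ 2)) →
    ∀ f : EuclideanSpace ℝ (Fin q × ι) → ℝ, ContDiff ℝ 1 f → MemLp f 2 (mu ρ) →
    ENNReal.ofReal (∫ x, (f x - ∫ y, f y ∂(mu ρ)) ^ 2 ∂(mu ρ)) ≤
      ENNReal.ofReal (C * q ^ 4 * s) * ∫⁻ x, ENNReal.ofReal (‖fderiv ℝ f x‖ ^ 2) ∂(mu ρ) := sorry

-- G4 (general mean)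
theorem mainq_centered : ∃ C : ℝ, 0 < C ∧
    ∀ {𝕜 : Type} [RCLike 𝕜] {N q : ℕ} {ι : Type} [Fintype ι]
    {Φ : EuclideanSpace ℝ ι →ₗ[ℝ] Matrix (Fin N) (Fin N) 𝕜}, Fr Φ → 3 ≤ N → 1 ≤ q →
    ∀ ρ : EuclideanSpace ℝ (Fin q × ι) → ℝ, DT Φ ρ → mu ρ univ = 1 → ∀ s : ℝ, 0 < s →
    (∀ θ : EuclideanSpace ℝ (Fin q × ι), ProbabilityTheory.evariance (fun x => ⟪θ, x⟫_ℝ) (mu ρ) ≤
      ENNReal.ofReal (s * ‖θ‖ ^ 2)) →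
    ∀ f : EuclideanSpace ℝ (Fin q × ι) → ℝ, ContDiff ℝ 1 f → MemLp f 2 (mu ρ) →
    ENNReal.ofReal (∫ x, (f x - ∫ y, f y ∂(mu ρ)) ^ 2 ∂(mu ρ)) ≤
      ENNReal.ofReal (C * q ^ 4 * s) * ∫⁻ x, ENNReal.ofReal (‖fderiv ℝ f x‖ ^ 2) ∂(mu ρ) := sorry

end Pool.Agent.H888R2.KT.Stubs
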